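import Pool.Agent.Lib.MP_021282_al.AHat
import Pool.Agent.Lib.MP_bd8d5e_al.Bgi

/-! # Projections to translates of a set, bounded geodesic image, spinning families

Adapted from `MP_bd8d5e_al/Bgi.lean` (cosets of a subgroup), with explicit constants. -/

set_option autoImplicit false

namespace Pool.Agent.Lib.MP_021282_al

open Pool.Agent.Lib.MP_bd8d5e_al

variable {G : Type*} [Group G]

/-- the translate of `A` that belongs to a coset of `E` -/
def ax (A : Set G) (E : Subgroup G) (c : G ⧸ E) : Set G :=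
  {p | ∃ g : G, (g : G ⧸ E) = c ∧ g⁻¹ * p ∈ A}

/-- `p` is a nearest point of the axis `c` to `x` -/
def NearA (N : GNorm G) (A : Set G) (E : Subgroup G) (c : G ⧸ E) (x p : G) : Prop :=
  p ∈ ax A E c ∧ ∀ y ∈ ax A E c, N.d x p ≤ N.d x y

/-- projections of distinct axes are bounded -/
def BProjA (N : GNorm G) (A : Set G) (E : Subgroup G) (th : ℕ) : Prop :=
  ∀ c c' : G ⧸ E, c ≠ c' → ∀ z z' p p' : G, z ∈ ax A E c' → z' ∈ ax A E c' →
    NearA N A E c z p → NearA N A E c z' p' → N.d p p' ≤ th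

/-- the data of a family of axes -/
structure AxS (N : GNorm G) (A : Set G) (E : Subgroup G) (δ cq th : ℕ) : Prop where
  ne : A.Nonempty
  inv : ∀ e ∈ E, ∀ a ∈ A, e * a ∈ A
  fp : N.FP δ
  qc : QCA N A cq
  proj : BProjA N A E th

section

variable {N : GNorm G} {A : Set G} {E : Subgroup G} {δ cq th : ℕ}

theorem mem_ax (hi : ∀ e ∈ E, ∀ a ∈ A, e * a ∈ A) {g p : G} :
    p ∈ ax A E (g : G ⧸ E) ↔ g⁻¹ * p ∈ A := by
  constructor
  · rintro ⟨g', hg', h⟩
    have h1 : g⁻¹ * g' ∈ E := QuotientGroup.eq.1 hg'.symm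
    have := hi _ h1 _ h
    have e : g⁻¹ * g' * (g'⁻¹ * p) = g⁻¹ * p := by group
    rwa [e] at this
  · intro h
    exact ⟨g, rfl, h⟩

theorem smul_ax {c : G ⧸ E} {p : G} (g : G) (h : p ∈ ax A E c) : g * p ∈ ax A E (g • c) := by
  obtain ⟨k, rfl, h⟩ := h
  refine ⟨g * k, rfl, ?_⟩
  have e : (g * k)⁻¹ * (g * p) = k⁻¹ * p := by group
  rwa [e]

theorem smul_ax' {c : G ⧸ E} {p : G} (g : G) (h : g * p ∈ ax A E (g • c)) : p ∈ ax A E c := by
  have := smul_ax g⁻¹ h
  rwa [inv_smul_smul, inv_mul_cancel_left] at this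

theorem ax_nonempty (hne : A.Nonempty) (c : G ⧸ E) : (ax A E c).Nonempty := by
  obtain ⟨a, ha⟩ := hne
  obtain ⟨g, rfl⟩ := QuotientGroup.mk_surjective c
  exact ⟨g * a, g, rfl, by rwa [inv_mul_cancel_left]⟩

theorem exists_nearestA (hne : A.Nonempty) (c : G ⧸ E) (x : G) : ∃ p, NearA N A E c x p := by
  classical
  obtain ⟨y, hy⟩ := ax_nonempty (E := E) hne c
  have hex : ∃ n, ∃ p : G, p ∈ ax A E c ∧ N.d x p = n := ⟨_, y, hy, rfl⟩
  obtain ⟨p, hp, hn⟩ := Nat.find_spec hex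
  refine ⟨p, hp, fun z hz => ?_⟩
  rw [hn]
  exact Nat.find_min' hex ⟨z, hz, rfl⟩

theorem nearA_smul {c : G ⧸ E} {x p : G} (h : NearA N A E c x p) (g : G) :
    NearA N A E (g • c) (g * x) (g * p) := by
  refine ⟨smul_ax g h.1, fun y hy => ?_⟩
  have h1 : g⁻¹ * y ∈ ax A E c := by
    have := smul_ax g⁻¹ hy
    rwa [inv_smul_smul] at this
  have h2 := h.2 _ h1
  rw [N.d_left]
  have h3 := N.d_left g x (g⁻¹ * y)
  rw [mul_inv_cancel_left] at h3
  omega

theorem qca_coset' (hi : ∀ e ∈ E, ∀ a ∈ A, e * a ∈ A) {cq : ℕ} (hq : QCA N A cq) {c : G ⧸ E}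
    {p p' q : G} (hp : p ∈ ax A E c)
    (hp' : p' ∈ ax A E c) (h : N.Btw p q p') : ∃ z : G, z ∈ ax A E c ∧ N.d q z ≤ cq := by
  obtain ⟨g, rfl⟩ := QuotientGroup.mk_surjective c
  rw [mem_ax hi] at hp hp'
  obtain ⟨z, hz, h1⟩ := qca_coset hq hp hp' h
  exact ⟨z, (mem_ax hi).2 hz, h1⟩

/-- distance to a point of an axis, through the nearest point -/
theorem nearA_far (S : AxS N A E δ cq th) {c : G ⧸ E} {x p q : G}
    (hp : NearA N A E c x p) (hq' : q ∈ ax A E c) :
    N.d x p + N.d p q ≤ N.d x q + (2 * cq + 3 * δ + 6) := by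
  obtain ⟨m, hm, h1, h2⟩ := GNorm.exists_centre S.fp p q x
  obtain ⟨z, hz, h3⟩ := qca_coset' S.inv S.qc hp.1 hq' hm
  have h4 := hp.2 z hz
  have h5 := N.d_tri x m z
  have a1 := N.gp_add m p x
  have a2 := N.gp_add m q x
  have c1 := N.d_comm x m
  have c2 := N.d_comm q m
  have c3 := N.d_comm p x
  have c4 := N.d_comm q x
  unfold GNorm.Btw at hm
  omega

theorem nearA_two (S : AxS N A E δ cq th) {c : G ⧸ E} {x y p q : G}
    (hp : NearA N A E c x p) (hq' : NearA N A E c y q) (h : 2 * cq + 4 * δ + 6 < N.d p q) :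
    N.d x p + N.d p q + N.d q y ≤ N.d x y + (4 * cq + 7 * δ + 12) := by
  have h1 := nearA_far S hp hq'.1
  have h2 := nearA_far S hq' hp.1
  have h3 := S.fp x p q y
  have c1 := N.d_comm y q
  have c2 := N.d_comm q p
  have c3 := N.d_comm y p
  omega

theorem nearA_same (S : AxS N A E δ cq th) {c : G ⧸ E} {x p q : G}
    (hp : NearA N A E c x p) (hq' : NearA N A E c x q) : N.d p q ≤ 4 * cq + 7 * δ + 12 := by
  by_contra h
  have := nearA_two S hp hq' (by omega)
  rw [N.d_self] at this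
  omega

/-- nearest points are coarsely Lipschitz -/
theorem nearA_lip (S : AxS N A E δ cq th) {c : G ⧸ E} {x y p q : G}
    (hp : NearA N A E c x p) (hq' : NearA N A E c y q) :
    N.d p q ≤ N.d x y + (4 * cq + 7 * δ + 12) := by
  by_contra h
  have := nearA_two S hp hq' (by omega)
  omega

/-- a point of the axis close to `z` is close to the nearest point of `z` -/
theorem nearA_close {c : G ⧸ E} {z n y : G} (hn : NearA N A E c z n) (hy : y ∈ ax A E c) :
    N.d y n ≤ 2 * N.d z y := by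
  have h1 := hn.2 y hy
  have h2 := N.d_tri y z n
  have h3 := N.d_comm y z
  omega

theorem dA_ax (hi : ∀ e ∈ E, ∀ a ∈ A, e * a ∈ A) {c : G ⧸ E} {x y : G} (hx : x ∈ ax A E c)
    (hy : y ∈ ax A E c) : dA N A x y ≤ 1 := by
  obtain ⟨g, rfl⟩ := QuotientGroup.mk_surjective c
  exact dA_le_one ((mem_ax hi).1 hx) ((mem_ax hi).1 hy)

/-- auxiliary constants -/
def bgN (δ cq : ℕ) : ℕ :=
  2 * (1 + cq + (morC δ cq (4 * cq + 7 * δ + 12) + δ + 1)) + 2 * cq + 1

/-- auxiliary constants -/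
def bgT (δ cq th : ℕ) : ℕ :=
  2 * (cq + 2 * (2 * cq + (morC δ cq (4 * cq + 7 * δ + 12) + δ + 1))) + th + 2

/-- constant of the bounded geodesic image property for points -/
def bgP (δ cq th : ℕ) : ℕ :=
  4 * cq + 7 * δ + 12 + (bgT δ cq th + 1 + bgT δ cq th) * (2 * bgN δ cq + 1)

/-- constant of the bounded geodesic image property for objects -/
def bgM (δ cq th : ℕ) : ℕ := bgP δ cq th + 2 * (th + (4 * cq + 7 * δ + 12))

/-- bounded geodesic image for points -/
theorem bgiA_point (S : AxS N A E δ cq th) :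
    ∀ (c : G ⧸ E) (x y p q : G), NearA N A E c x p → NearA N A E c y q →
      bgP δ cq th < N.d p q →
      ∀ (n : ℕ) (P : ℕ → G), HGeoA N A n P → P 0 = x → P n = y →
        ∃ i < n, P i ∈ ax A E c ∧ P (i + 1) ∈ ax A E c := by
  classical
  have hD0 := morseA S.fp S.qc (4 * cq + 7 * δ + 12)
  set D0 := morC δ cq (4 * cq + 7 * δ + 12) with hD0def
  set D1 := D0 + δ + 1 with hD1
  set N1 := 2 * (1 + cq + D1) + 2 * cq + 1 with hN1
  set th1 := 2 * (cq + 2 * (2 * cq + D1)) + th + 2 with hth1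
  have hbg : bgP δ cq th = 4 * cq + 7 * δ + 12 + (th1 + 1 + th1) * (2 * N1 + 1) := rfl
  rw [hbg]
  intro c x y p q hp hqn hM n P hP h0 hn
  have htwo := nearA_two S hp hqn (by omega)
  have hn0 : 0 < n := by
    rcases Nat.eq_zero_or_pos n with h | h
    · subst h
      have : x = y := by rw [← h0, hn]
      subst this
      rw [N.d_self] at htwo
      omega
    · exact h
  by_contra hcon
  push Not at hcon
  -- points on the geodesic from p to q
  have hr : ∀ k, ∃ r, k ≤ N.d p q → N.d p r = k ∧ N.d r q = N.d p q - k := by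
    intro k
    by_cases hk : k ≤ N.d p q
    · obtain ⟨z, h1, h2⟩ := N.exists_btw p q hk
      exact ⟨z, fun _ => ⟨h1, h2⟩⟩
    · exact ⟨p, fun h => absurd h hk⟩
  choose r hr using hr
  -- data for each k
  have hdata : ∀ k, ∃ i, ∃ qk yk : G, k ≤ N.d p q → i < n ∧ N.Btw (P i) qk (P (i + 1)) ∧
      N.d (r k) qk ≤ D1 ∧ yk ∈ ax A E c ∧ N.d (r k) yk ≤ cq := by
    intro k
    by_cases hk : k ≤ N.d p q
    · obtain ⟨h1, h2⟩ := hr k hk
      have hg : N.gp (r k) (P 0) (P n) ≤ 4 * cq + 7 * δ + 12 := by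
        rw [h0, hn]
        have a1 := N.gp_add (r k) x y
        have a2 := N.d_tri x p (r k)
        have a3 := N.d_tri y q (r k)
        have a4 := N.d_comm y q
        have a5 := N.d_comm q (r k)
        omega
      obtain ⟨i, hi, hi'⟩ := hD0 n P hn0 hP (r k) hg
      obtain ⟨qk, hq1, hq2⟩ := GNorm.exists_near S.fp (P i) (P (i + 1)) (r k)
      obtain ⟨yk, hy1, hy2⟩ := qca_coset' S.inv S.qc hp.1 hqn.1 (q := r k) (by unfold GNorm.Btw; omega)
      exact ⟨i, qk, yk, fun _ => ⟨hi, hq1, by omega, hy1, hy2⟩⟩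
    · exact ⟨0, p, p, fun h => absurd h hk⟩
  choose i qk yk hd using hdata
  -- indices are in a window
  have hwin : ∀ k k', k ≤ N.d p q → k' ≤ N.d p q → i k ≤ i k' + N1 := by
    intro k k' hk hk'
    obtain ⟨a1, a2, a3, a4, a5⟩ := hd k hk
    obtain ⟨b1, b2, b3, b4, b5⟩ := hd k' hk'
    have s1 := (dA_step S.qc (hP.step _ a1) a2).1
    have s2 := (dA_step S.qc (hP.step _ b1) b2).1
    have e1 : dA N A (yk k) (yk k') ≤ 1 := dA_ax S.inv a4 b4
    have u1 := dA_le_d (N := N) (A := A) (qk k) (r k)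
    have u2 := dA_le_d (N := N) (A := A) (r k) (yk k)
    have u3 := dA_le_d (N := N) (A := A) (yk k') (r k')
    have u4 := dA_le_d (N := N) (A := A) (r k') (qk k')
    have t1 := (hatA N A).d_tri (P (i k)) (qk k) (P (i k'))
    have t2 := (hatA N A).d_tri (qk k) (r k) (P (i k'))
    have t3 := (hatA N A).d_tri (r k) (yk k) (P (i k'))
    have t4 := (hatA N A).d_tri (yk k) (yk k') (P (i k'))
    have t5 := (hatA N A).d_tri (yk k') (r k') (P (i k'))
    have t6 := (hatA N A).d_tri (r k') (qk k') (P (i k'))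
    have c1 := (hatA N A).d_comm (qk k') (P (i k'))
    have c2 := N.d_comm (qk k) (r k)
    have c3 := N.d_comm (yk k') (r k')
    have hle : dA N A (P (i k)) (P (i k')) ≤ N1 := by
      unfold dA at *
      omega
    rcases le_total (i k) (i k') with h | h
    · omega
    · have h2 := hP.dist (i k') (i k) h (by omega)
      have c4 := (hatA N A).d_comm (P (i k)) (P (i k'))
      unfold dA at *
      omega
  -- fibres
  have hfib : ∀ k k', k ≤ N.d p q → k' ≤ N.d p q → i k = i k' → k ≤ k' + th1 := by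
    intro k k' hk hk' he
    obtain ⟨a1, a2, a3, a4, a5⟩ := hd k hk
    obtain ⟨b1, b2, b3, b4, b5⟩ := hd k' hk'
    rw [← he] at b1 b2
    have hkk : k ≤ k' + N.d (r k') (r k) := by
      have e1 := (hr k hk).1
      have e2 := (hr k' hk').1
      have := N.d_tri p (r k') (r k)
      omega
    suffices N.d (r k') (r k) ≤ th1 by omega
    rcases hP.step _ a1 with hs | ⟨g0, g1, g2⟩
    · have s0 : N.d (P (i k)) (P (i k + 1)) ≤ 1 := hs
      have t1 := N.d_tri (r k') (qk k') (r k)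
      have t2 := N.d_tri (qk k') (P (i k)) (r k)
      have t3 := N.d_tri (P (i k)) (qk k) (r k)
      have c1 := N.d_comm (qk k') (P (i k))
      have c2 := N.d_comm (qk k) (r k)
      unfold GNorm.Btw at a2 b2
      omega
    · have f1 : P (i k) ∈ ax A E ((P (i k) * g0 : G) : G ⧸ E) := by
        rw [mem_ax S.inv]
        have e : (P (i k) * g0)⁻¹ * P (i k) = g0⁻¹ := by group
        rw [e]; exact g1
      have f2 : P (i k + 1) ∈ ax A E ((P (i k) * g0 : G) : G ⧸ E) := by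
        rw [mem_ax S.inv]
        have e : (P (i k) * g0)⁻¹ * P (i k + 1) = g0⁻¹ * ((P (i k))⁻¹ * P (i k + 1)) := by group
        rw [e]; exact g2
      have hne : c ≠ ((P (i k) * g0 : G) : G ⧸ E) := by
        rintro h
        rw [← h] at f1 f2
        exact hcon (i k) a1 f1 f2
      obtain ⟨z, hz1, hz2⟩ := qca_coset' S.inv S.qc f1 f2 a2
      obtain ⟨z', hz1', hz2'⟩ := qca_coset' S.inv S.qc f1 f2 b2
      obtain ⟨nk, hnk⟩ := exists_nearestA S.ne (N := N) c z
      obtain ⟨nk', hnk'⟩ := exists_nearestA S.ne (N := N) c z'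
      have hbp := S.proj c _ hne z z' nk nk' hz1 hz1' hnk hnk'
      have n1 := nearA_close hnk a4
      have n2 := nearA_close hnk' b4
      have t1 := N.d_tri z (qk k) (yk k)
      have t2 := N.d_tri (qk k) (r k) (yk k)
      have t3 := N.d_tri z' (qk k') (yk k')
      have t4 := N.d_tri (qk k') (r k') (yk k')
      have c1 := N.d_comm z (qk k)
      have c2 := N.d_comm (qk k) (r k)
      have c3 := N.d_comm z' (qk k')
      have c4 := N.d_comm (qk k') (r k')
      have t5 := N.d_tri (r k') (yk k') (r k)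
      have t6 := N.d_tri (yk k') nk' (r k)
      have t7 := N.d_tri nk' nk (r k)
      have t8 := N.d_tri nk (yk k) (r k)
      have c5 := N.d_comm nk' nk
      have c6 := N.d_comm nk (yk k)
      have c7 := N.d_comm (yk k) (r k)
      omega
  -- counting
  have hcount := Finset.card_le_mul_card_image_of_maps_to (s := Finset.range (N.d p q + 1))
    (t := Finset.Icc (i 0 - N1) (i 0 + N1)) (f := i) (fun k hk => by
      rw [Finset.mem_range] at hk
      rw [Finset.mem_Icc]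
      have h1 := hwin k 0 (by omega) (by omega)
      have h2 := hwin 0 k (by omega) (by omega)
      omega) (th1 + 1 + th1) (fun b _ => by
      by_cases hne : ∃ k0 ∈ Finset.range (N.d p q + 1), i k0 = b
      · obtain ⟨k0, hk0, rfl⟩ := hne
        have hsub : {k ∈ Finset.range (N.d p q + 1) | i k = i k0} ⊆
            Finset.Icc (k0 - th1) (k0 + th1) := by
          intro k hk
          rw [Finset.mem_filter, Finset.mem_range] at hk
          rw [Finset.mem_range] at hk0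
          rw [Finset.mem_Icc]
          have h1 := hfib k k0 (by omega) (by omega) hk.2
          have h2 := hfib k0 k (by omega) (by omega) hk.2.symm
          omega
        refine (Finset.card_le_card hsub).trans ?_
        rw [Nat.card_Icc]; omega
      · have : {k ∈ Finset.range (N.d p q + 1) | i k = b} = ∅ := by
          rw [Finset.filter_eq_empty_iff]
          intro k hk h
          exact hne ⟨k, hk, h⟩
        rw [this]; simp)
  rw [Finset.card_range, Nat.card_Icc] at hcount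
  have h5 : i 0 + N1 + 1 - (i 0 - N1) ≤ 2 * N1 + 1 := by omega
  have h6 := Nat.mul_le_mul_left (th1 + 1 + th1) h5
  omega

/-! ## Objects: elements and cosets -/

variable (A E) in
/-- the underlying set of an object -/
def bodyA : G ⊕ (G ⧸ E) → Set G
  | Sum.inl x => {x}
  | Sum.inr c => ax A E c

theorem bodyA_nonempty (hne : A.Nonempty) (a : G ⊕ (G ⧸ E)) : (bodyA A E a).Nonempty := by
  rcases a with x | c
  · exact ⟨x, rfl⟩
  · exact ax_nonempty hne c

theorem smul_bodyA {a : G ⊕ (G ⧸ E)} {x : G} (g : G) (h : x ∈ bodyA A E a) :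
    g * x ∈ bodyA A E (g • a) := by
  rcases a with y | c
  · have h : x = y := h
    subst h; exact rfl
  · exact smul_ax g h

theorem smul_bodyA' {a : G ⊕ (G ⧸ E)} {x : G} (g : G) (h : x ∈ bodyA A E (g • a)) :
    g⁻¹ * x ∈ bodyA A E a := by
  have := smul_bodyA g⁻¹ h
  rwa [inv_smul_smul] at this

variable (N A E) in
/-- nearest points of an object -/
def NearVA (c : G ⧸ E) (a : G ⊕ (G ⧸ E)) : Set G := {p | ∃ x ∈ bodyA A E a, NearA N A E c x p}

theorem nearVA_nonempty (hne : A.Nonempty) (c : G ⧸ E) (a : G ⊕ (G ⧸ E)) :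
    (NearVA N A E c a).Nonempty := by
  obtain ⟨x, hx⟩ := bodyA_nonempty hne a
  obtain ⟨p, hp⟩ := exists_nearestA (N := N) hne c x
  exact ⟨p, x, hx, hp⟩

theorem nearVA_smul {c : G ⧸ E} {a : G ⊕ (G ⧸ E)} {p : G} (g : G) (h : p ∈ NearVA N A E c a) :
    g * p ∈ NearVA N A E (g • c) (g • a) := by
  obtain ⟨x, hx, hp⟩ := h
  exact ⟨g * x, smul_bodyA g hx, nearA_smul hp g⟩

/-- diameter of the nearest points of an object -/
theorem nearVA_diam (S : AxS N A E δ cq th)
    {c : G ⧸ E} {a : G ⊕ (G ⧸ E)} (ha : a ≠ Sum.inr c) {p p' : G} (hp : p ∈ NearVA N A E c a)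
    (hp' : p' ∈ NearVA N A E c a) : N.d p p' ≤ th + (4 * cq + 7 * δ + 12) := by
  obtain ⟨x, hx, h1⟩ := hp
  obtain ⟨x', hx', h2⟩ := hp'
  rcases a with y | c'
  · have hx : x = y := hx
    have hx' : x' = y := hx'
    subst hx hx'
    have := nearA_same S h1 h2
    omega
  · have hne : c ≠ c' := fun h => ha (by rw [h])
    have := S.proj c c' hne x x' p p' hx hx' h1 h2
    omega

variable (N A E) in
open Classical in
/-- distance of objects in the hat metric -/
noncomputable def mVA (a b : G ⊕ (G ⧸ E)) : ℕ :=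
  sInf {n | ∃ x ∈ bodyA A E a, ∃ y ∈ bodyA A E b, dA N A x y = n}

theorem mVA_spec (hne : A.Nonempty) (a b : G ⊕ (G ⧸ E)) :
    ∃ x ∈ bodyA A E a, ∃ y ∈ bodyA A E b, dA N A x y = mVA N A E a b := by
  have hn : {n | ∃ x ∈ bodyA A E a, ∃ y ∈ bodyA A E b, dA N A x y = n}.Nonempty := by
    obtain ⟨x, hx⟩ := bodyA_nonempty hne a
    obtain ⟨y, hy⟩ := bodyA_nonempty hne b
    exact ⟨_, x, hx, y, hy, rfl⟩
  exact Nat.sInf_mem hn

theorem mVA_le {a b : G ⊕ (G ⧸ E)} {x y : G} (hx : x ∈ bodyA A E a) (hy : y ∈ bodyA A E b) :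
    mVA N A E a b ≤ dA N A x y := Nat.sInf_le ⟨x, hx, y, hy, rfl⟩

theorem mVA_points (hne : A.Nonempty) (x y : G) : mVA N A E (Sum.inl x) (Sum.inl y) = dA N A x y := by
  obtain ⟨x', hx', y', hy', h⟩ := mVA_spec (N := N) (E := E) hne (Sum.inl x) (Sum.inl y)
  have hx' : x' = x := hx'
  have hy' : y' = y := hy'
  rw [← h, hx', hy']

variable (N A E) in
/-- the angle at a coset -/
noncomputable def DVA (v a b : G ⊕ (G ⧸ E)) : ℕ :=
  match v with
  | Sum.inl _ => 0
  | Sum.inr c => sSup {n | ∃ p ∈ NearVA N A E c a, ∃ q ∈ NearVA N A E c b, N.d p q = n}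

theorem DVA_bdd (S : AxS N A E δ cq th)
    {c : G ⧸ E} {a b : G ⊕ (G ⧸ E)} (ha : a ≠ Sum.inr c) (hb' : b ≠ Sum.inr c) :
    BddAbove {n | ∃ p ∈ NearVA N A E c a, ∃ q ∈ NearVA N A E c b, N.d p q = n} := by
  obtain ⟨p₀, hp₀⟩ := nearVA_nonempty (N := N) S.ne c a
  obtain ⟨q₀, hq₀⟩ := nearVA_nonempty (N := N) S.ne c b
  refine ⟨2 * (th + (4 * cq + 7 * δ + 12)) + N.d p₀ q₀, ?_⟩
  rintro n ⟨p, hp, q, hqq, rfl⟩
  have h1 := nearVA_diam S ha hp hp₀
  have h2 := nearVA_diam S hb' hq₀ hqq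
  have t1 := N.d_tri p p₀ q
  have t2 := N.d_tri p₀ q₀ q
  omega

theorem le_DVA (S : AxS N A E δ cq th)
    {c : G ⧸ E} {a b : G ⊕ (G ⧸ E)} (ha : a ≠ Sum.inr c) (hb' : b ≠ Sum.inr c) {p q : G}
    (hp : p ∈ NearVA N A E c a) (hqq : q ∈ NearVA N A E c b) : N.d p q ≤ DVA N A E (Sum.inr c) a b :=
  le_csSup (DVA_bdd S ha hb') ⟨p, hp, q, hqq, rfl⟩

theorem DVA_spec (S : AxS N A E δ cq th)
    {c : G ⧸ E} {a b : G ⊕ (G ⧸ E)} (ha : a ≠ Sum.inr c) (hb' : b ≠ Sum.inr c) :
    ∃ p ∈ NearVA N A E c a, ∃ q ∈ NearVA N A E c b, N.d p q = DVA N A E (Sum.inr c) a b := by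
  have hn : {n | ∃ p ∈ NearVA N A E c a, ∃ q ∈ NearVA N A E c b, N.d p q = n}.Nonempty := by
    obtain ⟨p₀, hp₀⟩ := nearVA_nonempty (N := N) S.ne c a
    obtain ⟨q₀, hq₀⟩ := nearVA_nonempty (N := N) S.ne c b
    exact ⟨_, p₀, hp₀, q₀, hq₀, rfl⟩
  exact Nat.sSup_mem hn (DVA_bdd S ha hb')

theorem DVA_le (hne : A.Nonempty) {c : G ⧸ E} {a b : G ⊕ (G ⧸ E)} {n : ℕ}
    (h : ∀ p ∈ NearVA N A E c a, ∀ q ∈ NearVA N A E c b, N.d p q ≤ n) : DVA N A E (Sum.inr c) a b ≤ n := by
  apply csSup_le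
  · obtain ⟨p₀, hp₀⟩ := nearVA_nonempty (N := N) hne c a
    obtain ⟨q₀, hq₀⟩ := nearVA_nonempty (N := N) hne c b
    exact ⟨_, p₀, hp₀, q₀, hq₀, rfl⟩
  · rintro _ ⟨p, hp, q, hqq, rfl⟩
    exact h p hp q hqq

/-- the bounded geodesic image property for objects, with constant `M` -/
def BgiVA (N : GNorm G) (A : Set G) (E : Subgroup G) (M : ℕ) : Prop :=
  ∀ (c : G ⧸ E) (a b : G ⊕ (G ⧸ E)), a ≠ Sum.inr c → b ≠ Sum.inr c →
    M < DVA N A E (Sum.inr c) a b →
      mVA N A E a (Sum.inr c) + 1 + mVA N A E (Sum.inr c) b ≤ mVA N A E a b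

theorem bgiVA (S : AxS N A E δ cq th) : BgiVA N A E (bgM δ cq th) := by
  have hM0 := bgiA_point S
  intro c a b ha hb' hD
  have hbg : bgM δ cq th = bgP δ cq th + 2 * (th + (4 * cq + 7 * δ + 12)) := rfl
  rw [hbg] at hD
  obtain ⟨p, hp, q, hqq, hpq⟩ := DVA_spec S ha hb'
  obtain ⟨x, hx, y, hy, hxy⟩ := mVA_spec (N := N) (E := E) S.ne a b
  obtain ⟨p', hp'⟩ := exists_nearestA (N := N) S.ne c x
  obtain ⟨q', hq'⟩ := exists_nearestA (N := N) S.ne c y
  have h1 := nearVA_diam S ha hp ⟨x, hx, hp'⟩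
  have h2 := nearVA_diam S hb' ⟨y, hy, hq'⟩ hqq
  have t1 := N.d_tri p p' q
  have t2 := N.d_tri p' q' q
  obtain ⟨P, h0, hn, hP⟩ := exists_hgeoA (N := N) (A := A) x y
  obtain ⟨i, hi, hi1, hi2⟩ := hM0 c x y p' q' hp' hq' (by omega) _ P hP h0 hn
  have m1 := mVA_le (N := N) (a := a) (b := Sum.inr c) hx
    (show P i ∈ bodyA A E (Sum.inr c) from hi1)
  have m2 := mVA_le (N := N) (a := Sum.inr c) (b := b)
    (show P (i + 1) ∈ bodyA A E (Sum.inr c) from hi2) hy
  have e1 := hP.dist 0 i (by omega) (by omega)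
  have e2 := hP.dist (i + 1) _ (by omega) le_rfl
  rw [h0] at e1
  rw [hn] at e2
  unfold dA at *
  omega

/-- the spinning family of the translates of `A` with rotation group `R` -/
noncomputable def spinA {L : ℕ} (S : AxS N A E δ cq th) (R : Subgroup G) (hR : R ≤ E)
    (hL : ∀ r ∈ R, r ≠ 1 → ∀ a ∈ A, L ≤ N.l (a⁻¹ * r * a))
    (hLM : 20 * bgM δ cq th + 1 ≤ L) : Spin G (G ⊕ (G ⧸ E)) where
  A := Set.range Sum.inr
  Kv := GNorm.KV E R
  m := mVA N A E
  D := DVA N A E
  M := bgM δ cq th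
  L := L
  m_comm a b := by
    have key : ∀ a b : G ⊕ (G ⧸ E), mVA N A E a b ≤ mVA N A E b a := by
      intro a b
      obtain ⟨x, hx, y, hy, h⟩ := mVA_spec (N := N) (E := E) S.ne b a
      have := mVA_le (N := N) hy hx
      have c := (hatA N A).d_comm x y
      unfold dA at *
      omega
    exact le_antisymm (key a b) (key b a)
  m_self a := by
    obtain ⟨x, hx⟩ := bodyA_nonempty S.ne a
    have := mVA_le (N := N) hx hx
    have c := (hatA N A).d_self x
    unfold dA at *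
    omega
  D_comm v a b := by
    rcases v with x | c
    · rfl
    · refine congrArg sSup (Set.ext fun n => ?_)
      constructor
      · rintro ⟨p, hp, q, hq, h⟩
        exact ⟨q, hq, p, hp, by rw [N.d_comm]; exact h⟩
      · rintro ⟨p, hp, q, hq, h⟩
        exact ⟨q, hq, p, hp, by rw [N.d_comm]; exact h⟩
  D_tri := by
    rintro _ ⟨c, rfl⟩ a b d ha hb' hd
    apply DVA_le S.ne
    intro p hp r hr
    obtain ⟨q, hqq⟩ := nearVA_nonempty (N := N) S.ne c b
    have h1 := le_DVA S ha hb' hp hqq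
    have h2 := le_DVA S hb' hd hqq hr
    have := N.d_tri p q r
    omega
  bgi := by
    rintro _ ⟨c, rfl⟩ a b ha hb' hD
    exact bgiVA S c a b ha hb' hD
  m_tri := by
    rintro _ ⟨c, rfl⟩ a b
    obtain ⟨x, hx, y, hy, h1⟩ := mVA_spec (N := N) (E := E) S.ne a (Sum.inr c)
    obtain ⟨y', hy', z, hz, h2⟩ := mVA_spec (N := N) (E := E) S.ne (Sum.inr c) b
    have h3 := mVA_le (N := N) hx hz
    have h4 : dA N A y y' ≤ 1 := dA_ax S.inv hy hy'
    have t1 := (hatA N A).d_tri x y z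
    have t2 := (hatA N A).d_tri y y' z
    unfold dA at *
    omega
  m_smul g a b := by
    apply le_antisymm
    · obtain ⟨x, hx, y, hy, h⟩ := mVA_spec (N := N) (E := E) S.ne a b
      have := mVA_le (N := N) (smul_bodyA g hx) (smul_bodyA g hy)
      have c := (hatA N A).d_left g x y
      unfold dA at *
      omega
    · obtain ⟨x, hx, y, hy, h⟩ := mVA_spec (N := N) (E := E) S.ne (g • a) (g • b)
      have := mVA_le (N := N) (smul_bodyA' g hx) (smul_bodyA' g hy)
      have c := (hatA N A).d_left g⁻¹ x y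
      unfold dA at *
      omega
  D_smul g v a b := by
    rcases v with x | c
    · rfl
    · refine congrArg sSup (Set.ext fun n => ?_)
      constructor
      · rintro ⟨p, hp, q, hqq, h⟩
        have h1 := nearVA_smul g⁻¹ hp
        have h2 := nearVA_smul g⁻¹ hqq
        simp only [inv_smul_smul] at h1 h2
        exact ⟨_, h1, _, h2, by rw [N.d_left]; exact h⟩
      · rintro ⟨p, hp, q, hqq, h⟩
        exact ⟨_, nearVA_smul g hp, _, nearVA_smul g hqq, by rw [N.d_left]; exact h⟩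
  A_smul := by
    rintro g _ ⟨c, rfl⟩
    exact ⟨g • c, rfl⟩
  Kv_smul g h v hh := by
    rcases v with x | c
    · have hh : h = 1 := hh
      subst hh
      rw [mul_one, mul_inv_cancel]
      exact one_mem _
    · intro k hk
      have h1 : ((g⁻¹ * k : G) : G ⧸ E) = c := by
        have : ((g⁻¹ * k : G) : G ⧸ E) = g⁻¹ • (k : G ⧸ E) := rfl
        rw [this, hk]; exact inv_smul_smul g c
      have h2 := hh _ h1
      have e : k⁻¹ * (g * h * g⁻¹) * k = (g⁻¹ * k)⁻¹ * h * (g⁻¹ * k) := by group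
      rw [e]; exact h2
  Kv_fix := by
    rintro _ ⟨c, rfl⟩ h hh
    show Sum.inr (h • c) = Sum.inr c
    rw [GNorm.KV_fix hR hh]
  spin := by
    rintro _ ⟨c, rfl⟩ a ha h hh h1
    obtain ⟨p, hp⟩ := nearVA_nonempty (N := N) S.ne c a
    have h2 := nearVA_smul h hp
    rw [GNorm.KV_fix hR hh] at h2
    have hne : h • a ≠ Sum.inr c := by
      intro h0
      apply ha
      have := congrArg (fun y => h⁻¹ • y) h0
      simp only [inv_smul_smul] at this
      rw [this]
      show Sum.inr (h⁻¹ • c) = Sum.inr c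
      rw [GNorm.KV_fix hR (inv_mem hh)]
    have h3 := le_DVA S ha hne hp h2
    obtain ⟨g, hg, hgp⟩ : ∃ g : G, (g : G ⧸ E) = c ∧ g⁻¹ * p ∈ A := by
      obtain ⟨x, -, hx⟩ := hp
      exact hx.1
    have h4 := hh g hg
    have h5 : g⁻¹ * h * g ≠ 1 := by
      intro h0
      apply h1
      have : h = g * (g⁻¹ * h * g) * g⁻¹ := by group
      rw [this, h0]; group
    have h6 := hL _ h4 h5 _ hgp
    have h7 : N.d p (h * p) = N.l ((g⁻¹ * p)⁻¹ * (g⁻¹ * h * g) * (g⁻¹ * p)) := by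
      rw [GNorm.d]; congr 1; group
    omega
  hL := hLM

end

end Pool.Agent.Lib.MP_021282_al
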