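import Pool.Agent.Lib.MP_bd8d5e_al.Hat

/-! # The hat norm for translates of a set

Metric in which the translates of a quasiconvex set `A` are coned off: Morse lemma, additivity along
geodesics of the original metric, four point inequality, with explicit constants. Adapted from
`MP_bd8d5e_al/Hat.lean` (the case of a subgroup). -/

set_option autoImplicit false

namespace Pool.Agent.Lib.MP_021282_al

open Pool.Agent.Lib.MP_bd8d5e_al

variable {G : Type*} [Group G] (N : GNorm G) (A : Set G)

/-- one step of the hat metric: a generator or a jump inside a translate of `A` -/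
def HStepA (g : G) : Prop := N.l g ≤ 1 ∨ ∃ h : G, h⁻¹ ∈ A ∧ h⁻¹ * g ∈ A

/-- reachable in `n` steps -/
inductive ReachA : ℕ → G → Prop
  | zero : ReachA 0 1
  | succ (n : ℕ) (g s : G) (hg : ReachA n g) (hs : HStepA N A s) : ReachA (n + 1) (g * s)

variable {N A}

theorem hstepA_inv {g : G} (h : HStepA N A g) : HStepA N A g⁻¹ := by
  rcases h with h | ⟨k, h1, h2⟩
  · exact Or.inl (by rwa [N.l_inv])
  · refine Or.inr ⟨g⁻¹ * k, ?_, ?_⟩
    · have e : (g⁻¹ * k)⁻¹ = k⁻¹ * g := by group
      rw [e]; exact h2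
    · have e : (g⁻¹ * k)⁻¹ * g⁻¹ = k⁻¹ := by group
      rw [e]; exact h1

theorem reachA_one {g : G} (h : HStepA N A g) : ReachA N A 1 g := by
  have := ReachA.succ 0 1 g ReachA.zero h
  rwa [one_mul] at this

theorem reachA_add {n m : ℕ} {g h : G} (hg : ReachA N A n g) (hh : ReachA N A m h) :
    ReachA N A (n + m) (g * h) := by
  induction hh with
  | zero => simpa using hg
  | succ m h s _ hs ih =>
    rw [← mul_assoc]
    exact ReachA.succ _ _ _ ih hs

theorem reachA_inv {n : ℕ} {g : G} (hg : ReachA N A n g) : ReachA N A n g⁻¹ := by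
  induction hg with
  | zero => rw [inv_one]; exact ReachA.zero
  | succ n g s _ hs ih =>
    rw [mul_inv_rev, add_comm]
    exact reachA_add (reachA_one (hstepA_inv hs)) ih

theorem reachA_split {n t : ℕ} {g : G} (hg : ReachA N A n g) (ht : t ≤ n) :
    ∃ h, ReachA N A t h ∧ ReachA N A (n - t) (h⁻¹ * g) := by
  induction hg with
  | zero =>
    obtain rfl : t = 0 := by omega
    exact ⟨1, ReachA.zero, by simpa using ReachA.zero⟩
  | succ n g s hg hs ih =>
    rcases Nat.lt_or_ge n t with h | h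
    · obtain rfl : t = n + 1 := by omega
      refine ⟨g * s, ReachA.succ _ _ _ hg hs, ?_⟩
      rw [inv_mul_cancel, Nat.sub_self]; exact ReachA.zero
    · obtain ⟨k, h1, h2⟩ := ih h
      refine ⟨k, h1, ?_⟩
      have e : n + 1 - t = (n - t) + 1 := by omega
      rw [e, ← mul_assoc]
      exact ReachA.succ _ _ _ h2 hs

theorem reachA_l : ∀ (n : ℕ) (g : G), N.l g = n → ReachA N A n g := by
  intro n
  induction n with
  | zero =>
    intro g hg
    rw [N.eq_one g hg]; exact ReachA.zero
  | succ n ih =>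
    intro g hg
    obtain ⟨h, h1, h2⟩ := N.geo g n (by omega)
    have := ReachA.succ n h (h⁻¹ * g) (ih h h1) (Or.inl (by omega))
    rwa [mul_inv_cancel_left] at this

variable (N A)

theorem exists_reachA (g : G) : ∃ n, ReachA N A n g := ⟨_, reachA_l _ g rfl⟩

open Classical in
/-- the hat norm -/
noncomputable def lhA (g : G) : ℕ := Nat.find (exists_reachA N A g)

variable {N A}

theorem reachA_lh (g : G) : ReachA N A (lhA N A g) g := by
  classical
  exact Nat.find_spec (exists_reachA N A g)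

theorem lhA_le {n : ℕ} {g : G} (h : ReachA N A n g) : lhA N A g ≤ n := by
  classical
  exact Nat.find_min' (exists_reachA N A g) h

variable (N A)

/-- the hat norm as a geodesic norm -/
noncomputable def hatA : GNorm G where
  l := lhA N A
  l_one := Nat.le_zero.1 (lhA_le ReachA.zero)
  eq_one g hg := by
    have h := reachA_lh (N := N) (A := A) g
    rw [hg] at h
    cases h
    rfl
  l_inv g := by
    apply le_antisymm (lhA_le (reachA_inv (reachA_lh g)))
    have := lhA_le (reachA_inv (reachA_lh (N := N) (A := A) g⁻¹))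
    rwa [inv_inv] at this
  l_mul g h := lhA_le (reachA_add (reachA_lh g) (reachA_lh h))
  geo g t ht := by
    obtain ⟨h, h1, h2⟩ := reachA_split (reachA_lh (N := N) (A := A) g) ht
    have h3 := lhA_le h1
    have h4 := lhA_le h2
    have h5 := lhA_le (reachA_add (reachA_lh (N := N) (A := A) h) (reachA_lh (N := N) (A := A)
      (h⁻¹ * g)))
    rw [mul_inv_cancel_left] at h5
    exact ⟨h, by omega, by omega⟩

/-- the hat distance -/
noncomputable abbrev dA (x y : G) : ℕ := (hatA N A).d x y

variable {N A}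

theorem dA_le_d (x y : G) : dA N A x y ≤ N.d x y := lhA_le (reachA_l _ _ rfl)

theorem dA_le_one {x y g : G} (hx : g⁻¹ * x ∈ A) (hy : g⁻¹ * y ∈ A) : dA N A x y ≤ 1 := by
  refine lhA_le (reachA_one (Or.inr ⟨x⁻¹ * g, ?_, ?_⟩))
  · have e : (x⁻¹ * g)⁻¹ = g⁻¹ * x := by group
    rw [e]; exact hx
  · have e : (x⁻¹ * g)⁻¹ * (x⁻¹ * y) = g⁻¹ * y := by group
    rw [e]; exact hy

theorem dA_le_one' {x y : G} (h : HStepA N A (x⁻¹ * y)) : dA N A x y ≤ 1 := lhA_le (reachA_one h)

variable (N A) in
/-- geodesic sequences for the hat metric -/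
structure HGeoA (n : ℕ) (p : ℕ → G) : Prop where
  step : ∀ i < n, HStepA N A ((p i)⁻¹ * p (i + 1))
  dist : ∀ i j, i ≤ j → j ≤ n → dA N A (p i) (p j) = j - i

theorem exists_pathA {n : ℕ} {g : G} (h : ReachA N A n g) :
    ∃ p : ℕ → G, p 0 = 1 ∧ p n = g ∧ ∀ i < n, HStepA N A ((p i)⁻¹ * p (i + 1)) := by
  induction h with
  | zero => exact ⟨fun _ => 1, rfl, rfl, fun i hi => absurd hi (by omega)⟩
  | succ n g s _ hs ih =>
    obtain ⟨p, h0, h1, h2⟩ := ih
    refine ⟨fun i => if i ≤ n then p i else g * s, by simp [h0], by simp, ?_⟩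
    intro i hi
    rcases Nat.lt_or_ge i n with h | h
    · have e1 : i ≤ n := by omega
      have e2 : i + 1 ≤ n := by omega
      simp only [e1, e2, if_true]; exact h2 i h
    · obtain rfl : i = n := by omega
      have e2 : ¬ (i + 1 ≤ i) := by omega
      simp only [le_refl, if_true, e2, if_false, h1]
      rwa [inv_mul_cancel_left]

theorem exists_hgeoA (x y : G) :
    ∃ p : ℕ → G, p 0 = x ∧ p (dA N A x y) = y ∧ HGeoA N A (dA N A x y) p := by
  obtain ⟨p, h0, h1, h2⟩ := exists_pathA (reachA_lh (N := N) (A := A) (x⁻¹ * y))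
  set n := dA N A x y with hn
  have hn' : lhA N A (x⁻¹ * y) = n := rfl
  rw [hn'] at h1 h2
  refine ⟨fun i => x * p i, by simp [h0], by simp [h1], ⟨?_, ?_⟩⟩
  · intro i hi
    have := h2 i hi
    have e : (x * p i)⁻¹ * (x * p (i + 1)) = (p i)⁻¹ * p (i + 1) := by group
    rwa [e]
  · have up : ∀ i j, i ≤ j → j ≤ n → dA N A (x * p i) (x * p j) ≤ j - i := by
      intro i j hij hj
      induction j, hij using Nat.le_induction with
      | base => exact ((hatA N A).d_self _).le.trans (Nat.zero_le _)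
      | succ j hij ih =>
        have := ih (by omega)
        have h3 := (hatA N A).d_tri (x * p i) (x * p j) (x * p (j + 1))
        have h4 : dA N A (x * p j) (x * p (j + 1)) ≤ 1 := by
          apply dA_le_one'
          have := h2 j (by omega)
          have e : (x * p j)⁻¹ * (x * p (j + 1)) = (p j)⁻¹ * p (j + 1) := by group
          rwa [e]
        unfold dA at *
        omega
    intro i j hij hj
    apply le_antisymm (up i j hij hj)
    have h3 := up 0 i (by omega) (by omega)
    have h4 := up j n hj le_rfl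
    have h5 := (hatA N A).d_tri (x * p 0) (x * p i) (x * p n)
    have h6 := (hatA N A).d_tri (x * p i) (x * p j) (x * p n)
    have h7 : dA N A (x * p 0) (x * p n) = n := by
      rw [h0, h1, mul_one, mul_inv_cancel_left]
    unfold dA at *
    omega

variable (N A) in
/-- quasiconvexity of the subgroup -/
def QCA (cq : ℕ) : Prop :=
  ∀ p ∈ A, ∀ p' ∈ A, ∀ q, N.Btw p q p' → ∃ e ∈ A, N.d q e ≤ cq

theorem qca_coset {cq : ℕ} (hq : QCA N A cq) {p p' q g : G} (hp : g⁻¹ * p ∈ A)
    (hp' : g⁻¹ * p' ∈ A) (h : N.Btw p q p') : ∃ z, g⁻¹ * z ∈ A ∧ N.d q z ≤ cq := by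
  obtain ⟨e, he, h1⟩ := hq _ hp _ hp' (g⁻¹ * q) (by
    unfold GNorm.Btw at *
    rw [N.d_left, N.d_left, N.d_left]
    exact h)
  refine ⟨g * e, by rwa [inv_mul_cancel_left], ?_⟩
  have := N.d_left g (g⁻¹ * q) e
  rw [mul_inv_cancel_left] at this
  omega

/-- points on a hat step are close to its ends in the hat metric -/
theorem dA_step {cq : ℕ} (hq : QCA N A cq) {p p' q : G} (hs : HStepA N A (p⁻¹ * p'))
    (h : N.Btw p q p') : dA N A p q ≤ 1 + cq ∧ dA N A q p' ≤ 1 + cq := by
  rcases hs with hs | ⟨k, k1, k2⟩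
  · have h1 : N.d p p' ≤ 1 := hs
    have h2 := dA_le_d (N := N) (A := A) p q
    have h3 := dA_le_d (N := N) (A := A) q p'
    unfold GNorm.Btw at h
    omega
  · have g1 : (p * k)⁻¹ * p ∈ A := by
      have e : (p * k)⁻¹ * p = k⁻¹ := by group
      rw [e]; exact k1
    have g2 : (p * k)⁻¹ * p' ∈ A := by
      have e : (p * k)⁻¹ * p' = k⁻¹ * (p⁻¹ * p') := by group
      rw [e]; exact k2
    obtain ⟨z, hz, h1⟩ := qca_coset hq g1 g2 h
    have h2 : dA N A p z ≤ 1 := dA_le_one g1 hz
    have h2' : dA N A z p' ≤ 1 := dA_le_one hz g2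
    have h3 := dA_le_d (N := N) (A := A) q z
    have h4 := (hatA N A).d_tri p z q
    have h5 := (hatA N A).d_tri q z p'
    have h6 := (hatA N A).d_comm z q
    unfold dA at *
    omega

/-- the constant of `growthA` -/
def grC (c δ κ : ℕ) : ℕ := 2 * (c + 4 * δ + δ * (6 * δ + 6 + 1) + κ + 1)

theorem growthA (c δ κ : ℕ) (D : ℕ) (h : ∀ k, 3 * D + κ ≤ 2 ^ k → D ≤ c + (k + 4) * δ) :
    D ≤ grC c δ κ := by
  unfold grC
  set B := 6 * δ + 6 with hB
  set X := 3 * D + κ with hX
  have hA2 : B < 2 ^ B := Nat.lt_two_pow_self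
  have h1 : X ≤ 2 ^ (B + (X / 2 ^ B + 1)) := by
    have h2 : X < 2 ^ B * (X / 2 ^ B + 1) := Nat.lt_mul_div_succ X (by positivity)
    have h3 : X / 2 ^ B + 1 < 2 ^ (X / 2 ^ B + 1) := Nat.lt_two_pow_self
    calc X ≤ 2 ^ B * (X / 2 ^ B + 1) := h2.le
      _ ≤ 2 ^ B * 2 ^ (X / 2 ^ B + 1) := Nat.mul_le_mul_left _ h3.le
      _ = _ := by rw [← pow_add]
  have h4 := h _ h1
  have h5 : 6 * (δ * (X / 2 ^ B)) ≤ X := by
    calc 6 * (δ * (X / 2 ^ B)) = (6 * δ) * (X / 2 ^ B) := by ring
      _ ≤ 2 ^ B * (X / 2 ^ B) := Nat.mul_le_mul_right _ (by omega)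
      _ ≤ X := Nat.mul_div_le X _
  have h6 : (B + (X / 2 ^ B + 1) + 4) * δ = δ * (B + 1) + 4 * δ + δ * (X / 2 ^ B) := by ring
  rw [h6] at h4
  omega

/-- the Morse constant -/
def morC (δ cq c : ℕ) : ℕ := grC c δ (2 * cq + 4 * δ + 6)

/-- the additivity constant -/
def addC (δ cq c : ℕ) : ℕ := c + morC δ cq c + 2 * cq + 2 * δ + 4

/-- the four point constant of the hat metric -/
def hatC (δ cq : ℕ) : ℕ := 2 * addC δ cq (4 * δ + 4)

/-- Morse lemma for hat geodesics -/
theorem morseA {δ cq : ℕ} (hF : N.FP δ) (hq : QCA N A cq) (c : ℕ) :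
    ∀ (n : ℕ) (p : ℕ → G), 0 < n → HGeoA N A n p → ∀ w, N.gp w (p 0) (p n) ≤ c →
      ∃ i < n, N.gp w (p i) (p (i + 1)) ≤ morC δ cq c := by
  classical
  intro n p hn hp w₀ hw₀
  have hD0 := growthA c δ (2 * cq + 4 * δ + 6)
  set D0 := grC c δ (2 * cq + 4 * δ + 6) with hD0def
  have hmor : morC δ cq c = D0 := rfl
  rw [hmor]
  by_contra hcon
  push Not at hcon
  -- the largest D
  let P : ℕ → Prop := fun D => ∃ w, N.gp w (p 0) (p n) ≤ c ∧ ∀ i < n, D ≤ N.gp w (p i) (p (i + 1))
  have hP0 : P (D0 + 1) := ⟨w₀, hw₀, fun i hi => hcon i hi⟩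
  have hbd : ∀ D, P D → D ≤ 2 * (c + N.d (p 0) (p n)) := by
    rintro D ⟨w, hw, h⟩
    have h1 := h 0 hn
    have h2 := N.gp_le_of_near (a := w) (p := p 0) (p' := p 1) (q := p 0) (by unfold GNorm.Btw; simp)
    have h3 := N.gp_add w (p 0) (p n)
    have h4 := N.d_comm w (p 0)
    simp only [zero_add] at h1
    omega
  set B := 2 * (c + N.d (p 0) (p n)) with hB
  set D := Nat.findGreatest P B with hDdef
  have hle : D0 + 1 ≤ D := Nat.le_findGreatest (hbd _ hP0) hP0
  have hPD : P D := Nat.findGreatest_spec (hbd _ hP0) hP0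
  have hPD1 : ¬ P (D + 1) := by
    intro h
    have := Nat.le_findGreatest (hbd _ h) h
    omega
  obtain ⟨w, hw, hwD⟩ := hPD
  have hfail : ∀ w', N.gp w' (p 0) (p n) ≤ c → ∃ i < n, N.gp w' (p i) (p (i + 1)) ≤ D := by
    intro w' hw'
    by_contra h
    push Not at h
    exact hPD1 ⟨w', hw', fun i hi => h i hi⟩
  -- left point
  have hleft : ∃ a, N.Btw (p 0) a w ∧ N.d w a ≤ D + δ + 1 ∧ ∃ i < n, ∃ q,
      N.Btw (p i) q (p (i + 1)) ∧ D ≤ N.gp w a q ∧ 2 * N.d a q ≤ D + 2 * δ + 2 := by
    rcases Nat.lt_or_ge (D + δ + 1) (N.d w (p 0)) with h | h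
    · obtain ⟨a, ha1, ha2⟩ := N.exists_btw w (p 0) h.le
      have hb : N.Btw (p 0) a w := by
        have e1 := N.d_comm (p 0) a
        have e2 := N.d_comm a w
        have e3 := N.d_comm (p 0) w
        unfold GNorm.Btw; omega
      have hac : N.gp a (p 0) (p n) ≤ c := by
        have e1 := N.gp_add a (p 0) (p n)
        have e2 := N.gp_add w (p 0) (p n)
        have e3 := N.d_tri (p n) w a
        unfold GNorm.Btw at hb
        have e4 := N.d_comm a w
        omega
      obtain ⟨i, hi, hai⟩ := hfail a hac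
      obtain ⟨q, hq1, hq2⟩ := GNorm.exists_near hF (p i) (p (i + 1)) a
      refine ⟨a, hb, by omega, i, hi, q, hq1, ?_, by omega⟩
      have e1 := N.gp_add w a q
      have e2 := N.d_comm w a
      have e3 := N.d_tri a q w
      omega
    · refine ⟨p 0, by unfold GNorm.Btw; simp, h, 0, hn, p 0, by unfold GNorm.Btw; simp, ?_, by simp⟩
      rw [N.gp_self]
      have h1 := hwD 0 hn
      have h2 := N.gp_le_of_near (a := w) (p := p 0) (p' := p 1) (q := p 0) (by unfold GNorm.Btw; simp)
      have h4 := N.d_comm w (p 0)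
      simp only [zero_add] at h1
      omega
  have hright : ∃ b, N.Btw w b (p n) ∧ N.d w b ≤ D + δ + 1 ∧ ∃ j < n, ∃ q,
      N.Btw (p j) q (p (j + 1)) ∧ D ≤ N.gp w b q ∧ 2 * N.d b q ≤ D + 2 * δ + 2 := by
    rcases Nat.lt_or_ge (D + δ + 1) (N.d w (p n)) with h | h
    · obtain ⟨a, ha1, ha2⟩ := N.exists_btw w (p n) h.le
      have hb : N.Btw w a (p n) := by unfold GNorm.Btw; omega
      have hac : N.gp a (p 0) (p n) ≤ c := by
        have e1 := N.gp_add a (p 0) (p n)
        have e2 := N.gp_add w (p 0) (p n)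
        have e3 := N.d_tri (p 0) w a
        have e4 := N.d_comm (p n) a
        have e5 := N.d_comm (p n) w
        omega
      obtain ⟨i, hi, hai⟩ := hfail a hac
      obtain ⟨q, hq1, hq2⟩ := GNorm.exists_near hF (p i) (p (i + 1)) a
      refine ⟨a, hb, by omega, i, hi, q, hq1, ?_, by omega⟩
      have e1 := N.gp_add w a q
      have e2 := N.d_comm w a
      have e3 := N.d_tri a q w
      omega
    · have e : n - 1 + 1 = n := by omega
      refine ⟨p n, by unfold GNorm.Btw; simp, h, n - 1, by omega, p n, ?_, ?_, by simp⟩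
      · unfold GNorm.Btw; rw [e]; simp
      · rw [N.gp_self]
        have h1 := hwD (n - 1) (by omega)
        rw [e] at h1
        have h2 := N.gp_le_of_near (a := w) (p := p (n - 1)) (p' := p n) (q := p n)
          (by unfold GNorm.Btw; simp)
        have h4 := N.d_comm w (p n)
        omega
  obtain ⟨a, ha1, ha2, i, hi, q, hq1, hq2, hq3⟩ := hleft
  obtain ⟨b, hb1, hb2, j, hj, q', hq1', hq2', hq3'⟩ := hright
  have hab : N.gp w a b ≤ c := (N.gp_sub ha1 hb1).trans hw
  -- index difference
  have hij : dA N A (p i) (p j) ≤ 3 * D + (2 * cq + 4 * δ + 6) := by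
    have s1 := (dA_step hq (hp.step i hi) hq1).1
    have s2 := (dA_step hq (hp.step j hj) hq1').1
    have t1 := (hatA N A).d_tri (p i) q (p j)
    have t2 := (hatA N A).d_tri q a (p j)
    have t3 := (hatA N A).d_tri a b (p j)
    have t4 := (hatA N A).d_tri b q' (p j)
    have u1 := dA_le_d (N := N) (A := A) q a
    have u2 := dA_le_d (N := N) (A := A) a b
    have u3 := dA_le_d (N := N) (A := A) b q'
    have u4 := N.d_tri a w b
    have c1 := N.d_comm q a
    have c2 := N.d_comm a w
    have c3 := (hatA N A).d_comm q' (p j)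
    unfold dA at *
    omega
  have hij' : i ≤ j + (3 * D + (2 * cq + 4 * δ + 6)) ∧ j ≤ i + (3 * D + (2 * cq + 4 * δ + 6)) := by
    rcases le_total i j with h | h
    · rw [hp.dist i j h (by omega)] at hij
      omega
    · have := (hatA N A).d_comm (p i) (p j)
      unfold dA at hij
      rw [this] at hij
      have h2 := hp.dist j i h (by omega)
      unfold dA at h2
      omega
  have hfinal : ∀ k, 3 * D + (2 * cq + 4 * δ + 6) ≤ 2 ^ k → D ≤ c + (k + 4) * δ := by
    intro k hk
    have hqr : D ≤ N.gp w q (p (i + 1)) := (hwD i hi).trans (N.gp_btw_right hq1)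
    have hql : D ≤ N.gp w (p i) q := (hwD i hi).trans (N.gp_btw_left hq1)
    have hqr' : D ≤ N.gp w q' (p (j + 1)) := (hwD j hj).trans (N.gp_btw_right hq1')
    have hql' : D ≤ N.gp w (p j) q' := (hwD j hj).trans (N.gp_btw_left hq1')
    obtain ⟨u, v, hu, hv, hu1, hv1, h1, h2⟩ : ∃ u v, u ≤ n ∧ v ≤ n ∧ D ≤ N.gp w q (p u) ∧
        D ≤ N.gp w (p v) q' ∧ u ≤ v + 2 ^ k ∧ v ≤ u + 2 ^ k := by
      rcases lt_trichotomy i j with h | h | h
      · exact ⟨i + 1, j, by omega, by omega, hqr, hql', by omega, by omega⟩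
      · subst h
        exact ⟨i + 1, i + 1, by omega, by omega, hqr, by rw [N.gp_comm]; exact hqr',
          by omega, by omega⟩
      · exact ⟨i, j + 1, by omega, by omega, by rw [N.gp_comm]; exact hql,
          by rw [N.gp_comm]; exact hqr', by omega, by omega⟩
    have hb' : D ≤ N.gp w q' b := by rw [N.gp_comm]; exact hq2'
    have m1 := GNorm.gp_min hF w a q (p u)
    have m4 := GNorm.gp_min hF w (p v) q' b
    have ek : (k + 4) * δ = k * δ + 4 * δ := by ring
    rcases GNorm.chain_between hF hwD hu hv h1 h2 with h | h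
    · subst h
      have m2 := GNorm.gp_min hF w a (p u) b
      omega
    · have m2 := GNorm.gp_min hF w a (p u) (p v)
      have m3 := GNorm.gp_min hF w a (p v) b
      omega
  have := hD0 D hfinal
  omega

/-- additivity of the hat metric along geodesics -/
theorem additiveA {δ cq : ℕ} (hF : N.FP δ) (hq : QCA N A cq) (c : ℕ) :
    ∀ x y w, N.gp w x y ≤ c → dA N A x w + dA N A w y ≤ dA N A x y + addC δ cq c := by
  intro x y w hw
  have hD0 := morseA hF hq c
  have hadd : addC δ cq c = c + morC δ cq c + 2 * cq + 2 * δ + 4 := rfl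
  rw [hadd]
  obtain ⟨p, h0, h1, hp⟩ := exists_hgeoA (N := N) (A := A) x y
  generalize dA N A x y = n at *
  rcases Nat.eq_zero_or_pos n with hn | hn
  · subst hn
    have : x = y := by rw [← h0, h1]
    subst this
    rw [N.gp_self] at hw
    have h2 := dA_le_d (N := N) (A := A) x w
    have h3 := (hatA N A).d_comm w x
    unfold dA at *
    omega
  · obtain ⟨i, hi, hi'⟩ := hD0 n p hn hp w (by rw [h0, h1]; exact hw)
    obtain ⟨q, hq1, hq2⟩ := GNorm.exists_near hF (p i) (p (i + 1)) w
    obtain ⟨s1, s2⟩ := dA_step hq (hp.step i hi) hq1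
    have e1 := hp.dist 0 i (by omega) (by omega)
    have e2 := hp.dist (i + 1) n (by omega) le_rfl
    rw [h0] at e1
    rw [h1] at e2
    have t1 := (hatA N A).d_tri x (p i) w
    have t2 := (hatA N A).d_tri (p i) q w
    have t3 := (hatA N A).d_tri w (p (i + 1)) y
    have t4 := (hatA N A).d_tri w q (p (i + 1))
    have u1 := dA_le_d (N := N) (A := A) w q
    have c1 := (hatA N A).d_comm q w
    unfold dA at *
    omega

/-- four point inequality for the hat metric -/
theorem hatA_FP {δ cq : ℕ} (hF : N.FP δ) (hq : QCA N A cq) :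
    (hatA N A).FP (hatC δ cq) := by
  have hC := additiveA hF hq (4 * δ + 4)
  have hhat : hatC δ cq = 2 * addC δ cq (4 * δ + 4) := rfl
  rw [hhat]
  set C := addC δ cq (4 * δ + 4) with hCdef
  -- all three inequalities when the sum `x y | z w` is smallest
  have key : ∀ x y z w, N.d x y + N.d z w ≤ N.d x z + N.d y w →
      N.d x y + N.d z w ≤ N.d x w + N.d y z →
      dA N A x z + dA N A y w ≤ dA N A x w + dA N A y z + 2 * C ∧
      dA N A x w + dA N A y z ≤ dA N A x z + dA N A y w + 2 * C ∧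
      dA N A x y + dA N A z w ≤ dA N A x z + dA N A y w + 2 * C := by
    intro x y z w h2 h3
    obtain ⟨p, p1, p2, p3, p4, p5⟩ := GNorm.five hF h2 h3
    have q1 := hC _ _ _ p1
    have q2 := hC _ _ _ p2
    have q3 := hC _ _ _ p3
    have q4 := hC _ _ _ p4
    have q5 := hC _ _ _ p5
    have t1 := (hatA N A).d_tri x p y
    have t2 := (hatA N A).d_tri x p z
    have t3 := (hatA N A).d_tri y p z
    have t4 := (hatA N A).d_tri x p w
    have t5 := (hatA N A).d_tri y p w
    have t6 := (hatA N A).d_tri z p w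
    have c1 := (hatA N A).d_comm z p
    have c2 := (hatA N A).d_comm p y
    unfold dA at *
    refine ⟨by omega, by omega, by omega⟩
  intro x y z w
  -- want : x z + y w ≤ max (x y + z w) (x w + y z)
  have cd : ∀ a b, N.d a b = N.d b a := N.d_comm
  have ch : ∀ a b, (hatA N A).d a b = (hatA N A).d b a := (hatA N A).d_comm
  rcases le_total (N.d x y + N.d z w) (N.d x z + N.d y w) with h1 | h1
  · rcases le_total (N.d x y + N.d z w) (N.d x w + N.d y z) with h2 | h2
    · have := (key x y z w h1 h2).1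
      unfold dA at this
      have := le_max_right ((hatA N A).d x y + (hatA N A).d z w) ((hatA N A).d x w + (hatA N A).d y z)
      omega
    · -- x w | y z smallest
      have h3 : N.d x w + N.d y z ≤ N.d x z + N.d y w := by omega
      have k := key x w z y (by rw [cd z y, cd w y]; omega) (by rw [cd z y, cd w z]; omega)
      unfold dA at k
      rw [ch w y, ch w z, ch z y] at k
      have := le_max_left ((hatA N A).d x y + (hatA N A).d z w) ((hatA N A).d x w + (hatA N A).d y z)
      omega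
  · rcases le_total (N.d x z + N.d y w) (N.d x w + N.d y z) with h2 | h2
    · -- x z | y w smallest
      have k := key x z y w (by omega) (by rw [cd z y]; omega)
      unfold dA at k
      rw [ch z y] at k
      have := le_max_left ((hatA N A).d x y + (hatA N A).d z w) ((hatA N A).d x w + (hatA N A).d y z)
      omega
    · have h3 : N.d x w + N.d y z ≤ N.d x y + N.d z w := by omega
      have k := key x w z y (by rw [cd z y, cd w y]; omega) (by rw [cd z y, cd w z]; omega)
      unfold dA at k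
      rw [ch w y, ch w z, ch z y] at k
      have := le_max_left ((hatA N A).d x y + (hatA N A).d z w) ((hatA N A).d x w + (hatA N A).d y z)
      omega

end Pool.Agent.Lib.MP_021282_al
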