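import Pool.Agent.Lib.MP_021282_al.ABgi
import Pool.Agent.Lib.MP_bd8d5e_al.Lift

/-! # The quotient by a spinning family of translates of a set

Adapted from `MP_bd8d5e_al/Lift.lean`. -/

set_option autoImplicit false

namespace Pool.Agent.Lib.MP_021282_al

open Pool.Agent.Lib.MP_bd8d5e_al

section Main

variable {G : Type*} [Group G] {N : GNorm G} {A : Set G} {E : Subgroup G}
variable {δ cq th L : ℕ} (S : AxS N A E δ cq th) (R : Subgroup G) (hR : R ≤ E)
    (hL : ∀ r ∈ R, r ≠ 1 → ∀ a ∈ A, L ≤ N.l (a⁻¹ * r * a))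
    (hLM : 20 * bgM δ cq th + 1 ≤ L)

theorem inl_notMemA (x : G) : (Sum.inl x : G ⊕ (G ⧸ E)) ∉ (spinA S R hR hL hLM).A := by
  rintro ⟨c, hc⟩
  exact absurd hc (by simp)

include S hR hL hLM in
/-- rotating does not change hat distances across a large angle -/
theorem rot_distA {c : G ⧸ E} {h a b : G} (hh : h ∈ GNorm.KV E R (Sum.inr c))
    (hD : bgM δ cq th < DVA N A E (Sum.inr c) (Sum.inl a) (Sum.inl b)) :
    dA N A a (h * b) ≤ dA N A a b := by
  set W := spinA S R hR hL hLM with hW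
  have hc : (Sum.inr c : G ⊕ (G ⧸ E)) ∈ W.A := ⟨c, rfl⟩
  have h1 := W.bgi _ hc (Sum.inl a) (Sum.inl b) (by simp) (by simp) hD
  have h2 := W.m_tri _ hc (Sum.inl a) (Sum.inl (h * b))
  have h3 := W.m_smul h (Sum.inr c) (Sum.inl b)
  have h4 : h • (Sum.inr c : G ⊕ (G ⧸ E)) = Sum.inr c := W.Kv_fix _ hc h hh
  rw [h4] at h3
  have h5 : W.m (Sum.inl a) (Sum.inl b) = dA N A a b := mVA_points S.ne a b
  have h6 : W.m (Sum.inl a) (Sum.inl (h * b)) = dA N A a (h * b) := mVA_points S.ne a (h * b)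
  have h7 : h • (Sum.inl b : G ⊕ (G ⧸ E)) = Sum.inl (h * b) := rfl
  rw [h7] at h3
  omega

/-- four point inequality for the quotient, with the constant of the hat metric -/
theorem quotA_FP {δ' : ℕ} (hh : (hatA N A).FP δ')
    [(spinA S R hR hL hLM).Kall.Normal] :
    ((hatA N A).quot (spinA S R hR hL hLM).Kall).FP δ' := by
  set W := spinA S R hR hL hLM with hW
  set K := W.Kall with hK
  set Q := (hatA N A).quot K with hQ
  intro x y z w
  obtain ⟨x, rfl⟩ := QuotientGroup.mk_surjective x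
  -- chain from x to e
  let Ch : G → Prop := fun e => ∃ y' z' w' : G, (y' : G ⧸ K) = y ∧ (z' : G ⧸ K) = z ∧
    (w' : G ⧸ K) = w ∧ dA N A x y' = Q.d x y ∧ dA N A y' z' = Q.d y z ∧
    dA N A z' w' = Q.d z w ∧ dA N A w' e = Q.d w x
  have step : ∀ k, W.Der (Sum.inl x) k → k ∈ K → Ch (k * x) → Ch x := by
    intro k hk
    induction hk with
    | one => intro _ h; rwa [one_mul] at h
    | piv k h v hv hhv h1 hD hder ih =>
      intro hkK hch
      obtain ⟨c, rfl⟩ := hv
      have hhv : h ∈ GNorm.KV E R (Sum.inr c) := hhv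
      have hhK : h ∈ K := Subgroup.subset_closure ⟨Sum.inr c, ⟨c, rfl⟩, hhv⟩
      apply ih (mul_mem hhK hkK)
      obtain ⟨y', z', w', hy, hz, hw, e1, e2, e3, e4⟩ := hch
      have hcA : (Sum.inr c : G ⊕ (G ⧸ E)) ∈ W.A := ⟨c, rfl⟩
      have hne : ∀ a : G, (Sum.inl a : G ⊕ (G ⧸ E)) ≠ Sum.inr c := fun a => by simp
      have hbig : W.L ≤ W.D (Sum.inr c) (Sum.inl x) (Sum.inl (k * x)) + 8 * W.M := by
        have h4 := W.spin _ hcA (Sum.inl (k * x)) (hne _) h hhv h1
        have h5 : h • (Sum.inl (k * x) : G ⊕ (G ⧸ E)) = (h * k) • Sum.inl x := by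
          rw [mul_smul]; rfl
        rw [h5] at h4
        have h6 : ((h * k) • Sum.inl x : G ⊕ (G ⧸ E)) = Sum.inl (h * k * x) := rfl
        have t := W.D_tri _ hcA (Sum.inl (k * x)) (Sum.inl x) ((h * k) • Sum.inl x) (hne _)
          (hne _) (by rw [h6]; exact hne _)
        rw [W.D_comm _ (Sum.inl (k * x)) (Sum.inl x)] at t
        omega
      have hL' : W.L = L := rfl
      have hM' : W.M = bgM δ cq th := rfl
      have t1 := W.D_tri _ hcA (Sum.inl x) (Sum.inl y') (Sum.inl (k * x)) (hne _) (hne _) (hne _)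
      have t2 := W.D_tri _ hcA (Sum.inl y') (Sum.inl z') (Sum.inl (k * x)) (hne _) (hne _) (hne _)
      have t3 := W.D_tri _ hcA (Sum.inl z') (Sum.inl w') (Sum.inl (k * x)) (hne _) (hne _) (hne _)
      have hLM' := W.hL
      have rot : ∀ a b : G, bgM δ cq th < W.D (Sum.inr c) (Sum.inl a) (Sum.inl b) →
          dA N A a (h * b) ≤ dA N A a b := fun a b hab =>
        rot_distA S R hR hL hLM hhv hab
      have hl : ∀ a b : G, dA N A (h * a) (h * b) = dA N A a b := fun a b =>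
        (hatA N A).d_left h a b
      have hx4 : (((h * (k * x) : G)) : G ⧸ K) = x := by
        rw [GNorm.coe_mul_left hhK, GNorm.coe_mul_left hkK]
      have hassoc : h * k * x = h * (k * x) := mul_assoc _ _ _
      rw [hassoc]
      by_cases c1 : bgM δ cq th < W.D (Sum.inr c) (Sum.inl x) (Sum.inl y')
      · refine ⟨h * y', h * z', h * w', ?_, ?_, ?_, ?_, ?_, ?_, ?_⟩
        · rw [GNorm.coe_mul_left hhK, hy]
        · rw [GNorm.coe_mul_left hhK, hz]
        · rw [GNorm.coe_mul_left hhK, hw]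
        · apply le_antisymm ((rot _ _ c1).trans e1.le)
          rw [← hy, ← GNorm.coe_mul_left hhK y']; exact GNorm.qd_le (N := hatA N A) _ _
        · rw [hl, e2]
        · rw [hl, e3]
        · rw [hl, e4]
      by_cases c2 : bgM δ cq th < W.D (Sum.inr c) (Sum.inl y') (Sum.inl z')
      · refine ⟨y', h * z', h * w', hy, ?_, ?_, e1, ?_, ?_, ?_⟩
        · rw [GNorm.coe_mul_left hhK, hz]
        · rw [GNorm.coe_mul_left hhK, hw]
        · apply le_antisymm ((rot _ _ c2).trans e2.le)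
          rw [← hy, ← hz, ← GNorm.coe_mul_left hhK z']; exact GNorm.qd_le (N := hatA N A) _ _
        · rw [hl, e3]
        · rw [hl, e4]
      by_cases c3 : bgM δ cq th < W.D (Sum.inr c) (Sum.inl z') (Sum.inl w')
      · refine ⟨y', z', h * w', hy, hz, ?_, e1, e2, ?_, ?_⟩
        · rw [GNorm.coe_mul_left hhK, hw]
        · apply le_antisymm ((rot _ _ c3).trans e3.le)
          rw [← hz, ← hw, ← GNorm.coe_mul_left hhK w']; exact GNorm.qd_le (N := hatA N A) _ _
        · rw [hl, e4]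
      · have c4 : bgM δ cq th < W.D (Sum.inr c) (Sum.inl w') (Sum.inl (k * x)) := by omega
        refine ⟨y', z', w', hy, hz, hw, e1, e2, e3, ?_⟩
        apply le_antisymm ((rot _ _ c4).trans e4.le)
        rw [← hw]; conv_lhs => rw [← hx4]
        exact GNorm.qd_le (N := hatA N A) _ _
  -- a chain exists
  obtain ⟨y', hy, e1⟩ := GNorm.qd_spec (N := hatA N A) (K := K) x y
  obtain ⟨z', hz, e2⟩ := GNorm.qd_spec (N := hatA N A) (K := K) y' z
  obtain ⟨w', hw, e3⟩ := GNorm.qd_spec (N := hatA N A) (K := K) z' w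
  obtain ⟨x', hx, e4⟩ := GNorm.qd_spec (N := hatA N A) (K := K) w' (x : G ⧸ K)
  have hk : x' * x⁻¹ ∈ K := by
    have : ((x' * x⁻¹ : G) : G ⧸ K) = 1 := by
      rw [QuotientGroup.mk_mul, hx, ← QuotientGroup.mk_mul, mul_inv_cancel]; rfl
    exact (QuotientGroup.eq_one_iff _).1 this
  have hder := W.der_of_mem (x := Sum.inl x) (inl_notMemA S R hR hL hLM x) hk
  obtain ⟨y', z', w', hy, hz, hw, e1, e2, e3, e4⟩ := step _ hder hk ⟨y', z', w', hy, hz, hw, e1,
    by rw [← hy]; exact e2, by rw [← hz]; exact e3, by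
      rw [← hw, inv_mul_cancel_right]; exact e4⟩
  have f := hh x y' z' w'
  have g1 : Q.d x z ≤ dA N A x z' := by rw [← hz]; exact GNorm.qd_le (N := hatA N A) _ _
  have g2 : Q.d y w ≤ dA N A y' w' := by rw [← hy, ← hw]; exact GNorm.qd_le (N := hatA N A) _ _
  have c1 := (hatA N A).d_comm w' x
  have c2 := Q.d_comm w x
  have h1 : Q.d x z ≤ (hatA N A).d x z' := g1
  have h2 : Q.d y w ≤ (hatA N A).d y' w' := g2
  have h3 : (hatA N A).d x y' = Q.d x y := e1
  have h4 : (hatA N A).d y' z' = Q.d y z := e2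
  have h5 : (hatA N A).d z' w' = Q.d z w := e3
  have h6 : (hatA N A).d w' x = Q.d w x := e4
  rw [h3, h4, h5, ← c1, h6, c2] at f
  omega

/-- finite balls for the quotient -/
theorem quotA_finBalls (hfin : N.FinBalls) (F : Set G) (hFf : F.Finite)
    (hAF : ∀ a ∈ A, ∃ r ∈ R, ∃ f ∈ F, a = r * f) (hRn : ∀ e ∈ E, ∀ r ∈ R, e * r * e⁻¹ ∈ R)
    [hKn : (spinA S R hR hL hLM).Kall.Normal] :
    ((hatA N A).quot (spinA S R hR hL hLM).Kall).FinBalls := by
  set W := spinA S R hR hL hLM with hW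
  set K := W.Kall with hK
  have hRK : R ≤ K := by
    intro r hr
    apply Subgroup.subset_closure
    refine ⟨Sum.inr ((1 : G) : G ⧸ E), ⟨_, rfl⟩, ?_⟩
    intro g hg
    have hgE : g ∈ E := by
      have := QuotientGroup.eq.1 hg
      rw [mul_one] at this
      simpa using inv_mem this
    have := hRn g⁻¹ (inv_mem hgE) r hr
    rwa [inv_inv] at this
  apply GNorm.finBalls_of_one
  have h1 : ((fun g : G => (g : G ⧸ K)) '' {g | N.l g ≤ 1}).Finite := (hfin 1).image _
  have h2 : ((fun g : G × G => ((g.1⁻¹ * g.2 : G) : G ⧸ K)) '' (F ×ˢ F)).Finite :=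
    (hFf.prod hFf).image _
  refine (h1.union h2).subset ?_
  intro q hq'
  obtain ⟨g, rfl, hg⟩ := GNorm.ql_spec (N := hatA N A) (K := K) q
  have hq'' : (hatA N A).ql K (g : G ⧸ K) ≤ 1 := hq'
  have hg1 : lhA N A g ≤ 1 := by
    have : (hatA N A).l g ≤ 1 := by omega
    exact this
  have hr := reachA_lh (N := N) (A := A) g
  rcases Nat.lt_or_ge (lhA N A g) 1 with h | h
  · have : lhA N A g = 0 := by omega
    rw [this] at hr
    cases hr
    exact Or.inl ⟨1, by show N.l 1 ≤ 1; rw [N.l_one]; omega, rfl⟩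
  · have : lhA N A g = 1 := by omega
    rw [this] at hr
    cases hr with
    | succ _ g' s hg' hs =>
      cases hg'
      rw [one_mul]
      rcases hs with hs | ⟨k, k1, k2⟩
      · exact Or.inl ⟨s, hs, rfl⟩
      · obtain ⟨r, hr, f, hf, e1⟩ := hAF _ k1
        obtain ⟨r', hr', f', hf', e2⟩ := hAF _ k2
        right
        refine ⟨(f, f'), ⟨hf, hf'⟩, ?_⟩
        show ((f⁻¹ * f' : G) : G ⧸ K) = (s : G ⧸ K)
        rw [QuotientGroup.eq]
        have e3 : (f⁻¹ * f')⁻¹ * s = f'⁻¹ * (r⁻¹ * r') * f' := by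
          have e4 : s = k * (k⁻¹ * s) := by group
          have e5 : k = f⁻¹ * r⁻¹ := by
            rw [← inv_inv k, e1]; group
          rw [e4, e2, e5]; group
        rw [e3]
        have := hKn.conj_mem _ (hRK (mul_mem (inv_mem hr) hr')) f'⁻¹
        rwa [inv_inv] at this

theorem mem_NearVA_inl {c : G ⧸ E} {x p : G} :
    p ∈ NearVA N A E c (Sum.inl x) ↔ NearA N A E c x p := by
  constructor
  · rintro ⟨y, hy, h⟩
    have hy : y = x := hy
    rwa [← hy]
  · intro h
    exact ⟨x, rfl, h⟩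

/-- pivot lemma in terms of nearest points -/
theorem pivot_nearA {k : G} (hk : k ∈ (spinA S R hR hL hLM).Kall) (h1 : k ≠ 1) (x : G) :
    ∃ c : G ⧸ E, ∃ h ∈ GNorm.KV E R (Sum.inr c), h ≠ 1 ∧ ∀ p q, NearA N A E c x p →
      NearA N A E c (h * k * x) q → N.d p q ≤ 8 * bgM δ cq th := by
  set W := spinA S R hR hL hLM with hW
  obtain ⟨v, ⟨c, rfl⟩, h, hh, hh1, hD⟩ := W.pivot (x := Sum.inl x)
    (inl_notMemA S R hR hL hLM x) hk h1
  refine ⟨c, h, hh, hh1, fun p q hp hq' => ?_⟩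
  have h2 := le_DVA S (c := c) (a := Sum.inl x) (b := Sum.inl (h * k * x)) (by simp)
    (by simp) (mem_NearVA_inl.2 hp) (mem_NearVA_inl.2 hq')
  exact h2.trans hD

/-- Greendlinger lemma in terms of nearest points -/
theorem greendlinger_nearA {k : G} (hk : k ∈ (spinA S R hR hL hLM).Kall) (h1 : k ≠ 1)
    (x : G) : ∃ c : G ⧸ E, ∃ p q, NearA N A E c x p ∧ NearA N A E c (k * x) q ∧
      L ≤ N.d p q + 8 * bgM δ cq th := by
  set W := spinA S R hR hL hLM with hW
  obtain ⟨v, ⟨c, rfl⟩, hD⟩ := W.greendlinger (x := Sum.inl x)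
    (inl_notMemA S R hR hL hLM x) hk h1
  obtain ⟨p, hp, q, hq', hpq⟩ := DVA_spec S (c := c) (a := Sum.inl x)
    (b := Sum.inl (k * x)) (by simp) (by simp)
  refine ⟨c, p, q, mem_NearVA_inl.1 hp, mem_NearVA_inl.1 hq', ?_⟩
  have h2 : L ≤ DVA N A E (Sum.inr c) (Sum.inl x) (Sum.inl (k * x)) + 8 * bgM δ cq th := hD
  omega

/-- nontrivial elements of the kernel are long -/
theorem kernel_longA {k : G} (hk : k ∈ (spinA S R hR hL hLM).Kall) (h1 : k ≠ 1) (x : G) :
    L ≤ N.d x (k * x) + (4 * cq + 7 * δ + 12) + 8 * bgM δ cq th := by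
  obtain ⟨c, p, q, hp, hq', h⟩ := greendlinger_nearA S R hR hL hLM hk h1 x
  have := nearA_lip S hp hq'
  omega

/-- the kernel is the normal closure of `R` -/
theorem KallA_eq (hRn : ∀ e ∈ E, ∀ r ∈ R, e * r * e⁻¹ ∈ R) :
    (spinA S R hR hL hLM).Kall = Subgroup.normalClosure (R : Set G) := by
  set W := spinA S R hR hL hLM with hW
  apply le_antisymm
  · apply (Subgroup.closure_le _).2
    rintro h ⟨v, ⟨c, rfl⟩, hh⟩
    obtain ⟨g, rfl⟩ := QuotientGroup.mk_surjective c
    have h1 := hh g rfl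
    have h2 : g * (g⁻¹ * h * g) * g⁻¹ ∈ Subgroup.normalClosure (R : Set G) :=
      Subgroup.normalClosure_normal.conj_mem _ (Subgroup.subset_normalClosure h1) g
    have e : g * (g⁻¹ * h * g) * g⁻¹ = h := by group
    rwa [e] at h2
  · have := W.Kall_normal
    apply Subgroup.normalClosure_le_normal
    intro r hr
    apply Subgroup.subset_closure
    refine ⟨Sum.inr ((1 : G) : G ⧸ E), ⟨_, rfl⟩, ?_⟩
    intro g hg
    have hgE : g ∈ E := by
      have := QuotientGroup.eq.1 hg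
      rw [mul_one] at this
      simpa using inv_mem this
    have := hRn g⁻¹ (inv_mem hgE) r hr
    rwa [inv_inv] at this

end Main

end Pool.Agent.Lib.MP_021282_al
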