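import Pool.Agent.Lib.MP_021282_al.ABgi
import Pool.Agent.Lib.MP_bd8d5e_al.Tools

/-! # Quotients by small cancellation relators: rotations, corner lemma, conjugacy lemma, torsion

Adapted from `MP_bd8d5e_al` (`Setup`, `Corner`, `LemC`, `TL`) to axes that are translates of a set. -/

set_option autoImplicit false

namespace Pool.Agent.Lib.MP_021282_al

open Pool.Agent.Lib.MP_bd8d5e_al

/-- the data of one step: the axes are the translates of `A`, their stabilisers lie in `K` -/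
structure SetA {G : Type*} [Group G] (N : GNorm G) (A : Set G) (E K : Subgroup G) (L C : ℕ) :
    Prop where
  pos : 1 ≤ C
  fp : N.FP C
  normal : K.Normal
  ne : A.Nonempty
  EK : E ≤ K
  big : 100000 * C ≤ L
  /-- (P1) -/
  near_btw : ∀ (c : G ⧸ E) (x p y : G), NearA N A E c x p → y ∈ ax A E c →
    N.d x p + N.d p y ≤ N.d x y + C
  /-- (P2) -/
  near_two : ∀ (c : G ⧸ E) (x y p q : G), NearA N A E c x p → NearA N A E c y q → C < N.d p q →
    N.d x p + N.d p q + N.d q y ≤ N.d x y + C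
  /-- (QC) -/
  qc : ∀ (c : G ⧸ E) (y y' w : G) (k : ℕ), y ∈ ax A E c → y' ∈ ax A E c →
    N.d y w + N.d w y' ≤ N.d y y' + k → ∃ e : G, e ∈ ax A E c ∧ N.d w e ≤ C + 2 * k
  /-- (OV) -/
  ov : ∀ c c' : G ⧸ E, c ≠ c' → ∀ z z' p p' : G, z ∈ ax A E c' → z' ∈ ax A E c' →
    NearA N A E c z p → NearA N A E c z' p' → N.d p p' ≤ C
  /-- (RL) rotation -/
  rl : ∀ (c : G ⧸ E) (y y' : G) (s : ℕ), y ∈ ax A E c → y' ∈ ax A E c → s + 5 * C ≤ L →
    L + s + 5 * C ≤ 2 * N.d y y' → ∃ r ∈ K, r • c = c ∧ N.d y (r * y') + s ≤ N.d y y'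
  /-- (GL) -/
  gl : ∀ ν ∈ K, ν ≠ 1 → ∀ x : G, ∃ c : G ⧸ E, ∀ p q : G, NearA N A E c x p →
    NearA N A E c (ν * x) q → L ≤ N.d p q + C

namespace SetA

variable {G : Type*} [Group G] {N : GNorm G} {A : Set G} {E K : Subgroup G} {L C : ℕ}

/-- nearest points are coarsely Lipschitz -/
theorem lip (S : SetA N A E K L C) {c : G ⧸ E} {x x' p p' : G} (hp : NearA N A E c x p)
    (hp' : NearA N A E c x' p') : N.d p p' ≤ N.d x x' + C := by
  by_contra h
  have := S.near_two c x x' p p' hp hp' (by omega)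
  omega

/-- (OV') -/
theorem ov' (S : SetA N A E K L C) {c c' : G ⧸ E} {y y' z z' : G} {k : ℕ}
    (hy : y ∈ ax A E c) (hy' : y' ∈ ax A E c) (hz : z ∈ ax A E c')
    (hz' : z' ∈ ax A E c') (h1 : N.d y z ≤ k) (h2 : N.d y' z' ≤ k)
    (hfar : C + 4 * k < N.d y y') : c = c' := by
  by_contra hne
  obtain ⟨p, hp⟩ := exists_nearestA (N := N) S.ne c z
  obtain ⟨p', hp'⟩ := exists_nearestA (N := N) S.ne c z'
  have h3 := S.ov c c' hne z z' p p' hz hz' hp hp'
  have h4 := hp.2 y hy
  have h5 := hp'.2 y' hy'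
  have t1 := N.d_tri y z p
  have t2 := N.d_tri y' z' p'
  have t3 := N.d_tri y p y'
  have t4 := N.d_tri p p' y'
  have c1 := N.d_comm y z
  have c2 := N.d_comm y' z'
  have c3 := N.d_comm y' p'
  omega

/-- elements of the kernel are long -/
theorem long (S : SetA N A E K L C) {ν : G} (hν : ν ∈ K) (h1 : ν ≠ 1) (x : G) :
    L ≤ N.d x (ν * x) + 2 * C := by
  obtain ⟨c, hc⟩ := S.gl ν hν h1 x
  obtain ⟨p, hp⟩ := exists_nearestA (N := N) S.ne c x
  obtain ⟨q, hq⟩ := exists_nearestA (N := N) S.ne c (ν * x)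
  have h2 := hc p q hp hq
  have h3 := S.lip hp hq
  omega

/-- (RC) rotating a side -/
theorem rc (S : SetA N A E K L C) {c : G ⧸ E} {x x' p p' : G} {s : ℕ} (hp : NearA N A E c x p)
    (hp' : NearA N A E c x' p') (hs : s + 5 * C ≤ L)
    (h : L + s + 5 * C ≤ 2 * N.d p p') :
    ∃ r ∈ K, r • c = c ∧ N.d x (r * x') + s ≤ N.d x x' + C := by
  obtain ⟨r, hr, hrc, h1⟩ := S.rl c p p' s hp.1 hp'.1 hs h
  have hbig := S.big
  have hpos := S.pos
  have h2 := S.near_two c x x' p p' hp hp' (by omega)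
  have t1 := N.d_tri x p (r * x')
  have t2 := N.d_tri p (r * p') (r * x')
  have h3 := N.d_left r p' x'
  exact ⟨r, hr, hrc, by omega⟩

/-- CORNER LEMMA, short side first -/
theorem corner_aux (S : SetA N A E K L C) {c : G ⧸ E} {κ P Q Q' a b b' : G}
    (hP : N.d P (κ * P) ≤ 5 * C) (hQ : N.d (κ * Q) Q' ≤ 5 * C) (ha : NearA N A E c P a)
    (hb : NearA N A E c Q b) (hb' : NearA N A E c Q' b') (h1 : 700 * C ≤ N.d a b)
    (hle : N.d a b ≤ N.d a b') : κ • c = c := by
  have hpos := S.pos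
  have p1 := S.near_two c P Q a b ha hb (by omega)
  have p2 := S.near_two c P Q' a b' ha hb' (by omega)
  have l1 := N.d_left κ P a
  have l2 := N.d_left κ P b
  have l3 := N.d_left κ a b
  have l4 := N.d_left κ a Q
  have l5 := N.d_left κ b Q
  have l6 := N.d_left κ P Q
  -- distances from P
  have t1 := N.d_tri P (κ * P) (κ * a)
  have t2 := N.d_tri (κ * P) P (κ * a)
  have t3 := N.d_tri P (κ * P) (κ * b)
  have t4 := N.d_tri (κ * P) P (κ * b)
  have c1 := N.d_comm (κ * P) P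
  have t5 := N.d_tri (κ * a) (κ * Q) Q'
  have t6 := N.d_tri (κ * b) (κ * Q) Q'
  have t7 := N.d_tri (κ * P) P Q'
  have t7' := N.d_tri (κ * P) Q' (κ * Q)
  have c7 := N.d_comm Q' (κ * Q)
  have t8 := N.d_tri P a b
  have t9 := N.d_tri P b Q
  have t10 := N.d_tri P a Q
  have t11 := N.d_tri a b Q
  have t12 := N.d_tri P b' Q'
  have t13 := N.d_tri P a b'
  have t14 := N.d_tri a b' Q'
  have t15 := N.d_tri P a Q'
  have ka : N.d P (κ * a) + N.d (κ * a) Q' ≤ N.d P Q' + 21 * C := by omega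
  have kb : N.d P (κ * b) + N.d (κ * b) Q' ≤ N.d P Q' + 21 * C := by omega
  have aP : N.d P a + N.d a Q' ≤ N.d P Q' + C := by omega
  have bP : N.d P b' + N.d b' Q' ≤ N.d P Q' + C := by omega
  have A1 := GNorm.a2 S.fp ka aP
  have A2 := GNorm.a2 S.fp kb aP
  have A3 := GNorm.a2 S.fp kb bP
  have near_ka : N.d (κ * a) a ≤ 28 * C := by omega
  -- a point of the axis near `κ b`
  have hy : ∃ y : G, y ∈ ax A E c ∧ N.d (κ * b) y ≤ 115 * C := by
    rcases le_total (N.d P (κ * b)) (N.d P b') with h | h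
    · have c2 := N.d_comm (κ * b) a
      obtain ⟨e, he, he2⟩ := S.qc c a b' (κ * b) (57 * C) ha.1 hb'.1 (by omega)
      exact ⟨e, he, by omega⟩
    · exact ⟨b', hb'.1, by omega⟩
  obtain ⟨y, hy, hyb⟩ := hy
  have ka' : κ * a ∈ ax A E (κ • c) := smul_ax κ ha.1
  have kb' : κ * b ∈ ax A E (κ • c) := smul_ax κ hb.1
  have c3 := N.d_comm (κ * a) a
  have c4 := N.d_comm (κ * b) y
  have t16 := N.d_tri (κ * a) a (κ * b)
  have t17 := N.d_tri a y (κ * b)
  exact (S.ov' (k := 115 * C) ha.1 hy ka' kb' (by omega) (by omega) (by omega)).symm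

/-- CORNER LEMMA -/
theorem corner (S : SetA N A E K L C) {c : G ⧸ E} {κ P Q Q' a b b' : G}
    (hP : N.d P (κ * P) ≤ 5 * C) (hQ : N.d (κ * Q) Q' ≤ 5 * C) (ha : NearA N A E c P a)
    (hb : NearA N A E c Q b) (hb' : NearA N A E c Q' b') (h1 : 700 * C ≤ N.d a b)
    (h2 : 700 * C ≤ N.d a b') : κ • c = c := by
  rcases le_total (N.d a b) (N.d a b') with h | h
  · exact S.corner_aux hP hQ ha hb hb' h1 h
  · have h3 := N.d_left κ (κ⁻¹ * P) P
    have h4 := N.d_left κ (κ⁻¹ * Q') Q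
    rw [mul_inv_cancel_left] at h3 h4
    have c1 := N.d_comm (κ⁻¹ * P) P
    have c2 := N.d_comm (κ * Q) Q'
    have := S.corner_aux (κ := κ⁻¹) (by omega) (by omega) ha hb' hb h2 h
    conv_lhs => rw [← this]
    exact smul_inv_smul κ c

/-- stabilisers of axes lie in the kernel -/
theorem fix_mem (S : SetA N A E K L C) {c : G ⧸ E} {κ : G} (h : κ • c = c) : κ ∈ K := by
  obtain ⟨g, rfl⟩ := QuotientGroup.mk_surjective c
  have hg : g⁻¹ * κ * g ∈ E := by
    have : g⁻¹ * (κ * g) ∈ E := QuotientGroup.eq.1 h.symm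
    rwa [← mul_assoc] at this
  have := S.normal.conj_mem _ (S.EK hg) g
  have e : g * (g⁻¹ * κ * g) * g⁻¹ = κ := by group
  rwa [e] at this

/-- elements with small displacement and the same image are conjugate under `K` -/
theorem conj_of_eq (S : SetA N A E K L C) {x x' : G} (hx : ∃ p, N.d p (x * p) ≤ 5 * C)
    (hx' : ∃ p, N.d p (x' * p) ≤ 5 * C) (h1 : x' ∉ K) (h : x' * x⁻¹ ∈ K) :
    ∃ ν ∈ K, x' = ν * x * ν⁻¹ := by
  classical
  by_contra hcon
  push Not at hcon
  have hKn := S.normal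
  have hpos := S.pos
  have hbig := S.big
  -- admissible triples
  have hex : ∃ s : ℕ, ∃ ν p p' : G, ν ∈ K ∧ N.d p (x * p) ≤ 5 * C ∧
      N.d p' (ν * x' * ν⁻¹ * p') ≤ 5 * C ∧ N.d p p' = s := by
    obtain ⟨p, hp⟩ := hx
    obtain ⟨p', hp'⟩ := hx'
    refine ⟨_, 1, p, p', K.one_mem, hp, ?_, rfl⟩
    rw [one_mul, inv_one, mul_one]
    exact hp'
  obtain ⟨ν, p, p', hν, hp, hp', hs⟩ := Nat.find_spec hex
  have hmin : ∀ ν' q q' : G, ν' ∈ K → N.d q (x * q) ≤ 5 * C →
      N.d q' (ν' * x' * ν'⁻¹ * q') ≤ 5 * C → N.d p p' ≤ N.d q q' := by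
    intro ν' q q' a1 a2 a3
    rw [hs]
    exact Nat.find_min' hex ⟨ν', q, q', a1, a2, a3, rfl⟩
  set y := ν * x' * ν⁻¹ with hy
  have hyK : y ∉ K := by
    intro h2
    apply h1
    have h3 : x' = ν⁻¹ * y * ν := by rw [hy]; group
    rw [h3]
    exact K.mul_mem (K.mul_mem (K.inv_mem hν) h2) hν
  -- rotating the side from p to p' is impossible
  have hrot : ∀ (c : G ⧸ E) (a b : G), NearA N A E c p a → NearA N A E c p' b →
      2 * N.d a b < L + 7 * C := by
    intro c a b ha hb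
    by_contra hc
    obtain ⟨r, hr, _, hr'⟩ := rc S (s := 2 * C) ha hb (by omega) (by omega)
    have h2 : N.d (r * p') (r * ν * x' * (r * ν)⁻¹ * (r * p')) ≤ 5 * C := by
      have : r * ν * x' * (r * ν)⁻¹ * (r * p') = r * (y * p') := by rw [hy]; group
      rw [this, N.d_left]
      exact hp'
    have := hmin (r * ν) p (r * p') (K.mul_mem hr hν) hp h2
    omega
  -- the element of the kernel
  have hk : y * x⁻¹ ∈ K := by
    have e : y * x⁻¹ = ν * (x' * ν⁻¹ * x'⁻¹) * (x' * x⁻¹) := by rw [hy]; group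
    rw [e]
    exact K.mul_mem (K.mul_mem hν (hKn.conj_mem _ (K.inv_mem hν) _)) h
  have hk1 : y * x⁻¹ ≠ 1 := by
    intro h2
    have h3 : y = x := mul_inv_eq_one.1 h2
    apply hcon ν⁻¹ (K.inv_mem hν)
    rw [← h3, hy]
    group
  obtain ⟨c, hc⟩ := S.gl _ hk hk1 (x * p)
  have e1 : y * x⁻¹ * (x * p) = y * p := by group
  rw [e1] at hc
  obtain ⟨a0, ha0⟩ := exists_nearestA (N := N) S.ne c (x * p)
  obtain ⟨e, he⟩ := exists_nearestA (N := N) S.ne c (y * p)
  obtain ⟨a, ha⟩ := exists_nearestA (N := N) S.ne c p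
  obtain ⟨b, hb⟩ := exists_nearestA (N := N) S.ne c p'
  obtain ⟨b', hb'⟩ := exists_nearestA (N := N) S.ne c (y * p')
  have hL := hc a0 e ha0 he
  have d1 := S.lip ha ha0
  have d2 := S.lip hb hb'
  have d3 := hrot c a b ha hb
  have d4 : 2 * N.d e b' < L + 7 * C := by
    have n1 := nearA_smul he y⁻¹
    have n2 := nearA_smul hb' y⁻¹
    rw [inv_mul_cancel_left] at n1 n2
    have := hrot _ _ _ n1 n2
    rwa [N.d_left] at this
  have t1 := N.d_tri a0 a e
  have t2 := N.d_tri a b e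
  have t3 := N.d_tri b b' e
  have c1 := N.d_comm a0 a
  have c2 := N.d_comm b' e
  have c3 := N.d_comm a b
  have hcor := corner S (c := c) (κ := y) (P := p') (Q := p) (Q' := y * p) (a := b) (b := a)
    (b' := e) hp' (by rw [N.d_self]; omega) hb ha he (by omega) (by omega)
  exact hyK (S.fix_mem hcor)

/-- centralisers of elements with small displacement lift -/
theorem cent_lift (S : SetA N A E K L C) {f : G} (hf : ∃ p, N.d p (f * p) ≤ 5 * C) (hfK : f ∉ K)
    {y : G} (h : y * f * y⁻¹ * f⁻¹ ∈ K) : ∃ ν ∈ K, ν * y * f = f * (ν * y) := by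
  have hKn := S.normal
  obtain ⟨ν, hν, h1⟩ := S.conj_of_eq (x := f) (x' := y * f * y⁻¹) hf (by
    obtain ⟨p, hp⟩ := hf
    refine ⟨y * p, ?_⟩
    have e : y * f * y⁻¹ * (y * p) = y * (f * p) := by group
    rw [e, N.d_left]; exact hp) (by
    intro h2
    apply hfK
    have := hKn.conj_mem _ h2 y⁻¹
    have e : y⁻¹ * (y * f * y⁻¹) * y⁻¹⁻¹ = f := by group
    rwa [e] at this) h
  refine ⟨ν⁻¹, K.inv_mem hν, ?_⟩
  have e : ν⁻¹ * y * f = ν⁻¹ * (y * f * y⁻¹) * y := by group
  rw [e, h1]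
  group

/-- Behrstock inequality for two axes -/
theorem beh (S : SetA N A E K L C) {c c' : G ⧸ E} (hne : c ≠ c') {x n n' y0 z0 a b : G}
    (hn : NearA N A E c x n) (hn' : NearA N A E c' x n') (hy0 : y0 ∈ ax A E c)
    (hz0 : z0 ∈ ax A E c') (ha : NearA N A E c z0 a) (hb : NearA N A E c' y0 b) :
    N.d n a ≤ 3 * C ∨ N.d n' b ≤ 3 * C := by
  obtain ⟨a', ha'⟩ := exists_nearestA (N := N) S.ne c n'
  obtain ⟨b', hb'⟩ := exists_nearestA (N := N) S.ne c' a'
  have o1 := S.ov c c' hne n' z0 a' a hn'.1 hz0 ha' ha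
  have o2 := S.ov c' c (fun h => hne h.symm) a' y0 b' b ha'.1 hy0 hb' hb
  rcases Nat.lt_or_ge C (N.d n a') with h | h
  · rcases Nat.lt_or_ge C (N.d n' b') with h' | h'
    · have p1 := S.near_two c x n' n a' hn ha' h
      have p2 := S.near_two c' x a' n' b' hn' hb' h'
      have t1 := N.d_tri x n a'
      have t2 := N.d_tri n' b' b
      right
      omega
    · have t2 := N.d_tri n' b' b
      right
      omega
  · have t1 := N.d_tri n a' a
    left
    omega

/-- (E6) elements of moderate length whose orbit runs along an axis fix the axis -/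
theorem e6 (S : SetA N A E K L C) {w : G} (hw : N.l w ≤ 3000 * C) (c : G ⧸ E) (j : ℕ)
    (h : ∀ p q : G, NearA N A E c 1 p → NearA N A E c (w ^ j) q → L ≤ N.d p q + C) :
    w • c = c := by
  classical
  by_contra hne
  have hpos := S.pos
  have hbig := S.big
  have hn : ∀ i : ℕ, ∃ n, NearA N A E c (w ^ i) n := fun i => exists_nearestA S.ne c _
  choose n hn using hn
  have hstep : ∀ i, N.d (n i) (n (i + 1)) ≤ 3001 * C := by
    intro i
    have h1 := S.lip (hn i) (hn (i + 1))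
    have h2 : N.d (w ^ i) (w ^ (i + 1)) = N.l w := by
      rw [GNorm.d, pow_succ, inv_mul_cancel_left]
    omega
  have hn' : ∀ i : ℕ, NearA N A E (w • c) (w ^ (i + 1)) (w * n i) := by
    intro i
    have := nearA_smul (hn i) w
    rwa [← pow_succ'] at this
  obtain ⟨a, ha⟩ := exists_nearestA (N := N) S.ne c (w * n 0)
  obtain ⟨b, hb⟩ := exists_nearestA (N := N) S.ne (w • c) (n 0)
  have key : ∀ i, N.d (n i) (w⁻¹ * b) ≤ 3 * C ∨ N.d (n (i + 1)) a ≤ 3 * C := by
    intro i
    rcases S.beh (fun h => hne h.symm) (hn (i + 1)) (hn' i) (hn 0).1 (hn' 0).1 ha hb with h1 | h1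
    · exact Or.inr h1
    · left
      have := N.d_left w (n i) (w⁻¹ * b)
      rw [mul_inv_cancel_left] at this
      omega
  set b1 := w⁻¹ * b with hb1
  have h0 := h (n 0) (n j) (by have := hn 0; rwa [pow_zero] at this) (hn j)
  -- bound of the distance
  by_cases hT : ∃ i, i < j ∧ N.d (n i) b1 ≤ 3 * C
  · -- first index
    obtain ⟨i1, ⟨hi1, hi1'⟩, hi1m⟩ : ∃ i1, (i1 < j ∧ N.d (n i1) b1 ≤ 3 * C) ∧
        ∀ i < i1, ¬ (N.d (n i) b1 ≤ 3 * C) := by
      refine ⟨Nat.find hT, Nat.find_spec hT, fun i hi hc => ?_⟩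
      have := Nat.find_min hT hi
      exact this ⟨by have := (Nat.find_spec hT).1; omega, hc⟩
    obtain ⟨i2, hi2, hi2', hi2m⟩ : ∃ i2, i2 < j ∧ N.d (n i2) b1 ≤ 3 * C ∧
        ∀ i, i2 < i → i < j → ¬ (N.d (n i) b1 ≤ 3 * C) := by
      let P : ℕ → Prop := fun i => i < j ∧ N.d (n i) b1 ≤ 3 * C
      have hP : P (Nat.findGreatest P j) :=
        Nat.findGreatest_spec (P := P) (m := i1) (by omega) ⟨hi1, hi1'⟩
      refine ⟨Nat.findGreatest P j, hP.1, hP.2, fun i hi hij hc => ?_⟩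
      exact Nat.findGreatest_is_greatest hi (by omega) ⟨hij, hc⟩
    have e1 : N.d (n 0) (n i1) ≤ 3007 * C := by
      rcases Nat.eq_zero_or_pos i1 with h1 | h1
      · rw [h1, N.d_self]; omega
      · have k1 := (key 0).resolve_left (hi1m 0 h1)
        have k2 := (key (i1 - 1)).resolve_left (hi1m (i1 - 1) (by omega))
        rw [Nat.sub_add_cancel h1] at k2
        have s := hstep 0
        have t1 := N.d_tri (n 0) (n (0 + 1)) (n i1)
        have t2 := N.d_tri (n (0 + 1)) a (n i1)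
        have c1 := N.d_comm a (n i1)
        omega
    have e2 : N.d (n i1) (n i2) ≤ 6 * C := by
      have t1 := N.d_tri (n i1) b1 (n i2)
      have c1 := N.d_comm b1 (n i2)
      omega
    have e3 : N.d (n i2) (n j) ≤ 6008 * C := by
      rcases Nat.lt_or_ge (i2 + 1) j with h1 | h1
      · have k1 := (key (i2 + 1)).resolve_left (hi2m (i2 + 1) (by omega) h1)
        have k2 := (key (j - 1)).resolve_left (hi2m (j - 1) (by omega) (by omega))
        rw [Nat.sub_add_cancel (by omega)] at k2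
        have s1 := hstep i2
        have s2 := hstep (i2 + 1)
        have t1 := N.d_tri (n i2) (n (i2 + 1)) (n j)
        have t2 := N.d_tri (n (i2 + 1)) (n (i2 + 1 + 1)) (n j)
        have t3 := N.d_tri (n (i2 + 1 + 1)) a (n j)
        have c1 := N.d_comm a (n j)
        omega
      · have : i2 + 1 = j := by omega
        have s1 := hstep i2
        rw [this] at s1
        omega
    have t1 := N.d_tri (n 0) (n i1) (n j)
    have t2 := N.d_tri (n i1) (n i2) (n j)
    omega
  · push Not at hT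
    rcases Nat.eq_zero_or_pos j with h1 | h1
    · rw [h1, N.d_self] at h0
      omega
    · have k1 := (key 0).resolve_left (by have := hT 0 h1; omega)
      have k2 := (key (j - 1)).resolve_left (by have := hT (j - 1) (by omega); omega)
      rw [Nat.sub_add_cancel h1] at k2
      have s := hstep 0
      have t1 := N.d_tri (n 0) (n (0 + 1)) (n j)
      have t2 := N.d_tri (n (0 + 1)) a (n j)
      have c1 := N.d_comm a (n j)
      omega

/-- minimal displacement makes the orbit a broken geodesic -/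
theorem min_disp (S : SetA N A E K L C) {z x : G}
    (hmin : ∀ y : G, N.d x (z * x) ≤ N.d y (z * y)) (hbig : 3000 * C < N.d x (z * x)) :
    2 * N.d x (z * x) ≤ N.d x (z ^ 2 * x) + 2 * C := by
  have hpos := S.pos
  obtain ⟨m, hm1, hm2⟩ := N.exists_btw x (z * x) (t := N.d x (z * x) / 2) (by omega)
  have h0 := hmin m
  have e1 : N.d (z * x) (z ^ 2 * x) = N.d x (z * x) := by
    rw [pow_two, mul_assoc, N.d_left]
  have e2 : N.d (z * x) (z * m) = N.d x m := N.d_left _ _ _
  have e3 : N.d (z * m) (z ^ 2 * x) = N.d m (z * x) := by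
    rw [pow_two, mul_assoc, N.d_left]
  have h1 := GNorm.a0 S.fp (x := x) (p := m) (y := z * x) (c := 0) (by omega) (z ^ 2 * x)
  have h2 := GNorm.a0 S.fp (x := z * x) (p := z * m) (y := z ^ 2 * x) (c := 0) (by omega) m
  have c1 := N.d_comm (z * m) m
  have c2 := N.d_comm (z ^ 2 * x) (z * x)
  have c3 := N.d_comm (z * x) m
  rcases h1 with h1 | h1 <;> rcases h2 with h2 | h2 <;> omega

/-- points on a line `U W` -/
theorem line_dist (S : SetA N A E K L C) {U W w w' : G}
    (h : N.d U w + N.d w W ≤ N.d U W + 9 * C) (h' : N.d U w' + N.d w' W ≤ N.d U W + 9 * C) :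
    N.d w w' ≤ (N.d U w - N.d U w') + (N.d U w' - N.d U w) + 19 * C := by
  have := GNorm.a2 S.fp h h'
  omega

/-- (TL) torsion lifts -/
theorem tl (S : SetA N A E K L C) {z : G} {m : ℕ} (hm : m ≠ 0) (hz : z ^ m ∈ K) :
    ∃ z' : G, z' * z⁻¹ ∈ K ∧ (IsOfFinOrder z' ∨ ∃ c : G ⧸ E, z' • c = c) := by
  classical
  have hpos := S.pos
  have hbig := S.big
  have hKn := S.normal
  by_contra hcon
  push Not at hcon
  -- minimal displacement over all lifts
  have hex : ∃ s : ℕ, ∃ z' x : G, z' * z⁻¹ ∈ K ∧ N.d x (z' * x) = s :=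
    ⟨_, z, 1, by rw [mul_inv_cancel]; exact one_mem _, rfl⟩
  obtain ⟨z', x, hz', hs⟩ := Nat.find_spec hex
  have hmin : ∀ y w : G, w * z⁻¹ ∈ K → N.d x (z' * x) ≤ N.d y (w * y) := by
    intro y w hw
    rw [hs]
    exact Nat.find_min' hex ⟨w, y, hw, rfl⟩
  obtain ⟨hinf, hfix⟩ := hcon z' hz'
  have hpow : z' ^ m ∈ K := by
    have h1 : ((z' : G) : G ⧸ K) = z := by
      have : ((z' * z⁻¹ : G) : G ⧸ K) = 1 := (QuotientGroup.eq_one_iff _).2 hz'
      rw [QuotientGroup.mk_mul, QuotientGroup.mk_inv] at this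
      exact mul_inv_eq_one.1 this
    have h2 : ((z' ^ m : G) : G ⧸ K) = ((z ^ m : G) : G ⧸ K) := by
      rw [QuotientGroup.mk_pow, h1, QuotientGroup.mk_pow]
    rw [(QuotientGroup.eq_one_iff _).2 hz] at h2
    exact (QuotientGroup.eq_one_iff _).1 h2
  have hne : z' ^ m ≠ 1 := fun h =>
    hinf (isOfFinOrder_iff_pow_eq_one.2 ⟨m, Nat.pos_of_ne_zero hm, h⟩)
  obtain ⟨c, hc⟩ := S.gl _ hpow hne x
  obtain ⟨p, hp⟩ := exists_nearestA (N := N) S.ne c x
  obtain ⟨q, hq⟩ := exists_nearestA (N := N) S.ne c (z' ^ m * x)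
  have hpq := hc p q hp hq
  -- the case of small displacement
  rcases Nat.lt_or_ge (3000 * C) (N.d x (z' * x)) with hl | hl
  swap
  · have h1 : N.l (x⁻¹ * z' * x) ≤ 3000 * C := by
      have : N.d x (z' * x) = N.l (x⁻¹ * z' * x) := by
        rw [GNorm.d, mul_assoc]
      omega
    have h3 := S.e6 h1 (x⁻¹ • c) m (by
      intro p' q' hp' hq'
      have e := conj_pow (i := m) (a := x⁻¹) (b := z')
      rw [inv_inv] at e
      rw [e] at hq'
      have a1 := nearA_smul hp' x
      have a2 := nearA_smul hq' x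
      rw [smul_inv_smul, mul_one] at a1
      have e2 : x * (x⁻¹ * z' ^ m * x) = z' ^ m * x := by group
      rw [smul_inv_smul, e2] at a2
      have := hc _ _ a1 a2
      rwa [N.d_left] at this)
    apply hfix c
    have h4 : x • ((x⁻¹ * z' * x) • x⁻¹ • c) = x • (x⁻¹ • c) := by rw [h3]
    rw [smul_inv_smul, smul_smul, smul_smul] at h4
    have e : x * (x⁻¹ * z' * x) * x⁻¹ = z' := by group
    rwa [e] at h4
  -- the case of large displacement
  have h2 := S.min_disp (fun y => hmin y z' hz') hl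
  set l0 := N.d x (z' * x) with hl0
  -- the line
  set U := (z' ^ (m + 1))⁻¹ * x with hU
  set W := z' ^ (m + 1) * x with hW
  have hpow_d : ∀ (i j : ℕ), N.d (z' ^ i * U) (z' ^ (i + j) * U) = N.d U (z' ^ j * U) :=
    fun i j => GNorm.d_pow z' U i j
  have hU0 : z' ^ (m + 1) * U = x := by rw [hU]; group
  have hconj : ∀ j : ℕ, N.d U (z' ^ j * U) = N.d x (z' ^ j * x) := by
    intro j
    have := N.d_left (z' ^ (m + 1)) U (z' ^ j * U)
    rw [← this, hU0]
    congr 1
    rw [← mul_assoc, ← pow_add, add_comm, pow_add, mul_assoc, hU0]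
  have hB := GNorm.broken S.fp (fun i => z' ^ i * U) (2 * C)
    (by
      intro i
      have a1 := hpow_d i 1
      have a2 := hpow_d (i + 1) 1
      have a3 := hpow_d i 2
      have a4 := hconj 1
      have a5 := hconj 2
      rw [pow_one] at a4
      have e : i + 1 + 1 = i + 2 := rfl
      rw [e] at a2
      show N.d (z' ^ i * U) (z' ^ (i + 1) * U) + N.d (z' ^ (i + 1) * U) (z' ^ (i + 2) * U) ≤
        N.d (z' ^ i * U) (z' ^ (i + 2) * U) + _
      rw [pow_one] at a1 a2
      omega)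
    (by
      intro i
      have a1 := hpow_d i 1
      have a4 := hconj 1
      rw [pow_one] at a1 a4
      show _ ≤ N.d (z' ^ i * U) (z' ^ (i + 1) * U)
      omega)
  -- positions on the line
  have eU : z' ^ 0 * U = U := by rw [pow_zero, one_mul]
  have ex : z' ^ (m + 1) * U = x := hU0
  have eadd : ∀ a b : ℕ, b = a + (m + 1) → z' ^ b * U = z' ^ a * x := by
    rintro a b rfl
    rw [pow_add, mul_assoc, hU0]
  have ey : z' ^ (2 * m + 1) * U = z' ^ m * x := eadd _ _ (by ring)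
  have ey1 : z' ^ (2 * m + 2) * U = W := eadd _ _ (by ring)
  have ex1 : z' ^ (m + 2) * U = z' * x := by
    rw [eadd 1 _ (by ring), pow_one]
  have ezU : z' ^ 1 * U = z' * U := by rw [pow_one]
  have ezy : z' * (z' ^ m * x) = W := by
    rw [hW, ← mul_assoc, ← pow_succ']
  -- betweenness facts
  have b1 := hB 0 (m + 1) (2 * m + 1) (by omega) (by omega)
  have b2 := hB 0 (2 * m + 1) (2 * m + 2) (by omega) (by omega)
  have b3 := hB 0 (m + 2) (2 * m + 2) (by omega) (by omega)
  have b4 := hB 0 1 (2 * m + 2) (by omega) (by omega)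
  simp only [eU, ex, ey, ey1, ex1, ezU] at b1 b2 b3 b4
  -- nearest points are between
  have hfar : C < N.d p q := by omega
  have n2 := S.near_two c _ _ p q hp hq hfar
  have tpq1 := N.d_tri p q (z' ^ m * x)
  have tpq2 := N.d_tri x p q
  have bp : N.d x p + N.d p (z' ^ m * x) ≤ N.d x (z' ^ m * x) + C := by omega
  have bq : N.d x q + N.d q (z' ^ m * x) ≤ N.d x (z' ^ m * x) + C := by omega
  have trp := GNorm.tr1 b1 bp
  have trq := GNorm.tr1 b1 bq
  -- p, q between U and W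
  have hpW : N.d U p + N.d p W ≤ N.d U W + 9 * C := by
    have t1 := N.d_tri p (z' ^ m * x) W
    omega
  have hqW : N.d U q + N.d q W ≤ N.d U W + 9 * C := by
    have t1 := N.d_tri q (z' ^ m * x) W
    omega
  -- z p, z q between z x and W
  have lzx : N.d (z' * x) (z' * p) = N.d x p := N.d_left _ _ _
  have lzq : N.d (z' * x) (z' * q) = N.d x q := N.d_left _ _ _
  have lpy : N.d (z' * p) W = N.d p (z' ^ m * x) := by rw [← ezy]; exact N.d_left _ _ _
  have lqy : N.d (z' * q) W = N.d q (z' ^ m * x) := by rw [← ezy]; exact N.d_left _ _ _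
  have lxy : N.d (z' * x) W = N.d x (z' ^ m * x) := by rw [← ezy]; exact N.d_left _ _ _
  have bzp : N.d (z' * x) (z' * p) + N.d (z' * p) W ≤ N.d (z' * x) W + C := by omega
  have bzq : N.d (z' * x) (z' * q) + N.d (z' * q) W ≤ N.d (z' * x) W + C := by omega
  have trzp := GNorm.tr1 b3 bzp
  have trzq := GNorm.tr1 b3 bzq
  have hzpW : N.d U (z' * p) + N.d (z' * p) W ≤ N.d U W + 9 * C := by omega
  have hzqW : N.d U (z' * q) + N.d (z' * q) W ≤ N.d U W + 9 * C := by omega
  -- shift of positions by l0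
  have sU : N.d (z' * U) (z' * p) = N.d U p := N.d_left _ _ _
  have sUq : N.d (z' * U) (z' * q) = N.d U q := N.d_left _ _ _
  have dUzU : N.d U (z' * U) = l0 := by
    have := hconj 1
    rwa [pow_one] at this
  have trs := GNorm.tr1 (U := U) (X := z' * U) (Y := W) (w := z' * p) (a := 2 * C + 2 * C) (c := 9 * C)
    b4 (by
      have t1 := N.d_tri U (z' * U) W
      have t2 := N.d_tri U (z' * U) (z' * p)
      have t3 := N.d_tri (z' * U) (z' * p) W
      have b5 := hB 1 (m + 2) (2 * m + 2) (by omega) (by omega)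
      simp only [ezU, ex1, ey1] at b5
      have t4 := GNorm.tr1 b5 bzp
      omega)
  have trs' := GNorm.tr1 (U := U) (X := z' * U) (Y := W) (w := z' * q) (a := 2 * C + 2 * C) (c := 9 * C)
    b4 (by
      have b5 := hB 1 (m + 2) (2 * m + 2) (by omega) (by omega)
      simp only [ezU, ex1, ey1] at b5
      have t4 := GNorm.tr1 b5 bzq
      omega)
  have ushift1 := N.d_tri U (z' * U) (z' * p)
  have ushift2 := N.d_tri U (z' * U) (z' * q)
  -- positions of p and q
  have tUq := N.d_tri U x p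
  have tUq2 := N.d_tri x q (z' ^ m * x)
  have hposq : N.d U p + N.d p q ≤ N.d U q + 6 * C := by omega
  -- distances along the line
  have D1 := S.line_dist hpW hzpW
  have D2 := S.line_dist hzpW hqW
  have D3 := S.line_dist hqW hzqW
  have D4 := S.line_dist hpW hqW
  have D5 := S.line_dist hzpW hzqW
  have D6 := S.line_dist hqW hzpW
  have T1 := N.d_tri U p (z' * p)
  have T2 := N.d_tri U (z' * p) q
  have T3 := N.d_tri U q (z' * q)
  have T4 := N.d_tri U q (z' * p)
  have T5 := N.d_tri U (z' * p) (z' * q)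
  have T6 := N.d_tri U p q
  have kzp : z' * p ∈ ax A E (z' • c) := smul_ax z' hp.1
  have kzq : z' * q ∈ ax A E (z' • c) := smul_ax z' hq.1
  have cqz := N.d_comm q (z' * p)
  rcases Nat.lt_or_ge (L + 400 * C) (2 * l0) with hB2 | hB1
  · -- (B2)
    have hlift : ∀ r ∈ K, (r * z') * z⁻¹ ∈ K := fun r hr => by
      rw [mul_assoc]; exact mul_mem hr hz'
    rcases Nat.lt_or_ge (N.d U (z' * p)) (N.d U q) with hlt | hge
    · -- z p before q
      obtain ⟨y, hy, hyd⟩ := S.qc c p q (z' * p) (38 * C) hp.1 hq.1 (by omega)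
      have t1 := N.d_tri p y (z' * p)
      have c1 := N.d_comm y (z' * p)
      obtain ⟨r, hr, -, hrd⟩ := S.rl c p y (174 * C) hp.1 hy (by omega) (by omega)
      have t2 := N.d_tri p (r * y) (r * (z' * p))
      have l2 := N.d_left r y (z' * p)
      have t3 := N.d_tri p (z' * p) y
      have := hmin p (r * z') (hlift r hr)
      rw [mul_assoc] at this
      omega
    · obtain ⟨r, hr, -, hrd⟩ := S.rl c p q (58 * C) hp.1 hq.1 (by omega) (by omega)
      have t2 := N.d_tri p (r * q) (r * (z' * p))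
      have l2 := N.d_left r q (z' * p)
      have := hmin p (r * z') (hlift r hr)
      rw [mul_assoc] at this
      omega
  · -- (B1)
    apply hfix c
    obtain ⟨y1, hy1, hyd1⟩ := S.qc c p q (z' * p) (38 * C) hp.1 hq.1 (by omega)
    obtain ⟨y2, hy2, hyd2⟩ := S.qc (z' • c) (z' * p) (z' * q) q (38 * C) kzp kzq (by omega)
    have c1 := N.d_comm y1 (z' * p)
    have t1 := N.d_tri (z' * p) y1 q
    exact (S.ov' (k := 77 * C) hy1 hq.1 kzp hy2 (by omega) (by omega) (by omega)).symm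

/-- the quotient of a torsion free group is torsion free -/
theorem tf_quot (S : SetA N A E K L C) (htf : ∀ g : G, IsOfFinOrder g → g = 1) {z : G} {m : ℕ}
    (hm : m ≠ 0) (hz : z ^ m ∈ K) : z ∈ K := by
  obtain ⟨z', hz', h⟩ := S.tl hm hz
  have h1 : z' ∈ K := by
    rcases h with h | ⟨c, hc⟩
    · rw [htf z' h]
      exact K.one_mem
    · exact S.fix_mem hc
  have e : z = (z' * z⁻¹)⁻¹ * z' := by group
  rw [e]
  exact K.mul_mem (K.inv_mem hz') h1

end SetA

end Pool.Agent.Lib.MP_021282_al
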