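import Pool.Agent.Lib.MP_021282_al.PFam

/-! # Chains of cosets

A bi-infinite path that alternates between long segments inside cosets of `E` and short connectors
between distinct cosets. -/

set_option autoImplicit false

namespace Pool.Agent.Lib.MP_021282_al

open Pool.Agent.Lib.MP_bd8d5e_al

variable {G : Type*} [Group G] {N : GNorm G} {E : Subgroup G} {H B : ℕ} {e f : ℤ → G}

/-- a chain of cosets with entry points `e` and exit points `f` -/
structure Chain (N : GNorm G) (E : Subgroup G) (H B : ℕ) (e f : ℤ → G) : Prop where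
  same : ∀ k, (f k : G ⧸ E) = (e k : G ⧸ E)
  next : ∀ k, (e (k + 1) : G ⧸ E) ≠ (e k : G ⧸ E)
  short : ∀ k, N.d (f k) (e (k + 1)) ≤ H
  long : ∀ k, B ≤ N.d (e k) (f k)

namespace Chain

/-- the reversed chain -/
theorem rev (h : Chain N E H B e f) : Chain N E H B (fun k => f (-k)) (fun k => e (-k)) := by
  refine ⟨fun k => (h.same _).symm, fun k => ?_, fun k => ?_, fun k => ?_⟩
  · have e1 : -(k + 1) + 1 = -k := by ring
    have := h.next (-(k + 1))
    rw [e1] at this
    show (f (-(k + 1)) : G ⧸ E) ≠ (f (-k) : G ⧸ E)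
    rw [h.same, h.same]
    exact this.symm
  · have e1 : -(k + 1) + 1 = -k := by ring
    have := h.short (-(k + 1))
    rw [e1, N.d_comm] at this
    exact this
  · rw [N.d_comm]
    exact h.long _

theorem mem_e (_h : Chain N E H B e f) (k : ℤ) : e k ∈ ax (E : Set G) E (e k : G ⧸ E) :=
  mem_ax_coset.2 rfl

theorem mem_f (h : Chain N E H B e f) (k : ℤ) : f k ∈ ax (E : Set G) E (e k : G ⧸ E) :=
  mem_ax_coset.2 (h.same k)

/-- projections of later cosets are near the exit point -/
theorem fwd (P : PF N (E : Set G) E H) (h : Chain N E H B e f) (hB : 11 * H < B) (n : ℕ) :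
    ∀ (k : ℤ) (x p : G), (x : G ⧸ E) = (e (k + 1 + n) : G ⧸ E) →
      NearA N (E : Set G) E (e k : G ⧸ E) x p → N.d p (f k) ≤ 5 * H := by
  -- projection of the next entry point
  have h0 : ∀ (k : ℤ) (a : G), NearA N (E : Set G) E (e k : G ⧸ E) (e (k + 1)) a →
      N.d a (f k) ≤ 2 * H := by
    intro k a ha
    have h1 := nearA_close ha (h.mem_f k)
    have h2 := h.short k
    have c1 := N.d_comm (f k) a
    have c2 := N.d_comm (f k) (e (k + 1))
    omega
  induction n with
  | zero =>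
    intro k x p hx hp
    rw [Nat.cast_zero, add_zero] at hx
    obtain ⟨a, ha⟩ := exists_nearestA (N := N) P.ne (e k : G ⧸ E) (e (k + 1))
    have h1 := P.ov _ _ (h.next k).symm x (e (k + 1)) p a (mem_ax_coset.2 hx) (h.mem_e _) hp ha
    have h2 := h0 k a ha
    have t1 := N.d_tri p a (f k)
    omega
  | succ n ih =>
    intro k x p hx hp
    have e1 : k + 1 + ((n + 1 : ℕ) : ℤ) = (k + 1) + 1 + n := by push_cast; ring
    rw [e1] at hx
    obtain ⟨p', hp'⟩ := exists_nearestA (N := N) P.ne (e (k + 1) : G ⧸ E) x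
    have h1 := ih (k + 1) x p' hx hp'
    obtain ⟨a, ha⟩ := exists_nearestA (N := N) P.ne (e k : G ⧸ E) (e (k + 1))
    obtain ⟨b, hb⟩ := exists_nearestA (N := N) P.ne (e (k + 1) : G ⧸ E) (e k)
    obtain ⟨b', hb'⟩ := exists_nearestA (N := N) P.ne (e (k + 1) : G ⧸ E) (f k)
    have h2 := P.ov _ _ (h.next k) (e k) (f k) b b' (h.mem_e k) (h.mem_f k) hb hb'
    have h3 := nearA_close hb' (h.mem_e (k + 1))
    have h4 := h.short k
    have h5 := h.long (k + 1)
    have h6 := h0 k a ha
    rcases P.beh (h.next k).symm hp hp' (h.mem_e k) (h.mem_e (k + 1)) ha hb with h7 | h7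
    · have t1 := N.d_tri p a (f k)
      omega
    · have t1 := N.d_tri (e (k + 1)) b (f (k + 1))
      have t2 := N.d_tri (e (k + 1)) b' b
      have t3 := N.d_tri b p' (f (k + 1))
      have c1 := N.d_comm b b'
      have c2 := N.d_comm b p'
      omega

/-- projections of earlier cosets are near the entry point -/
theorem bwd (P : PF N (E : Set G) E H) (h : Chain N E H B e f) (hB : 11 * H < B) (n : ℕ)
    (k : ℤ) (x p : G) (hx : (x : G ⧸ E) = (e (k - 1 - n) : G ⧸ E))
    (hp : NearA N (E : Set G) E (e k : G ⧸ E) x p) : N.d p (e k) ≤ 5 * H := by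
  have h1 := h.rev.fwd P hB n (-k) x p (by
    show (x : G ⧸ E) = (f (-(-k + 1 + n)) : G ⧸ E)
    have e1 : -(-k + 1 + (n : ℤ)) = k - 1 - n := by ring
    rw [e1, h.same, hx]) (by
    show NearA N (E : Set G) E (f (- -k) : G ⧸ E) x p
    rw [neg_neg, h.same]
    exact hp)
  have h2 : N.d p (e (- -k)) ≤ 5 * H := h1
  rwa [neg_neg] at h2

theorem fwd' (P : PF N (E : Set G) E H) (h : Chain N E H B e f) (hB : 11 * H < B) {k l : ℤ}
    (hkl : k < l) {x p : G} (hx : (x : G ⧸ E) = (e l : G ⧸ E))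
    (hp : NearA N (E : Set G) E (e k : G ⧸ E) x p) : N.d p (f k) ≤ 5 * H := by
  refine h.fwd P hB (l - k - 1).toNat k x p ?_ hp
  have : k + 1 + ((l - k - 1).toNat : ℤ) = l := by omega
  rw [this, hx]

theorem bwd' (P : PF N (E : Set G) E H) (h : Chain N E H B e f) (hB : 11 * H < B) {k l : ℤ}
    (hkl : l < k) {x p : G} (hx : (x : G ⧸ E) = (e l : G ⧸ E))
    (hp : NearA N (E : Set G) E (e k : G ⧸ E) x p) : N.d p (e k) ≤ 5 * H := by
  refine h.bwd P hB (k - 1 - l).toNat k x p ?_ hp
  have : k - 1 - ((k - 1 - l).toNat : ℤ) = l := by omega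
  rw [this, hx]

/-- the cosets of a chain are distinct -/
theorem ne_of_lt (P : PF N (E : Set G) E H) (h : Chain N E H B e f) (hB : 11 * H < B) {k l : ℤ}
    (hkl : k < l) : (e k : G ⧸ E) ≠ (e l : G ⧸ E) := by
  intro hc
  have h1 : NearA N (E : Set G) E (e k : G ⧸ E) (e k) (e k) :=
    ⟨h.mem_e k, fun y _ => by rw [N.d_self]; omega⟩
  have h2 := h.fwd' P hB hkl hc h1
  have h3 := h.long k
  omega

/-- paths through a coset pass near its entry and exit points -/
theorem thru (P : PF N (E : Set G) E H) (h : Chain N E H B e f) (hB : 11 * H < B) {i j k : ℤ}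
    (hij : i < j) (hjk : j < k) {x y : G} (hx : (x : G ⧸ E) = (e i : G ⧸ E))
    (hy : (y : G ⧸ E) = (e k : G ⧸ E)) :
    N.d x (e j) + N.d (e j) (f j) + N.d (f j) y ≤ N.d x y + 21 * H := by
  obtain ⟨p, hp⟩ := exists_nearestA (N := N) P.ne (e j : G ⧸ E) x
  obtain ⟨q, hq⟩ := exists_nearestA (N := N) P.ne (e j : G ⧸ E) y
  have h1 := h.bwd' P hB hij hx hp
  have h2 := h.fwd' P hB hjk hy hq
  have h3 := h.long j
  have t1 := N.d_tri (e j) p (f j)
  have t2 := N.d_tri p q (f j)
  have t3 := N.d_tri x p (e j)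
  have t4 := N.d_tri (f j) q y
  have c1 := N.d_comm (e j) p
  have c2 := N.d_comm (f j) q
  have h4 := P.near_two _ x y p q hp hq (by omega)
  omega

/-- three vertices -/
theorem tri_lt (P : PF N (E : Set G) E H) (h : Chain N E H B e f) (hB : 11 * H < B) {i j k : ℤ}
    (hij : i ≤ j) (hjk : j ≤ k) :
    N.d (e i) (e j) + N.d (e j) (e k) ≤ N.d (e i) (e k) + 21 * H := by
  rcases eq_or_lt_of_le hij with h1 | h1
  · rw [h1, N.d_self]
    omega
  rcases eq_or_lt_of_le hjk with h2 | h2
  · rw [h2, N.d_self]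
    omega
  have h3 := h.thru P hB h1 h2 (x := e i) (y := e k) rfl rfl
  have t1 := N.d_tri (e j) (f j) (e k)
  omega

/-- sides are long -/
theorem side (h : Chain N E H B e f) (k : ℤ) : B ≤ N.d (e k) (e (k + 1)) + H := by
  have h1 := h.long k
  have h2 := h.short k
  have t := N.d_tri (e k) (e (k + 1)) (f k)
  have c := N.d_comm (e (k + 1)) (f k)
  omega

/-- exit points are almost between consecutive entry points -/
theorem f_btw (h : Chain N E H B e f) (k : ℤ) :
    N.d (e k) (f k) + N.d (f k) (e (k + 1)) ≤ N.d (e k) (e (k + 1)) + 2 * H := by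
  have h2 := h.short k
  have t := N.d_tri (e k) (e (k + 1)) (f k)
  have c := N.d_comm (e (k + 1)) (f k)
  omega

end Chain

/-- the axis of a chain: all geodesics between consecutive entry points -/
def axis (N : GNorm G) (e : ℤ → G) : Set G := {x | ∃ k, N.Btw (e k) x (e (k + 1))}

/-- `x` comes before `y` on the axis -/
def Ord (N : GNorm G) (e : ℤ → G) (k : ℤ) (x : G) (l : ℤ) (y : G) : Prop :=
  k < l ∨ (k = l ∧ N.d (e k) x ≤ N.d (e k) y)

theorem ord_total (k : ℤ) (x : G) (l : ℤ) (y : G) : Ord N e k x l y ∨ Ord N e l y k x := by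
  unfold Ord
  rcases lt_trichotomy k l with h | h | h
  · exact Or.inl (Or.inl h)
  · subst h
    rcases le_total (N.d (e k) x) (N.d (e k) y) with h | h
    · exact Or.inl (Or.inr ⟨rfl, h⟩)
    · exact Or.inr (Or.inr ⟨rfl, h⟩)
  · exact Or.inr (Or.inl h)

namespace Chain

/-- two points of the axis in order, between two vertices -/
theorem pp (P : PF N (E : Set G) E H) (h : Chain N E H B e f) (hB : 11 * H < B)
    {K k l K' : ℤ} (hK : K ≤ k) (hK' : l + 1 ≤ K') {x y : G} (hx : N.Btw (e k) x (e (k + 1)))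
    (hy : N.Btw (e l) y (e (l + 1))) (ho : Ord N e k x l y) :
    N.d (e K) x + N.d x y + N.d y (e K') ≤ N.d (e K) (e K') + 85 * H := by
  unfold GNorm.Btw at hx hy
  have t1 := N.d_tri (e K) (e k) x
  have t2 := N.d_tri y (e (l + 1)) (e K')
  rcases ho with ho | ⟨rfl, ho⟩
  · have t3 := N.d_tri x (e (k + 1)) y
    have t4 := N.d_tri (e (k + 1)) (e l) y
    have s1 := h.tri_lt P hB hK (show k ≤ K' by omega)
    have s2 := h.tri_lt P hB (show k ≤ k + 1 by omega) (show k + 1 ≤ K' by omega)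
    have s3 := h.tri_lt P hB (show k + 1 ≤ l by omega) (show l ≤ K' by omega)
    have s4 := h.tri_lt P hB (show l ≤ l + 1 by omega) hK'
    omega
  · have s1 := h.tri_lt P hB hK (show k ≤ K' by omega)
    have s2 := h.tri_lt P hB (show k ≤ k + 1 by omega) (show k + 1 ≤ K' by omega)
    have a := GNorm.a2 P.fp (x := e k) (y := e (k + 1)) (z := x) (z' := y) (c := 0) (c' := 0)
      (by omega) (by omega)
    omega

/-- three points of the axis in order -/
theorem ord3 (P : PF N (E : Set G) E H) (h : Chain N E H B e f) (hB : 11 * H < B)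
    {k l m : ℤ} {x y z : G} (hx : N.Btw (e k) x (e (k + 1)))
    (hy : N.Btw (e l) y (e (l + 1))) (hz : N.Btw (e m) z (e (m + 1))) (h1 : Ord N e k x l y)
    (h2 : Ord N e l y m z) : N.d x y + N.d y z ≤ N.d x z + 170 * H := by
  have hkl : k ≤ l := by rcases h1 with h | h <;> omega
  have hlm : l ≤ m := by rcases h2 with h | h <;> omega
  have p1 := h.pp P hB (le_refl k) (show l + 1 ≤ m + 1 by omega) hx hy h1
  have p2 := h.pp P hB hkl (le_refl (m + 1)) hy hz h2
  have t1 := N.d_tri (e k) y (e (m + 1))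
  have t2 := N.d_tri (e k) x (e (m + 1))
  have t3 := N.d_tri x z (e (m + 1))
  omega

/-- points almost between two vertices are near the axis -/
theorem loc (P : PF N (E : Set G) E H) (h : Chain N E H B e f) (hB : 11 * H < B)
    {k l : ℤ} (hkl : k ≤ l) {x : G} {μ : ℕ}
    (hx : N.d (e k) x + N.d x (e (l + 1)) ≤ N.d (e k) (e (l + 1)) + μ) :
    ∃ z ∈ axis N e, N.d x z ≤ 64 * H + 2 * μ := by
  classical
  -- the last vertex before `x`
  let Q : ℕ → Prop := fun i => N.d (e k) (e (k + i)) ≤ N.d (e k) x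
  have hQ0 : Q 0 := by
    show N.d (e k) (e (k + ((0 : ℕ) : ℤ))) ≤ _
    rw [Nat.cast_zero, add_zero, N.d_self]
    omega
  set n := (l - k).toNat with hn
  set i := Nat.findGreatest Q n with hi
  have hQi : Q i := Nat.findGreatest_spec (P := Q) (Nat.zero_le n) hQ0
  have hin : i ≤ n := Nat.findGreatest_le n
  set j := k + (i : ℤ) with hj
  have hjl : j ≤ l := by omega
  have hQi' : N.d (e k) (e j) ≤ N.d (e k) x := hQi
  have hup : N.d (e k) x ≤ N.d (e k) (e (j + 1)) + μ := by
    rcases eq_or_lt_of_le hjl with h1 | h1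
    · rw [h1]
      omega
    · have h2 : ¬ Q (i + 1) := Nat.findGreatest_is_greatest (P := Q) (n := n) (k := i + 1)
        (by omega) (by omega)
      have h3 : ¬ (N.d (e k) (e (k + ((i + 1 : ℕ) : ℤ))) ≤ N.d (e k) x) := h2
      have e1 : k + ((i + 1 : ℕ) : ℤ) = j + 1 := by push_cast; omega
      rw [e1] at h3
      omega
  obtain ⟨z, hz1, hz2⟩ := N.exists_btw (e j) (e (j + 1))
    (t := min (N.d (e k) x - N.d (e k) (e j)) (N.d (e j) (e (j + 1)))) (min_le_right _ _)
  have hkj : k ≤ j := by omega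
  have s1 := h.tri_lt P hB hkj (show j ≤ j + 1 by omega)
  have s2 := h.tri_lt P hB hkj (show j ≤ l + 1 by omega)
  have s3 := h.tri_lt P hB (show j ≤ j + 1 by omega) (show j + 1 ≤ l + 1 by omega)
  have t1 := N.d_tri (e k) (e j) z
  have t2 := N.d_tri z (e (j + 1)) (e (l + 1))
  have t3 := N.d_tri (e k) z (e (j + 1))
  have t4 := N.d_tri (e k) (e j) (e (j + 1))
  have a := GNorm.a2 P.fp (x := e k) (y := e (l + 1)) (z := x) (z' := z) (c := μ) (c' := 42 * H)
    hx (by omega)
  refine ⟨z, ⟨j, by unfold GNorm.Btw; omega⟩, ?_⟩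
  omega

/-- the axis is quasiconvex -/
theorem qca (P : PF N (E : Set G) E H) (h : Chain N E H B e f) (hB : 11 * H < B) :
    QCA N (axis N e) (234 * H) := by
  have key : ∀ (k l : ℤ) (p p' q : G), N.Btw (e k) p (e (k + 1)) → N.Btw (e l) p' (e (l + 1)) →
      Ord N e k p l p' → N.Btw p q p' → ∃ z ∈ axis N e, N.d q z ≤ 234 * H := by
    intro k l p p' q hp hp' ho hq
    have hkl : k ≤ l := by rcases ho with h | h <;> omega
    have h1 := h.pp P hB (le_refl k) (le_refl (l + 1)) hp hp' ho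
    unfold GNorm.Btw at hq
    have t1 := N.d_tri (e k) p q
    have t2 := N.d_tri q p' (e (l + 1))
    obtain ⟨z, hz, h2⟩ := h.loc P hB hkl (x := q) (μ := 85 * H) (by omega)
    exact ⟨z, hz, by omega⟩
  rintro p ⟨k, hp⟩ p' ⟨l, hp'⟩ q hq
  rcases ord_total (N := N) (e := e) k p l p' with ho | ho
  · exact key k l p p' q hp hp' ho hq
  · exact key l k p' p q hp' hp ho (N.btw_symm hq)

end Chain

end Pool.Agent.Lib.MP_021282_al
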