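import Pool.Agent.Lib.MP_021282_al.Chain
import Pool.Agent.Lib.MP_bd8d5e_al.ELox

/-! # Chains of cosets, II: projections of the axis, matching of two chains -/

set_option autoImplicit false

namespace Pool.Agent.Lib.MP_021282_al

open Pool.Agent.Lib.MP_bd8d5e_al

variable {G : Type*} [Group G] {N : GNorm G} {E : Subgroup G} {H B : ℕ} {e f e' f' : ℤ → G}

/-- discrete intermediate value -/
theorem nat_ivt (g : ℕ → ℕ) (n T : ℕ) (h0 : g 0 ≤ T) (hn : T < g n) :
    ∃ i < n, g i ≤ T ∧ T < g (i + 1) := by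
  classical
  set i := Nat.findGreatest (fun i => g i ≤ T) n with hi
  have h1 : g i ≤ T := Nat.findGreatest_spec (P := fun i => g i ≤ T) (Nat.zero_le n) h0
  have h2 : i ≤ n := Nat.findGreatest_le n
  have h3 : i < n := by
    rcases h2.lt_or_eq with h | h
    · exact h
    · rw [h] at h1
      omega
  have h4 : ¬ (g (i + 1) ≤ T) := Nat.findGreatest_is_greatest (P := fun i => g i ≤ T) (n := n)
    (k := i + 1) (by omega) (by omega)
  exact ⟨i, h3, h1, by omega⟩

/-- an element that fixes two axes is trivial -/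
theorem PF.fix_two {A : Set G} (P : PF N A E H) (hfb : N.FinBalls)
    (htf : ∀ g : G, IsOfFinOrder g → g = 1) {c c' : G ⧸ E} (hne : c ≠ c') {γ : G}
    (h1 : γ • c = c) (h2 : γ • c' = c') : γ = 1 := by
  by_contra hγ
  obtain ⟨z, hz⟩ := ax_nonempty (A := A) (E := E) P.ne c'
  obtain ⟨p, hp⟩ := exists_nearestA (N := N) P.ne c z
  have hfix : ∀ (x : G ⧸ E), γ • x = x → ∀ n : ℕ, γ ^ n • x = x := by
    intro x hx n
    induction n with
    | zero => rw [pow_zero, one_smul]
    | succ n ih => rw [pow_succ, mul_smul, hx, ih]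
  have h3 : ∀ n : ℕ, N.d p (γ ^ n * p) ≤ H := by
    intro n
    have a1 := nearA_smul hp (γ ^ n)
    rw [hfix c h1 n] at a1
    have a2 := smul_ax (γ ^ n) hz
    rw [hfix c' h2 n] at a2
    exact P.ov c c' hne z _ p _ hz a2 hp a1
  have h4 : ¬ IsOfFinOrder (p⁻¹ * γ * p) := by
    intro h
    have h5 := htf _ h
    apply hγ
    calc γ = p * (p⁻¹ * γ * p) * p⁻¹ := by group
      _ = 1 := by rw [h5]; group
  obtain ⟨n, hn⟩ := GNorm.exists_large_pow hfb h4 H
  have h5 : N.l ((p⁻¹ * γ * p) ^ n) = N.d p (γ ^ n * p) := by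
    unfold GNorm.d
    congr 1
    have : (p⁻¹ * γ * p) ^ n = p⁻¹ * γ ^ n * p := by
      have e1 : p⁻¹ * γ * p = p⁻¹ * γ * p⁻¹⁻¹ := by rw [inv_inv]
      rw [e1, conj_pow, inv_inv]
    rw [this, mul_assoc]
  have := h3 n
  omega

namespace Chain

/-- translates of chains -/
theorem smul (h : Chain N E H B e f) (g : G) :
    Chain N E H B (fun k => g * e k) (fun k => g * f k) := by
  refine ⟨fun k => ?_, fun k => ?_, fun k => ?_, fun k => ?_⟩
  · show g • (f k : G ⧸ E) = g • (e k : G ⧸ E)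
    rw [h.same]
  · intro h1
    have h2 : g • (e (k + 1) : G ⧸ E) = g • (e k : G ⧸ E) := h1
    exact h.next k (MulAction.injective g h2)
  · show N.d (g * f k) (g * e (k + 1)) ≤ H
    rw [N.d_left]
    exact h.short k
  · show B ≤ N.d (g * e k) (g * f k)
    rw [N.d_left]
    exact h.long k

/-- points of the axis are near the cosets -/
theorem near_coset (P : PF N (E : Set G) E H) (h : Chain N E H B e f) {k : ℤ} {z : G}
    (hz : N.Btw (e k) z (e (k + 1))) :
    ∃ y ∈ ax (E : Set G) E (e k : G ⧸ E), N.d z y ≤ 5 * H := by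
  unfold GNorm.Btw at hz
  have h1 := h.short k
  have t1 := N.d_tri z (e (k + 1)) (f k)
  have t2 := N.d_tri (e k) (f k) (e (k + 1))
  have c1 := N.d_comm (e (k + 1)) (f k)
  obtain ⟨y, hy, h2⟩ := P.qc (e k : G ⧸ E) (e k) (f k) z (2 * H) (h.mem_e k) (h.mem_f k) (by omega)
  exact ⟨y, hy, by omega⟩

/-- the projection of the axis to a coset outside the chain is small -/
theorem big (P : PF N (E : Set G) E H) (h : Chain N E H B e f) (hB : 28 * H < B) {c : G ⧸ E}
    (hc : ∀ i, c ≠ (e i : G ⧸ E)) {z z' p p' : G} (hz : z ∈ axis N e) (hz' : z' ∈ axis N e)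
    (hp : NearA N (E : Set G) E c z p) (hp' : NearA N (E : Set G) E c z' p') :
    N.d p p' ≤ 34 * H := by
  choose q hq using fun i => exists_nearestA (N := N) P.ne c (e i)
  have hstep : ∀ i, N.d (q i) (q (i + 1)) ≤ 3 * H := by
    intro i
    obtain ⟨r, hr⟩ := exists_nearestA (N := N) P.ne c (f i)
    have h1 := P.ov c _ (hc i) (e i) (f i) (q i) r (h.mem_e i) (h.mem_f i) (hq i) hr
    have h2 := P.lip hr (hq (i + 1))
    have h3 := h.short i
    have t := N.d_tri (q i) r (q (i + 1))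
    omega
  have hclose : ∀ i m j, i ≤ m → m ≤ j → H < N.d (q i) (q m) → H < N.d (q m) (q j) →
      2 * N.d (e m) (q m) ≤ 23 * H := by
    intro i m j him hmj h1 h2
    have a1 := P.near_two c (e i) (e m) (q i) (q m) (hq i) (hq m) h1
    have a2 := P.near_two c (e m) (e j) (q m) (q j) (hq m) (hq j) h2
    have a3 := h.tri_lt P (by omega) him hmj
    have t1 := N.d_tri (e i) (q i) (e j)
    have t2 := N.d_tri (q i) (q j) (e j)
    have t3 := N.d_tri (q i) (q m) (q j)
    have c1 := N.d_comm (q m) (e m)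
    omega
  have hmain : ∀ i j, i ≤ j → N.d (q i) (q j) ≤ 20 * H := by
    intro i j hij
    by_contra hcon
    obtain ⟨n, hn, h1, h2⟩ := nat_ivt (fun n => N.d (q i) (q (i + n))) (j - i).toNat (8 * H)
      (by
        show N.d (q i) (q (i + ((0 : ℕ) : ℤ))) ≤ 8 * H
        rw [Nat.cast_zero, add_zero, N.d_self]
        omega)
      (by
        show 8 * H < N.d (q i) (q (i + (((j - i).toNat : ℕ) : ℤ)))
        have : i + (((j - i).toNat : ℕ) : ℤ) = j := by omega
        rw [this]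
        omega)
    have h1' : N.d (q i) (q (i + n)) ≤ 8 * H := h1
    have e1 : i + ((n + 1 : ℕ) : ℤ) = i + n + 1 := by push_cast; ring
    have h2' : 8 * H < N.d (q i) (q (i + n + 1)) := by rw [← e1]; exact h2
    have h3 := hstep (i + n)
    have t1 := N.d_tri (q i) (q (i + n)) (q (i + n + 1))
    have t2 := N.d_tri (q i) (q (i + n)) (q j)
    have t3 := N.d_tri (q i) (q (i + n + 1)) (q j)
    have a1 := hclose i (i + n) j (by omega) (by omega) (by omega) (by omega)
    have a2 := hclose i (i + n + 1) j (by omega) (by omega) (by omega) (by omega)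
    have t4 := N.d_tri (e (i + n)) (q (i + n)) (e (i + n + 1))
    have t5 := N.d_tri (q (i + n)) (q (i + n + 1)) (e (i + n + 1))
    have c1 := N.d_comm (q (i + n + 1)) (e (i + n + 1))
    have s := h.side (i + n)
    omega
  have hmain' : ∀ i j, N.d (q i) (q j) ≤ 20 * H := by
    intro i j
    rcases le_total i j with h1 | h1
    · exact hmain i j h1
    · rw [N.d_comm]
      exact hmain j i h1
  have hnear : ∀ {z p : G}, z ∈ axis N e → NearA N (E : Set G) E c z p →
      ∃ i, N.d p (q i) ≤ 7 * H := by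
    rintro z p ⟨k, hk⟩ hp
    obtain ⟨y, hy, h1⟩ := h.near_coset P hk
    obtain ⟨r, hr⟩ := exists_nearestA (N := N) P.ne c y
    have h2 := P.lip hp hr
    have h3 := P.ov c _ (hc k) y (e k) r (q k) hy (h.mem_e k) hr (hq k)
    have t := N.d_tri p r (q k)
    exact ⟨k, by omega⟩
  obtain ⟨i, hi⟩ := hnear hz hp
  obtain ⟨j, hj⟩ := hnear hz' hp'
  have h1 := hmain' i j
  have t1 := N.d_tri p (q i) p'
  have t2 := N.d_tri (q i) (q j) p'
  have c1 := N.d_comm (q j) p'
  omega

/-- matching of two neighbours, same orientation -/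
theorem adj (P : PF N (E : Set G) E H) (h : Chain N E H B e f) (h' : Chain N E H B e' f')
    (hB : 42 * H < B) {i i' j : ℤ} (h1 : (e' i : G ⧸ E) = (e j : G ⧸ E))
    (h2 : (e' i' : G ⧸ E) = (e (j + 1) : G ⧸ E)) (hlt : i < i') :
    N.d (f' i) (f j) ≤ 10 * H ∧ N.d (e' i') (e (j + 1)) ≤ 10 * H ∧ i' = i + 1 := by
  obtain ⟨p, hp⟩ := exists_nearestA (N := N) P.ne (e j : G ⧸ E) (e (j + 1))
  obtain ⟨q, hq⟩ := exists_nearestA (N := N) P.ne (e (j + 1) : G ⧸ E) (e j)
  have a1 := h.fwd' P (by omega) (show j < j + 1 by omega) (x := e (j + 1)) rfl hp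
  have a2 := h.bwd' P (by omega) (show j < j + 1 by omega) (x := e j) rfl hq
  have a3 := h'.fwd' P (by omega) hlt (x := e (j + 1)) h2.symm (by rw [h1]; exact hp)
  have a4 := h'.bwd' P (by omega) hlt (x := e j) h1.symm (by rw [h2]; exact hq)
  have c1 := N.d_comm p (f' i)
  have c2 := N.d_comm q (e' i')
  have t1 := N.d_tri (f' i) p (f j)
  have t2 := N.d_tri (e' i') q (e (j + 1))
  have b1 : N.d (f' i) (f j) ≤ 10 * H := by omega
  have b2 : N.d (e' i') (e (j + 1)) ≤ 10 * H := by omega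
  refine ⟨b1, b2, ?_⟩
  by_contra hne
  have a5 := h'.thru P (by omega) (show i < i + 1 by omega) (show i + 1 < i' by omega)
    (x := f' i) (y := e' i') (h'.same i) rfl
  have a6 := h'.long (i + 1)
  have a7 := h.short j
  have t3 := N.d_tri (f' i) (f j) (e' i')
  have t4 := N.d_tri (f j) (e (j + 1)) (e' i')
  have c3 := N.d_comm (e (j + 1)) (e' i')
  omega

/-- matching of two neighbours, reversed orientation -/
theorem adj_rev (P : PF N (E : Set G) E H) (h : Chain N E H B e f) (h' : Chain N E H B e' f')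
    (hB : 42 * H < B) {i i' j : ℤ} (h1 : (e' i : G ⧸ E) = (e j : G ⧸ E))
    (h2 : (e' i' : G ⧸ E) = (e (j + 1) : G ⧸ E)) (hlt : i' < i) :
    N.d (e' i) (f j) ≤ 10 * H ∧ N.d (f' i') (e (j + 1)) ≤ 10 * H ∧ i = i' + 1 := by
  obtain ⟨a1, a2, a3⟩ := h.adj P h'.rev hB (i := -i) (i' := -i') (j := j)
    (by
      show (f' (- -i) : G ⧸ E) = (e j : G ⧸ E)
      rw [neg_neg, h'.same, h1])
    (by
      show (f' (- -i') : G ⧸ E) = (e (j + 1) : G ⧸ E)
      rw [neg_neg, h'.same, h2])
    (by omega)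
  have a1' : N.d (e' (- -i)) (f j) ≤ 10 * H := a1
  have a2' : N.d (f' (- -i')) (e (j + 1)) ≤ 10 * H := a2
  rw [neg_neg] at a1' a2'
  exact ⟨a1', a2', by omega⟩

/-- matching of three consecutive cosets -/
theorem adj3 (P : PF N (E : Set G) E H) (h : Chain N E H B e f) (h' : Chain N E H B e' f')
    (hB : 42 * H < B) {a b c j : ℤ} (h1 : (e' a : G ⧸ E) = (e j : G ⧸ E))
    (h2 : (e' b : G ⧸ E) = (e (j + 1) : G ⧸ E)) (h3 : (e' c : G ⧸ E) = (e (j + 1 + 1) : G ⧸ E)) :
    ((b = a + 1 ∧ c = b + 1) ∨ (a = b + 1 ∧ b = c + 1)) ∧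
      N.d (e' b) (f' b) ≤ N.d (e (j + 1)) (f (j + 1)) + 20 * H ∧
      N.d (e (j + 1)) (f (j + 1)) ≤ N.d (e' b) (f' b) + 20 * H := by
  have n1 : a ≠ b := by
    rintro rfl
    exact h.ne_of_lt P (by omega) (show j < j + 1 by omega) (h1.symm.trans h2)
  have n2 : b ≠ c := by
    rintro rfl
    exact h.ne_of_lt P (by omega) (show j + 1 < j + 1 + 1 by omega) (h2.symm.trans h3)
  have n3 : a ≠ c := by
    rintro rfl
    exact h.ne_of_lt P (by omega) (show j < j + 1 + 1 by omega) (h1.symm.trans h3)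
  rcases lt_or_gt_of_ne n1 with l1 | l1
  · obtain ⟨-, p2, p3⟩ := h.adj P h' hB h1 h2 l1
    rcases lt_or_gt_of_ne n2 with l2 | l2
    · obtain ⟨q1, -, q3⟩ := h.adj P h' hB h2 h3 l2
      refine ⟨Or.inl ⟨p3, q3⟩, ?_, ?_⟩
      · have t1 := N.d_tri (e' b) (e (j + 1)) (f' b)
        have t2 := N.d_tri (e (j + 1)) (f (j + 1)) (f' b)
        have c1 := N.d_comm (f (j + 1)) (f' b)
        omega
      · have t1 := N.d_tri (e (j + 1)) (e' b) (f (j + 1))
        have t2 := N.d_tri (e' b) (f' b) (f (j + 1))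
        have c1 := N.d_comm (e (j + 1)) (e' b)
        omega
    · obtain ⟨-, -, q3⟩ := h.adj_rev P h' hB h2 h3 l2
      omega
  · obtain ⟨-, p2, p3⟩ := h.adj_rev P h' hB h1 h2 l1
    rcases lt_or_gt_of_ne n2 with l2 | l2
    · obtain ⟨-, -, q3⟩ := h.adj P h' hB h2 h3 l2
      omega
    · obtain ⟨q1, -, q3⟩ := h.adj_rev P h' hB h2 h3 l2
      refine ⟨Or.inr ⟨p3, q3⟩, ?_, ?_⟩
      · have t1 := N.d_tri (e' b) (f (j + 1)) (f' b)
        have t2 := N.d_tri (f (j + 1)) (e (j + 1)) (f' b)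
        have c1 := N.d_comm (e (j + 1)) (f' b)
        have c2 := N.d_comm (f (j + 1)) (e (j + 1))
        omega
      · have t1 := N.d_tri (e (j + 1)) (f' b) (f (j + 1))
        have t2 := N.d_tri (f' b) (e' b) (f (j + 1))
        have c1 := N.d_comm (e (j + 1)) (f' b)
        have c2 := N.d_comm (f' b) (e' b)
        omega

end Chain

end Pool.Agent.Lib.MP_021282_al
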