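import Pool.Agent.Lib.MP_bd8d5e_al.ECyc
import Pool.Agent.Lib.MP_bd8d5e_al.ELox
import Pool.Agent.Lib.MP_bd8d5e_al.EProj

/-! # Commutation in torsion free hyperbolic groups -/

set_option autoImplicit false

namespace Pool.Agent.Lib.MP_021282_al

open Pool.Agent.Lib.MP_bd8d5e_al

variable {G : Type*} [Group G] {N : GNorm G} {δ : ℕ}

/-- torsion free -/
def TF (G : Type*) [Group G] : Prop := ∀ g : G, IsOfFinOrder g → g = 1

theorem lox_cyc (hF : N.FP δ) (hfb : N.FinBalls) (htf : TF G) {v : G} (hv : N.Lox δ v) :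
    ∃ (v0 : G) (m : ℕ), 0 < m ∧ v = v0 ^ m ∧ ∀ g ∈ EE v, ∃ k : ℤ, g = v0 ^ k := by
  obtain ⟨v0, m, hm, h1, -, -, h2⟩ := GNorm.Lox.cyc hfb hF hv (fun t _ ht => htf t ht)
  refine ⟨v0, m, hm, h1, fun g hg => ?_⟩
  rcases h2 g hg with h | ⟨h3, h4, -⟩
  · exact h
  · exact absurd (htf g (isOfFinOrder_iff_pow_eq_one.2 ⟨2, by norm_num, h4⟩)) h3

theorem conj_pow' (p g : G) (n : ℕ) : (p⁻¹ * g * p) ^ n = p⁻¹ * g ^ n * p := by
  have e1 : p⁻¹ * g * p = p⁻¹ * g * p⁻¹⁻¹ := by rw [inv_inv]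
  rw [e1, conj_pow, inv_inv]

theorem EE_conj {x g : G} (p : G) (h : g ∈ EE x) : p⁻¹ * g * p ∈ EE (p⁻¹ * x * p) := by
  obtain ⟨n, hn, h⟩ := h
  refine ⟨n, hn, ?_⟩
  unfold CI at h ⊢
  rw [conj_pow']
  have e1 : p⁻¹ * g * p * (p⁻¹ * x ^ n * p) * (p⁻¹ * g * p)⁻¹ = p⁻¹ * (g * x ^ n * g⁻¹) * p := by
    group
  rw [e1]
  rcases h with h | h
  · left
    rw [h]
  · right
    rw [h]
    group

theorem comm_mem_EE {x g : G} {n : ℕ} (hn : 0 < n) (h : Commute g (x ^ n)) : g ∈ EE x :=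
  ⟨n, hn, Or.inl (by rw [h.eq, mul_inv_cancel_right])⟩

theorem EE_conj' {x g : G} (p : G) {j : ℕ} (hj : 0 < j) (h : g ∈ EE x) :
    p⁻¹ * g * p ∈ EE (p⁻¹ * x ^ j * p) := by
  apply EE_conj
  rw [EE_pow x hj]
  exact h

theorem comm_zpow {v0 a b : G} (ha : ∃ k : ℤ, a = v0 ^ k) (hb : ∃ k : ℤ, b = v0 ^ k) :
    Commute a b := by
  obtain ⟨k, rfl⟩ := ha
  obtain ⟨l, rfl⟩ := hb
  exact Commute.zpow_zpow_self v0 k l

theorem comm_unconj {p a b : G} (h : Commute (p⁻¹ * a * p) (p⁻¹ * b * p)) : Commute a b := by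
  have h1 := h.eq
  have e1 : a * b = p * ((p⁻¹ * a * p) * (p⁻¹ * b * p)) * p⁻¹ := by group
  have e2 : b * a = p * ((p⁻¹ * b * p) * (p⁻¹ * a * p)) * p⁻¹ := by group
  unfold Commute SemiconjBy
  rw [e1, e2, h1]

/-- the structure of `EE x` -/
theorem cyc_cent (hF : N.FP δ) (hfb : N.FinBalls) (htf : TF G) {x : G} (hx : x ≠ 1) :
    ∃ (p : G) (j : ℕ) (v0 : G) (m : ℕ), 0 < j ∧ N.Lox δ (p⁻¹ * x ^ j * p) ∧ 0 < m ∧
      p⁻¹ * x ^ j * p = v0 ^ m ∧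
      (∀ g ∈ EE (p⁻¹ * x ^ j * p), ∃ k : ℤ, g = v0 ^ k) := by
  have hinf : ¬ IsOfFinOrder x := fun h => hx (htf x h)
  obtain ⟨p, j, hj, hl⟩ := GNorm.exists_lox hfb hF hinf
  obtain ⟨v0, m, hm, h1, h2⟩ := lox_cyc hF hfb htf hl
  exact ⟨p, j, v0, m, hj, hl, hm, h1, h2⟩

/-- elements that commute with a power of `x` commute with `x` -/
theorem comm_of_comm_pow (hF : N.FP δ) (hfb : N.FinBalls) (htf : TF G) {x g : G} {n : ℕ}
    (hn : 0 < n) (h : Commute g (x ^ n)) : Commute g x := by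
  by_cases hx : x = 1
  · rw [hx]
    exact Commute.one_right g
  obtain ⟨p, j, v0, m, hj, -, -, -, h2⟩ := cyc_cent hF hfb htf hx
  have h3 := h2 _ (EE_conj' p hj (comm_mem_EE hn h))
  have h4 := h2 _ (EE_conj' p hj (self_mem_EE x))
  exact comm_unconj (p := p) (comm_zpow h3 h4)

/-- if squares commute then the elements commute -/
theorem comm_of_comm_sq (hF : N.FP δ) (hfb : N.FinBalls) (htf : TF G) {x y : G}
    (h : Commute (x ^ 2) (y ^ 2)) : Commute x y := by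
  have h1 : Commute (x ^ 2) y := comm_of_comm_pow hF hfb htf (n := 2) (by norm_num) h
  exact (comm_of_comm_pow hF hfb htf (n := 2) (by norm_num) h1.symm).symm

/-- if `x` commutes with its conjugate by `g` then it commutes with `g` -/
theorem comm_of_comm_conj (hF : N.FP δ) (hfb : N.FinBalls) (htf : TF G) {x g : G}
    (h : Commute (g * x * g⁻¹) x) : Commute g x := by
  by_cases hx : x = 1
  · rw [hx]
    exact Commute.one_right g
  obtain ⟨p, j, v0, m, hj, hl, hm, h1, h2⟩ := cyc_cent hF hfb htf hx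
  obtain ⟨a, ha⟩ := h2 _ (EE_conj' p hj (self_mem_EE x))
  have hmem : g * x * g⁻¹ ∈ EE x := comm_mem_EE (n := 1) one_pos (by rwa [pow_one])
  obtain ⟨b, hb⟩ := h2 _ (EE_conj' p hj hmem)
  have hb0 : b ≠ 0 := by
    rintro rfl
    rw [zpow_zero] at hb
    apply hx
    have e2 : p * (p⁻¹ * (g * x * g⁻¹) * p) * p⁻¹ = 1 := by rw [hb, mul_one, mul_inv_cancel]
    have e3 : p * (p⁻¹ * (g * x * g⁻¹) * p) * p⁻¹ = g * x * g⁻¹ := by group
    rw [e3] at e2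
    calc x = g⁻¹ * (g * x * g⁻¹) * g := by group
      _ = 1 := by rw [e2]; group
  set w := p⁻¹ * x ^ j * p with hw
  set g' := p⁻¹ * g * p with hg'
  have key : w ^ b = g' * w ^ a * g'⁻¹ := by
    have e1 : p⁻¹ * (g * x * g⁻¹) * p = g' * (p⁻¹ * x * p) * g'⁻¹ := by rw [hg']; group
    rw [e1, ha] at hb
    have e2 : w ^ b = (v0 ^ b) ^ (m : ℤ) := by
      rw [h1, ← zpow_natCast, ← zpow_mul, ← zpow_mul, mul_comm]
    have e3 : w ^ a = (v0 ^ a) ^ (m : ℤ) := by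
      rw [h1, ← zpow_natCast, ← zpow_mul, ← zpow_mul, mul_comm]
    rw [e2, e3, ← hb, conj_zpow]
  have h3 := h2 _ (GNorm.conj_zpow_mem_EE hF hl hb0 key)
  exact comm_unconj (p := p) (comm_zpow h3 ⟨a, ha⟩)

/-- a good pair from a pair that does not commute -/
theorem exists_pair (hF : N.FP δ) (hfb : N.FinBalls) (htf : TF G) {u w : G}
    (h : ¬ Commute u w) :
    ∃ (p : G) (j : ℕ), 0 < j ∧ N.Lox δ (p⁻¹ * u ^ j * p) ∧
      p⁻¹ * w * p ∉ EE (p⁻¹ * u ^ j * p) := by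
  have hu : u ≠ 1 := by
    rintro rfl
    exact h (Commute.one_left w)
  obtain ⟨p, j, v0, m, hj, hl, hm, h1, h2⟩ := cyc_cent hF hfb htf hu
  refine ⟨p, j, hj, hl, fun hmem => h ?_⟩
  exact comm_unconj (p := p) (comm_zpow (h2 _ (EE_conj' p hj (self_mem_EE u))) (h2 _ hmem))

end Pool.Agent.Lib.MP_021282_al
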