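import Mathlib

/-! # Pseudocentral groups: definitions and the final algebra -/

set_option autoImplicit false

namespace Pool.Agent.Lib.MP_021282_al

/-- the pseudocentre: the intersection over all `g` of the normal closures of the centralisers -/
def pseudocentre (G : Type*) [Group G] : Subgroup G :=
  ⨅ g : G, Subgroup.normalClosure ((Subgroup.centralizer {g} : Subgroup G) : Set G)

/-- `G` is pseudocentral -/
def IsPseudocentral (G : Type*) [Group G] : Prop := pseudocentre G = ⊤

/-- `G` is minimal non-pseudocentral -/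
def IsMinimalNonPseudocentral (G : Type*) [Group G] : Prop :=
  ¬ IsPseudocentral G ∧ ∀ H : Subgroup G, H ≠ ⊤ → IsPseudocentral H

/-- `G` is minimal non-abelian -/
def IsMinimalNonAbelian (G : Type*) [Group G] : Prop :=
  (¬ ∀ a b : G, a * b = b * a) ∧ ∀ H : Subgroup G, H ≠ ⊤ → ∀ a b : H, a * b = b * a

theorem isPseudocentral_iff (G : Type*) [Group G] : IsPseudocentral G ↔
    ∀ g : G, Subgroup.normalClosure ((Subgroup.centralizer {g} : Subgroup G) : Set G) = ⊤ := by
  unfold IsPseudocentral pseudocentre
  rw [iInf_eq_top]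

theorem isPseudocentral_of_comm {G : Type*} [Group G] (h : ∀ a b : G, a * b = b * a) :
    IsPseudocentral G := by
  rw [isPseudocentral_iff]
  intro g
  rw [eq_top_iff]
  intro x _
  apply Subgroup.subset_normalClosure
  show x ∈ Subgroup.centralizer {g}
  rw [Subgroup.mem_centralizer_singleton_iff]
  exact h _ _

/-- the group of order two -/
abbrev Z2 := Multiplicative (ZMod 2)

theorem z2_cases (c : Z2) : c = 1 ∨ c = Multiplicative.ofAdd 1 := by revert c; decide

theorem z2_eq {a b : Z2} (ha : a ≠ 1) (hb : b ≠ 1) : a = b := by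
  rcases z2_cases a with h | h
  · exact absurd h ha
  · rcases z2_cases b with h' | h'
    · exact absurd h' hb
    · rw [h, h']

section final

variable {Γ : Type*} [Group Γ] (ψ : Γ →* Z2)
  (hA : ∀ u w : Γ, ¬ Commute u w → ψ.ker ≤ Subgroup.closure {u, w})
  (hC : ∀ g z : Γ, Commute (g * z * g⁻¹) z → Commute g z)

include hA in
theorem ker_le_of_not_comm {S : Subgroup Γ} (h : ¬ ∀ a b : S, a * b = b * a) : ψ.ker ≤ S := by
  push Not at h
  obtain ⟨a, b, hab⟩ := h
  have h1 : ¬ Commute (a : Γ) (b : Γ) := by
    intro h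
    apply hab
    apply Subtype.ext
    exact h.eq
  refine (hA _ _ h1).trans ?_
  rw [Subgroup.closure_le]
  rintro x (rfl | rfl)
  · exact a.2
  · exact b.2

include hA hC in
/-- the kernel is pseudocentral -/
theorem ker_pseudocentral : IsPseudocentral ψ.ker := by
  rw [isPseudocentral_iff]
  intro g
  set M := Subgroup.normalClosure ((Subgroup.centralizer {g} : Subgroup ψ.ker) : Set ψ.ker) with hM
  have hMn : M.Normal := Subgroup.normalClosure_normal
  have hg : g ∈ M := Subgroup.subset_normalClosure
    (show g ∈ Subgroup.centralizer {g} from Subgroup.mem_centralizer_singleton_iff.2 rfl)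
  rw [eq_top_iff]
  intro n _
  by_cases hcomm : ∀ a b : M, a * b = b * a
  · apply Subgroup.subset_normalClosure
    show n ∈ Subgroup.centralizer {g}
    rw [Subgroup.mem_centralizer_singleton_iff]
    have h1 := hcomm ⟨n * g * n⁻¹, hMn.conj_mem _ hg n⟩ ⟨g, hg⟩
    have h2 : n * g * n⁻¹ * g = g * (n * g * n⁻¹) := congrArg Subtype.val h1
    have h3 : Commute ((n : Γ) * g * (n : Γ)⁻¹) g := congrArg Subtype.val h2
    have h4 := hC _ _ h3
    apply Subtype.ext
    exact h4.eq
  · push Not at hcomm
    obtain ⟨a, b, hab⟩ := hcomm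
    have h1 : ¬ Commute ((a : ψ.ker) : Γ) ((b : ψ.ker) : Γ) := by
      intro h
      apply hab
      apply Subtype.ext
      apply Subtype.ext
      exact h.eq
    have h2 : Subgroup.closure {((a : ψ.ker) : Γ), ((b : ψ.ker) : Γ)} ≤ M.map ψ.ker.subtype := by
      rw [Subgroup.closure_le]
      rintro x (rfl | rfl)
      · exact ⟨a, a.2, rfl⟩
      · exact ⟨b, b.2, rfl⟩
    obtain ⟨m, hm, hmn⟩ := h2 (hA _ _ h1 n.2)
    have h3 : m = n := Subtype.ext hmn
    rwa [h3] at hm

include hA hC in
/-- the final algebra -/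
theorem final_alg {x y : Γ} (hx : ∀ g : Γ, Commute g x → ψ g = 1) (hy : ψ y ≠ 1) :
    IsMinimalNonPseudocentral Γ ∧ ¬ IsMinimalNonAbelian Γ := by
  have hker : ψ.ker ≠ ⊤ := by
    intro h
    apply hy
    have : y ∈ ψ.ker := by rw [h]; trivial
    exact this
  refine ⟨⟨?_, ?_⟩, ?_⟩
  · rw [isPseudocentral_iff]
    intro h
    apply hker
    rw [eq_top_iff, ← h x]
    apply Subgroup.normalClosure_le_normal
    intro g hg
    have hg' : g ∈ Subgroup.centralizer {x} := hg
    rw [Subgroup.mem_centralizer_singleton_iff] at hg'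
    exact hx g hg'
  · intro S hS
    by_cases hcomm : ∀ a b : S, a * b = b * a
    · exact isPseudocentral_of_comm hcomm
    · have h1 := ker_le_of_not_comm ψ hA hcomm
      have h2 : S = ψ.ker := by
        apply le_antisymm _ h1
        intro s hs
        by_contra hs'
        apply hS
        rw [eq_top_iff]
        intro g _
        by_cases hg : ψ g = 1
        · exact h1 hg
        · have h3 : g * s⁻¹ ∈ ψ.ker := by
            rw [MonoidHom.mem_ker, map_mul, map_inv, z2_eq hg hs', mul_inv_cancel]
          have h4 := S.mul_mem (h1 h3) hs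
          rwa [inv_mul_cancel_right] at h4
      subst h2
      exact ker_pseudocentral ψ hA hC
  · rintro ⟨-, h⟩
    have h1 := h ψ.ker hker
    have hxk : x ∈ ψ.ker := hx x (Commute.refl x)
    have hyx : y * x * y⁻¹ ∈ ψ.ker := (MonoidHom.normal_ker ψ).conj_mem x hxk y
    have h2 := congrArg Subtype.val (h1 ⟨_, hyx⟩ ⟨x, hxk⟩)
    exact hy (hx y (hC y x h2))

end final

end Pool.Agent.Lib.MP_021282_al
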