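import Pool.Agent.Lib.MP_021282_al.Step
import Pool.Agent.Lib.MP_021282_al.FinalAlg
import Pool.Agent.Lib.MP_bd8d5e_al.BaseGroup

/-! # The base group and the direct limit -/

set_option autoImplicit false

namespace Pool.Agent.Lib.MP_021282_al

open Pool.Agent.Lib.MP_bd8d5e_al

/-- the free group of rank two -/
abbrev F2 := FreeGroup (Fin 2)

/-- the geodesic norm of the free group -/
def freeN : GNorm F2 where
  l := FreeGroup.norm
  l_one := FreeGroup.norm_one
  eq_one g hg := FreeGroup.norm_eq_zero.1 hg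
  l_inv g := FreeGroup.norm_inv_eq
  l_mul g h := FreeGroup.norm_mul_le g h
  geo g t ht := by
    refine ⟨FreeGroup.mk (g.toWord.take t), ?_, ?_⟩
    · have h2 : FreeGroup.IsReduced (g.toWord.take t) :=
        List.IsChain.take (FreeGroup.isReduced_toWord (x := g)) t
      rw [Base.norm_mk h2, List.length_take]
      exact min_eq_left ht
    · have h3 : (FreeGroup.mk (g.toWord.take t))⁻¹ * g = FreeGroup.mk (g.toWord.drop t) := by
        rw [inv_mul_eq_iff_eq_mul, FreeGroup.mul_mk, List.take_append_drop, FreeGroup.mk_toWord]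
      have h4 : FreeGroup.IsReduced (g.toWord.drop t) :=
        List.IsChain.drop (FreeGroup.isReduced_toWord (x := g)) t
      rw [h3, Base.norm_mk h4, List.length_drop]
      rfl

theorem freeN_FP : freeN.FP 0 := by
  intro x y z w
  exact Base.four x y z w

theorem freeN_fin : freeN.FinBalls := by
  intro r
  have h1 : {L : List (Fin 2 × Bool) | L.length ≤ r}.Finite := List.finite_length_le _ r
  refine (h1.image FreeGroup.mk).subset ?_
  intro g hg
  exact ⟨g.toWord, hg, FreeGroup.mk_toWord⟩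

theorem free_tf : TF F2 := by
  intro g hg
  obtain ⟨n, hn, h⟩ := isOfFinOrder_iff_pow_eq_one.1 hg
  have := pow_left_injective hn.ne' (M := F2) (a₁ := g) (a₂ := 1)
  exact this (by simpa using h)

/-- the homomorphism onto the group of order two -/
def φ : F2 →* Z2 := FreeGroup.lift (fun k => if k = 0 then 1 else Multiplicative.ofAdd 1)

/-- the two generators -/
def gx : F2 := FreeGroup.of 0

/-- the two generators -/
def gy : F2 := FreeGroup.of 1

theorem φ_gx : φ gx = 1 := by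
  unfold φ gx
  rw [FreeGroup.lift_apply_of, if_pos rfl]

theorem φ_gy : φ gy ≠ 1 := by
  unfold φ gy
  rw [FreeGroup.lift_apply_of, if_neg (by decide)]
  decide

theorem φ_sq (g : F2) : φ (g ^ 2) = 1 := by
  rw [map_pow, pow_two]
  have : ∀ c : Z2, c * c = 1 := by decide
  exact this _

/-- exponent sums -/
def ab (i : Fin 2) : F2 →* Multiplicative ℤ :=
  FreeGroup.lift (fun k => if k = i then Multiplicative.ofAdd 1 else 1)

/-- the map `φ` through the exponent sum of the second generator -/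
theorem φ_of_ab {g : F2} (h : ab 1 g = 1) : φ g = 1 := by
  let r : Multiplicative ℤ →* Z2 := (Int.castAddHom (ZMod 2)).toMultiplicative
  have h1 : φ = r.comp (ab 1) := by
    apply FreeGroup.ext_hom
    intro k
    rw [MonoidHom.comp_apply]
    unfold φ ab
    rw [FreeGroup.lift_apply_of, FreeGroup.lift_apply_of]
    fin_cases k
    · simp
    · show Multiplicative.ofAdd (1 : ZMod 2) = r (Multiplicative.ofAdd 1)
      simp [r]
  rw [h1, MonoidHom.comp_apply, h, map_one]

/-- the centraliser of the first generator lies in the kernel -/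
theorem cent_gx {g : F2} (h : Commute g gx) : φ g = 1 := by
  have hx : gx ≠ 1 := FreeGroup.of_ne_one 0
  obtain ⟨p, j, v0, m, hj, hl, hm, h1, h2⟩ := cyc_cent freeN_FP freeN_fin free_tf hx
  obtain ⟨a, ha⟩ := h2 _ (EE_conj' p hj (self_mem_EE gx))
  obtain ⟨b, hb⟩ := h2 _ (EE_conj' p hj (comm_mem_EE (n := 1) one_pos (by rwa [pow_one])))
  have hconj : ∀ (i : Fin 2) (q : F2), ab i (p⁻¹ * q * p) = ab i q := by
    intro i q
    rw [map_mul, map_mul, map_inv, mul_comm, ← mul_assoc, mul_inv_cancel, one_mul]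
  have a1 := congrArg (ab 1) ha
  have b1 := congrArg (ab 1) hb
  rw [hconj, map_zpow] at a1 b1
  have a2 : ab 1 gx = 1 := by
    unfold ab gx
    rw [FreeGroup.lift_apply_of, if_neg (by decide)]
  rw [a2] at a1
  have ha0 : a ≠ 0 := by
    rintro rfl
    rw [zpow_zero] at ha
    apply hx
    calc gx = p * (p⁻¹ * gx * p) * p⁻¹ := by group
      _ = 1 := by rw [ha]; group
  have hv : ab 1 v0 = 1 := by
    have h3 : a * (Multiplicative.toAdd (ab 1 v0)) = 0 := by
      have := congrArg Multiplicative.toAdd a1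
      rw [toAdd_zpow] at this
      simpa using this.symm
    rcases mul_eq_zero.1 h3 with h4 | h4
    · exact absurd h4 ha0
    · exact h4
  apply φ_of_ab
  rw [b1, hv, one_zpow]

/-- a stage of the construction -/
structure Stg where
  /-- the group -/
  G : Type
  grp : Group G
  /-- the quotient map -/
  π : F2 →* G
  surj : Function.Surjective π
  hyp : ∃ (N : GNorm G) (δ : ℕ), N.FP δ ∧ N.FinBalls
  tf : TF G
  ker : ∀ g, π g = 1 → φ g = 1
  cent : ∀ g, Commute (π g) (π gx) → φ g = 1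

attribute [instance] Stg.grp

/-- what the next stage does for the task `t` -/
def Handles (t : F2 × F2 × F2) (S T : Stg) : Prop :=
  (∀ g, S.π g = 1 → T.π g = 1) ∧
  (φ t.2.2 = 1 → Commute (T.π t.1) (T.π t.2.1) ∨
    ∃ z ∈ Subgroup.closure ({t.1, t.2.1} : Set F2), T.π z = T.π t.2.2)

theorem exists_handles (t : F2 × F2 × F2) (S : Stg) : ∃ T, Handles t S T := by
  obtain ⟨u, w, h⟩ := t
  by_cases hh : φ h = 1
  swap
  · exact ⟨S, fun _ h => h, fun h1 => absurd h1 hh⟩
  by_cases hc : Commute (S.π u) (S.π w)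
  · exact ⟨S, fun _ h => h, fun _ => Or.inl hc⟩
  obtain ⟨N, δ, hF, hfb⟩ := S.hyp
  have hc2 : ¬ Commute (S.π u ^ 2) (S.π w ^ 2) := fun h => hc (comm_of_comm_sq hF hfb S.tf h)
  have hx : S.π gx ≠ 1 := by
    intro hx
    apply φ_gy
    apply S.cent
    rw [hx]
    exact Commute.one_right _
  obtain ⟨K, hK, hQ, htor, hcent, ⟨z', hz', hzK⟩, hle⟩ := step hF hfb S.tf hc2 (S.π h) hx
  set K0 : Subgroup S.G := φ.ker.map S.π with hK0
  have hK0n : K0.Normal := (MonoidHom.normal_ker φ).map S.π S.surj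
  have hKK0 : K ≤ K0 := by
    apply hle K0 hK0n
    · exact ⟨u ^ 2, φ_sq u, map_pow _ _ _⟩
    · exact ⟨w ^ 2, φ_sq w, map_pow _ _ _⟩
    · exact ⟨h, hh, rfl⟩
  refine ⟨⟨S.G ⧸ K, inferInstance, (QuotientGroup.mk' K).comp S.π,
    (QuotientGroup.mk'_surjective K).comp S.surj, hQ, ?_, ?_, ?_⟩, ?_, ?_⟩
  · intro q hq
    obtain ⟨g, rfl⟩ := QuotientGroup.mk_surjective q
    obtain ⟨m, hm, h1⟩ := isOfFinOrder_iff_pow_eq_one.1 hq
    rw [← QuotientGroup.mk_pow, QuotientGroup.eq_one_iff] at h1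
    exact (QuotientGroup.eq_one_iff g).2 (htor g m hm.ne' h1)
  · intro g hg
    have h1 : S.π g ∈ K := (QuotientGroup.eq_one_iff _).1 hg
    obtain ⟨n, hn, h2⟩ := hKK0 h1
    have h3 := S.ker (n⁻¹ * g) (by rw [map_mul, map_inv, h2, inv_mul_cancel])
    have h4 : φ n = 1 := hn
    rwa [map_mul, map_inv, h4, inv_one, one_mul] at h3
  · intro g hg
    have h1 : ((S.π g * S.π gx * (S.π g)⁻¹ * (S.π gx)⁻¹ : S.G) : S.G ⧸ K) = 1 := by
      have h2 : ((S.π g : S.G) : S.G ⧸ K) * (S.π gx : S.G) = (S.π gx : S.G) * (S.π g : S.G) := hg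
      rw [QuotientGroup.mk_mul, QuotientGroup.mk_mul, QuotientGroup.mk_mul, h2,
        QuotientGroup.mk_inv, QuotientGroup.mk_inv, mul_inv_cancel_right, mul_inv_cancel]
    obtain ⟨ν, hν, h2⟩ := hcent _ ((QuotientGroup.eq_one_iff _).1 h1)
    obtain ⟨n, hn, rfl⟩ := hKK0 hν
    rw [← map_mul] at h2
    have h3 := S.cent _ h2
    have h4 : φ n = 1 := hn
    rwa [map_mul, h4, one_mul] at h3
  · intro g hg
    show ((S.π g : S.G) : S.G ⧸ K) = 1
    rw [hg]
    rfl
  · intro _
    right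
    have h1 : Subgroup.closure ({S.π u ^ 2, S.π w ^ 2} : Set S.G) ≤
        (Subgroup.closure ({u, w} : Set F2)).map S.π := by
      rw [Subgroup.closure_le]
      rintro y (rfl | rfl)
      · exact ⟨u ^ 2, Subgroup.pow_mem _ (Subgroup.subset_closure (by simp)) _, map_pow _ _ _⟩
      · exact ⟨w ^ 2, Subgroup.pow_mem _ (Subgroup.subset_closure (by simp)) _, map_pow _ _ _⟩
    obtain ⟨z, hz, rfl⟩ := h1 hz'
    refine ⟨z, hz, ?_⟩
    show ((S.π z : S.G) : S.G ⧸ K) = (S.π h : S.G)
    have h2 := (QuotientGroup.eq_one_iff _).2 hzK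
    rw [QuotientGroup.mk_mul, QuotientGroup.mk_inv] at h2
    exact mul_inv_eq_one.1 h2

/-- the first stage -/
def stg0 : Stg where
  G := F2
  grp := inferInstance
  π := MonoidHom.id F2
  surj := Function.surjective_id
  hyp := ⟨freeN, 0, freeN_FP, freeN_fin⟩
  tf := free_tf
  ker g hg := by
    have h1 : g = 1 := hg
    rw [h1, map_one]
  cent g hg := cent_gx hg

instance : Countable F2 := by
  have h1 : Function.Surjective (FreeGroup.mk : List (Fin 2 × Bool) → FreeGroup (Fin 2)) :=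
    Quot.mk_surjective
  exact h1.countable

/-- the sequence of stages -/
theorem exists_seq : ∃ S : ℕ → Stg, (∀ k l, k ≤ l → ∀ g, (S k).π g = 1 → (S l).π g = 1) ∧
    ∀ t : F2 × F2 × F2, ∃ k, Handles t (S k) (S (k + 1)) := by
  choose T hT using exists_handles
  obtain ⟨e, he⟩ := exists_surjective_nat (F2 × F2 × F2)
  let S : ℕ → Stg := fun k => Nat.rec stg0 (fun k s => T (e k) s) k
  have hS : ∀ k, Handles (e k) (S k) (S (k + 1)) := fun k => hT _ _
  refine ⟨S, ?_, ?_⟩
  · intro k l hkl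
    induction hkl with
    | refl => exact fun _ h => h
    | step _ ih => exact fun g hg => (hS _).1 g (ih g hg)
  · intro t
    obtain ⟨k, hk⟩ := he t
    refine ⟨k, ?_⟩
    rw [← hk]
    exact hS k

/-- the kernel of the limit -/
def limK (S : ℕ → Stg) (hS : ∀ k l, k ≤ l → ∀ g, (S k).π g = 1 → (S l).π g = 1) :
    Subgroup F2 where
  carrier := {x | ∃ k, (S k).π x = 1}
  one_mem' := ⟨0, map_one _⟩
  mul_mem' := by
    rintro a b ⟨k, hk⟩ ⟨l, hl⟩
    refine ⟨max k l, ?_⟩
    rw [map_mul, hS k _ (le_max_left _ _) a hk, hS l _ (le_max_right _ _) b hl, one_mul]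
  inv_mem' := by
    rintro a ⟨k, hk⟩
    exact ⟨k, by rw [map_inv, hk, inv_one]⟩

/-- the existence theorem -/
theorem exists_group : ∃ (G : Type) (_ : Group G), Group.FG G ∧ TF G ∧
    IsMinimalNonPseudocentral G ∧ ¬ IsMinimalNonAbelian G := by
  obtain ⟨S, hS, hH⟩ := exists_seq
  set K := limK S hS with hK
  have hKn : K.Normal := by
    constructor
    rintro a ⟨k, hk⟩ g
    exact ⟨k, by rw [map_mul, map_mul, hk, mul_one, map_inv, mul_inv_cancel]⟩
  have hmem : ∀ g : F2, g ∈ K ↔ ∃ k, (S k).π g = 1 := fun g => Iff.rfl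
  have hφK : K ≤ φ.ker := by
    rintro g ⟨k, hk⟩
    exact (S k).ker g hk
  -- commuting elements
  have hcom : ∀ g g' : F2, Commute (g : F2 ⧸ K) (g' : F2 ⧸ K) ↔
      ∃ k, Commute ((S k).π g) ((S k).π g') := by
    intro g g'
    have h1 : Commute (g : F2 ⧸ K) (g' : F2 ⧸ K) ↔ g * g' * (g' * g)⁻¹ ∈ K := by
      rw [← QuotientGroup.eq_one_iff, QuotientGroup.mk_mul, QuotientGroup.mk_inv,
        mul_inv_eq_one, QuotientGroup.mk_mul, QuotientGroup.mk_mul]
      exact Iff.rfl
    rw [h1, hmem]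
    constructor
    · rintro ⟨k, hk⟩
      refine ⟨k, ?_⟩
      rw [map_mul, map_inv, mul_inv_eq_one, map_mul, map_mul] at hk
      exact hk
    · rintro ⟨k, hk⟩
      refine ⟨k, ?_⟩
      rw [map_mul, map_inv, mul_inv_eq_one, map_mul, map_mul]
      exact hk
  let ψ : F2 ⧸ K →* Z2 := QuotientGroup.lift K φ (fun g hg => hφK hg)
  have hψ : ∀ g : F2, ψ (g : F2 ⧸ K) = φ g := fun g => QuotientGroup.lift_mk _ _ _
  refine ⟨F2 ⧸ K, inferInstance, ?_, ?_, ?_⟩
  · exact Group.fg_of_surjective (QuotientGroup.mk'_surjective K)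
  · intro q hq
    obtain ⟨g, rfl⟩ := QuotientGroup.mk_surjective q
    obtain ⟨m, hm, h1⟩ := isOfFinOrder_iff_pow_eq_one.1 hq
    rw [← QuotientGroup.mk_pow, QuotientGroup.eq_one_iff] at h1
    obtain ⟨k, hk⟩ := h1
    rw [QuotientGroup.eq_one_iff]
    refine ⟨k, (S k).tf _ (isOfFinOrder_iff_pow_eq_one.2 ⟨m, hm, ?_⟩)⟩
    rw [← map_pow]
    exact hk
  · refine final_alg ψ ?_ ?_ (x := (gx : F2 ⧸ K)) (y := (gy : F2 ⧸ K)) ?_ ?_
    · intro u w huw
      obtain ⟨u, rfl⟩ := QuotientGroup.mk_surjective u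
      obtain ⟨w, rfl⟩ := QuotientGroup.mk_surjective w
      intro q hq
      obtain ⟨h, rfl⟩ := QuotientGroup.mk_surjective q
      have hh : φ h = 1 := by
        rw [← hψ]
        exact hq
      obtain ⟨k, -, hk⟩ := hH (u, w, h)
      rcases hk hh with h1 | ⟨z, hz, h1⟩
      · exact absurd ((hcom _ _).2 ⟨k + 1, h1⟩) huw
      · have h2 : (z : F2 ⧸ K) = (h : F2 ⧸ K) := by
          rw [← mul_inv_eq_one, ← QuotientGroup.mk_inv, ← QuotientGroup.mk_mul,
            QuotientGroup.eq_one_iff]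
          exact ⟨k + 1, by rw [map_mul, map_inv, h1, mul_inv_cancel]⟩
        have h3 : Subgroup.closure ({u, w} : Set F2) ≤
            (Subgroup.closure ({(u : F2 ⧸ K), (w : F2 ⧸ K)} : Set (F2 ⧸ K))).comap
              (QuotientGroup.mk' K) := by
          rw [Subgroup.closure_le]
          rintro y (rfl | rfl)
          · exact Subgroup.subset_closure (by simp)
          · exact Subgroup.subset_closure (by simp)
        rw [← h2]
        exact h3 hz
    · intro g z h
      obtain ⟨g, rfl⟩ := QuotientGroup.mk_surjective g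
      obtain ⟨z, rfl⟩ := QuotientGroup.mk_surjective z
      have h1 : Commute ((g * z * g⁻¹ : F2) : F2 ⧸ K) (z : F2 ⧸ K) := h
      obtain ⟨k, hk⟩ := (hcom _ _).1 h1
      rw [map_mul, map_mul, map_inv] at hk
      obtain ⟨N, δ, hF, hfb⟩ := (S k).hyp
      exact (hcom _ _).2 ⟨k, comm_of_comm_conj hF hfb (S k).tf hk⟩
    · intro g h
      obtain ⟨g, rfl⟩ := QuotientGroup.mk_surjective g
      obtain ⟨k, hk⟩ := (hcom _ _).1 h
      rw [hψ]
      exact (S k).cent g hk
    · rw [hψ]
      exact φ_gy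

end Pool.Agent.Lib.MP_021282_al
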