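import Pool.Agent.Lib.MP_021282_al.ChainB
import Pool.Agent.Lib.MP_021282_al.ALift

/-! # Periodic chains of cosets: the axis of a word -/

set_option autoImplicit false

namespace Pool.Agent.Lib.MP_021282_al

open Pool.Agent.Lib.MP_bd8d5e_al

variable {G : Type*} [Group G] {N : GNorm G} {E : Subgroup G} {H B Λ M : ℕ} {v : G}
  {e f : ℤ → G}

/-- a periodic chain with period `M` and translation `v` -/
structure PChain (N : GNorm G) (E : Subgroup G) (H B Λ M : ℕ) (v : G) (e f : ℤ → G) : Prop where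
  ch : Chain N E H B e f
  per_e : ∀ k, e (k + M) = v * e k
  per_f : ∀ k, f (k + M) = v * f k
  side_le : ∀ k, N.d (e k) (e (k + 1)) ≤ Λ
  sep : ∀ i j, N.d (e i) (f i) ≤ N.d (e j) (f j) + 20 * H →
    N.d (e j) (f j) ≤ N.d (e i) (f i) + 20 * H → (M : ℤ) ∣ i - j
  three : 3 ≤ M

namespace PChain

theorem per_nat (h : PChain N E H B Λ M v e f) (n : ℕ) (k : ℤ) :
    e (k + n * M) = v ^ n * e k := by
  induction n with
  | zero => simp
  | succ n ih =>
    have e1 : k + ((n + 1 : ℕ) : ℤ) * M = (k + n * M) + M := by push_cast; ring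
    rw [e1, h.per_e, ih, pow_succ', mul_assoc]

theorem per_z (h : PChain N E H B Λ M v e f) (q k : ℤ) : e (k + q * M) = v ^ q * e k := by
  obtain ⟨n, rfl | rfl⟩ := Int.eq_nat_or_neg q
  · rw [h.per_nat, zpow_natCast]
  · have h1 := h.per_nat n (k + -(n : ℤ) * M)
    have e1 : k + -(n : ℤ) * M + n * M = k := by ring
    rw [e1] at h1
    rw [h1, zpow_neg, zpow_natCast, inv_mul_cancel_left]

/-- translates of points of the axis -/
theorem btw_z (h : PChain N E H B Λ M v e f) (q : ℤ) {k : ℤ} {x : G}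
    (hx : N.Btw (e k) x (e (k + 1))) :
    N.Btw (e (k + q * M)) (v ^ q * x) (e (k + q * M + 1)) := by
  have e1 : k + q * M + 1 = (k + 1) + q * M := by ring
  rw [e1, h.per_z, h.per_z]
  unfold GNorm.Btw at hx ⊢
  rw [N.d_left, N.d_left, N.d_left]
  exact hx

theorem axis_inv (h : PChain N E H B Λ M v e f) :
    ∀ r ∈ Subgroup.zpowers v, ∀ a ∈ axis N e, r * a ∈ axis N e := by
  rintro r hr a ⟨k, hk⟩
  obtain ⟨q, rfl⟩ := Subgroup.mem_zpowers_iff.1 hr
  exact ⟨k + q * M, h.btw_z q hk⟩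

theorem axis_ne : (axis N e).Nonempty :=
  ⟨e 0, 0, by unfold GNorm.Btw; rw [N.d_self]; omega⟩

theorem mem_axis_e (k : ℤ) : e k ∈ axis N e :=
  ⟨k, by unfold GNorm.Btw; rw [N.d_self]; omega⟩

theorem btw_e (k : ℤ) : N.Btw (e k) (e k) (e (k + 1)) := by
  unfold GNorm.Btw; rw [N.d_self]; omega

theorem dist_le (h : PChain N E H B Λ M v e f) (n : ℕ) (k : ℤ) : N.d (e k) (e (k + n)) ≤ n * Λ := by
  induction n with
  | zero => simp
  | succ n ih =>
    have e1 : k + ((n + 1 : ℕ) : ℤ) = k + n + 1 := by push_cast; ring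
    have h1 := h.side_le (k + n)
    have t := N.d_tri (e k) (e (k + n)) (e (k + n + 1))
    rw [e1, Nat.succ_mul]
    omega

/-- distance between two points of the axis -/
theorem dist_le' (h : PChain N E H B Λ M v e f) {k l : ℤ} (hkl : k ≤ l) {x y : G}
    (hx : N.Btw (e k) x (e (k + 1))) (hy : N.Btw (e l) y (e (l + 1))) :
    N.d x y ≤ ((l - k).toNat + 2) * Λ := by
  have h1 := h.dist_le (l - k).toNat k
  have e1 : k + ((l - k).toNat : ℤ) = l := by omega
  rw [e1] at h1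
  unfold GNorm.Btw at hx hy
  have h2 := h.side_le k
  have h3 := h.side_le l
  have t1 := N.d_tri x (e k) y
  have t2 := N.d_tri (e k) (e l) y
  have c1 := N.d_comm x (e k)
  have e2 : ((l - k).toNat + 2) * Λ = (l - k).toNat * Λ + 2 * Λ := by ring
  omega

/-- if two points project far apart on the axis then the cosets in between are cosets of the
other chain -/
theorem match_one (P : PF N (E : Set G) E H) (h : PChain N E H B Λ M v e f) (hH : 1 ≤ H)
    (hB : 1400 * H < B) {e' f' : ℤ → G} (h' : Chain N E H B e' f') {z z' p p' : G}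
    (hz : z ∈ axis N e') (hz' : z' ∈ axis N e') {k l j : ℤ}
    (hp : N.Btw (e k) p (e (k + 1))) (hp' : N.Btw (e l) p' (e (l + 1)))
    (hmin : ∀ y ∈ axis N e, N.d z p ≤ N.d z y) (hmin' : ∀ y ∈ axis N e, N.d z' p' ≤ N.d z' y)
    (hfar : 600 * H < N.d p p') (hkj : k < j) (hjl : j < l) :
    ∃ i, (e' i : G ⧸ E) = (e j : G ⧸ E) := by
  by_contra hcon
  push Not at hcon
  have hqc := h.ch.qca P (by omega)
  have a1 := GNorm.proj_two P.fp (Y := axis N e) (cq := 234 * H) (x := z) (y := z') (p := p)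
    (q := p') (fun p hp q hq r hr => hqc p hp q hq r (by unfold GNorm.Btw; exact hr)) ⟨k, hp⟩ hmin
    ⟨l, hp'⟩ hmin' (by omega)
  have o1 := h.ch.ord3 P (by omega) hp (btw_e (N := N) (e := e) j) hp' (Or.inl hkj) (Or.inl hjl)
  have o2 := h.ch.ord3 P (by omega) (btw_e (N := N) (e := e) j)
    (btw_e (N := N) (e := e) (j + 1)) hp' (Or.inl (by omega))
    (by
      rcases eq_or_lt_of_le (show j + 1 ≤ l by omega) with h1 | h1
      · right
        refine ⟨h1, ?_⟩
        rw [N.d_self]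
        omega
      · exact Or.inl h1)
  have o3 := h.ch.f_btw j
  have o4 := h.ch.long j
  obtain ⟨y1, hy1⟩ := exists_nearestA (N := N) P.ne (e j : G ⧸ E) z
  obtain ⟨y2, hy2⟩ := exists_nearestA (N := N) P.ne (e j : G ⧸ E) z'
  have b1 := h'.big P (by omega) (fun i h => hcon i h.symm) hz hz' hy1 hy2
  have b2 := P.near_btw _ _ _ _ hy1 (h.ch.mem_e j)
  have b3 := P.near_btw _ _ _ _ hy2 (h.ch.mem_f j)
  have t1 := N.d_tri z p (e j)
  have t2 := N.d_tri z' p' (f j)
  have t3 := N.d_tri (f j) (e (j + 1)) p'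
  have t4 := N.d_tri z y1 z'
  have t5 := N.d_tri y1 y2 z'
  have c1 := N.d_comm p' z'
  have c2 := N.d_comm y2 z'
  have c3 := N.d_comm p' (f j)
  omega

/-- projections of translates of the axis are small: ordered case -/
theorem proj_aux (P : PF N (E : Set G) E H) (h : PChain N E H B Λ M v e f) (hH : 1 ≤ H)
    (hB : 1400 * H < B) (hfb : N.FinBalls) (htf : ∀ g : G, IsOfFinOrder g → g = 1) {g : G}
    (hg : g ∉ Subgroup.zpowers v) {z z' p p' : G} (hz : g⁻¹ * z ∈ axis N e)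
    (hz' : g⁻¹ * z' ∈ axis N e) {k l : ℤ}
    (hp : N.Btw (e k) p (e (k + 1))) (hp' : N.Btw (e l) p' (e (l + 1)))
    (hmin : ∀ y ∈ axis N e, N.d z p ≤ N.d z y) (hmin' : ∀ y ∈ axis N e, N.d z' p' ≤ N.d z' y)
    (ho : Ord N e k p l p') : N.d p p' ≤ 12 * Λ := by
  by_contra hfar
  have hkl : k ≤ l := by rcases ho with h | h <;> omega
  have hd := h.dist_le' hkl hp hp'
  have hl : k + 5 ≤ l := by
    by_contra hcon
    have h1 : (l - k).toNat + 2 ≤ 12 := by omega
    have h2 : ((l - k).toNat + 2) * Λ ≤ 12 * Λ := Nat.mul_le_mul_right _ h1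
    omega
  have hΛ : B ≤ Λ + H := by
    have h1 := h.ch.side 0
    have h2 := h.side_le 0
    omega
  have h' := h.ch.smul g
  have hmem : ∀ {z : G}, g⁻¹ * z ∈ axis N e → z ∈ axis N (fun k => g * e k) := by
    rintro z ⟨i, hi⟩
    refine ⟨i, ?_⟩
    unfold GNorm.Btw at hi ⊢
    have e1 : N.d (g * e i) z = N.d (e i) (g⁻¹ * z) := by
      rw [← N.d_left g (e i), mul_inv_cancel_left]
    have e2 : N.d z (g * e (i + 1)) = N.d (g⁻¹ * z) (e (i + 1)) := by
      rw [← N.d_left g (g⁻¹ * z), mul_inv_cancel_left]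
    rw [e1, e2, N.d_left]
    exact hi
  have hm : ∀ j, k < j → j < l → ∃ i, ((g * e i : G) : G ⧸ E) = (e j : G ⧸ E) := fun j h1 h2 =>
    h.match_one P hH hB h' (hmem hz) (hmem hz') hp hp' hmin hmin' (by omega) h1 h2
  obtain ⟨a, ha⟩ := hm (k + 1) (by omega) (by omega)
  obtain ⟨b, hb⟩ := hm (k + 1 + 1) (by omega) (by omega)
  obtain ⟨c, hc⟩ := hm (k + 1 + 1 + 1) (by omega) (by omega)
  obtain ⟨d, hd⟩ := hm (k + 1 + 1 + 1 + 1) (by omega) (by omega)
  obtain ⟨m1, m2, m3⟩ := h.ch.adj3 P h' (by omega) (a := a) (b := b) (c := c) (j := k + 1) ha hb hc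
  obtain ⟨n1, n2, n3⟩ := h.ch.adj3 P h' (by omega) (a := b) (b := c) (c := d) (j := k + 1 + 1) hb hc
    hd
  have m2' : N.d (g * e b) (g * f b) ≤ N.d (e (k + 1 + 1)) (f (k + 1 + 1)) + 20 * H := m2
  have m3' : N.d (e (k + 1 + 1)) (f (k + 1 + 1)) ≤ N.d (g * e b) (g * f b) + 20 * H := m3
  have n2' : N.d (g * e c) (g * f c) ≤ N.d (e (k + 1 + 1 + 1)) (f (k + 1 + 1 + 1)) + 20 * H := n2
  have n3' : N.d (e (k + 1 + 1 + 1)) (f (k + 1 + 1 + 1)) ≤ N.d (g * e c) (g * f c) + 20 * H := n3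
  rw [N.d_left] at m2' m3' n2' n3'
  obtain ⟨q, hq⟩ := h.sep b (k + 1 + 1) m2' m3'
  obtain ⟨q', hq'⟩ := h.sep c (k + 1 + 1 + 1) n2' n3'
  have hM := h.three
  rcases m1 with ⟨m1, m1'⟩ | ⟨m1, m1'⟩
  · -- same orientation
    have hb2 : b = k + 1 + 1 + q * M := by rw [mul_comm]; omega
    have hc2 : c = k + 1 + 1 + 1 + q * M := by omega
    rw [hb2, h.per_z, ← mul_assoc] at hb
    rw [hc2, h.per_z, ← mul_assoc] at hc
    have h1 : g * v ^ q = 1 := P.fix_two hfb htf (c := (e (k + 1 + 1) : G ⧸ E))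
      (c' := (e (k + 1 + 1 + 1) : G ⧸ E)) (h.ch.next (k + 1 + 1)).symm hb hc
    apply hg
    have h2 : g = (v ^ q)⁻¹ := eq_inv_of_mul_eq_one_left h1
    rw [h2]
    exact inv_mem (Subgroup.mem_zpowers_iff.2 ⟨q, rfl⟩)
  · -- reversed orientation
    have h1 : (M : ℤ) * (q - q') = 2 := by
      have : (M : ℤ) * (q - q') = M * q - M * q' := by ring
      omega
    have h2 : (M : ℤ) ∣ 2 := ⟨_, h1.symm⟩
    have h3 := Int.le_of_dvd (by norm_num) h2
    omega

/-- projections of translates of the axis are small -/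
theorem proj (P : PF N (E : Set G) E H) (h : PChain N E H B Λ M v e f) (hH : 1 ≤ H)
    (hB : 1400 * H < B) (hfb : N.FinBalls) (htf : ∀ g : G, IsOfFinOrder g → g = 1) :
    BProjA N (axis N e) (Subgroup.zpowers v) (12 * Λ) := by
  intro c c' hne z z' p p' hz hz' hp hp'
  obtain ⟨g0, rfl⟩ := QuotientGroup.mk_surjective c
  obtain ⟨g1, rfl⟩ := QuotientGroup.mk_surjective c'
  have hinv := h.axis_inv
  have hg : g0⁻¹ * g1 ∉ Subgroup.zpowers v := fun hmem => hne (QuotientGroup.eq.2 hmem)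
  rw [mem_ax hinv] at hz hz'
  have hpm := (mem_ax hinv).1 hp.1
  have hpm' := (mem_ax hinv).1 hp'.1
  have hmin : ∀ {z p : G}, NearA N (axis N e) (Subgroup.zpowers v)
      (g0 : G ⧸ Subgroup.zpowers v) z p → ∀ y ∈ axis N e, N.d (g0⁻¹ * z) (g0⁻¹ * p) ≤
      N.d (g0⁻¹ * z) y := by
    intro z p hp y hy
    have h1 := hp.2 (g0 * y) ((mem_ax hinv).2 (by rw [inv_mul_cancel_left]; exact hy))
    rw [N.d_left]
    have e1 : N.d (g0⁻¹ * z) y = N.d z (g0 * y) := by
      rw [← N.d_left g0 (g0⁻¹ * z), mul_inv_cancel_left]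
    rw [e1]
    exact h1
  obtain ⟨k, hk⟩ := hpm
  obtain ⟨l, hl⟩ := hpm'
  have hzz : ∀ {z : G}, g1⁻¹ * z ∈ axis N e → (g0⁻¹ * g1)⁻¹ * (g0⁻¹ * z) ∈ axis N e := by
    intro z hz
    have e1 : (g0⁻¹ * g1)⁻¹ * (g0⁻¹ * z) = g1⁻¹ * z := by group
    rwa [e1]
  rcases ord_total (N := N) (e := e) k (g0⁻¹ * p) l (g0⁻¹ * p') with ho | ho
  · have := h.proj_aux P hH hB hfb htf hg (hzz hz) (hzz hz') hk hl (hmin hp) (hmin hp') ho
    rwa [N.d_left] at this
  · have := h.proj_aux P hH hB hfb htf hg (hzz hz') (hzz hz) hl hk (hmin hp') (hmin hp) ho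
    rw [N.d_left, N.d_comm] at this
    exact this

/-- the family of translates of the axis -/
theorem axS (P : PF N (E : Set G) E H) (h : PChain N E H B Λ M v e f) (hH : 1 ≤ H)
    (hB : 1400 * H < B) (hfb : N.FinBalls) (htf : ∀ g : G, IsOfFinOrder g → g = 1) :
    AxS N (axis N e) (Subgroup.zpowers v) H (234 * H) (12 * Λ) :=
  ⟨axis_ne, h.axis_inv, P.fp, h.ch.qca P (by omega), h.proj P hH hB hfb htf⟩

/-! ### Displacement -/

/-- displacement of `v` on the axis -/
theorem disp_aux (P : PF N (E : Set G) E H) (h : PChain N E H B Λ M v e f) (hB : 11 * H < B)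
    {k : ℤ} (hk : 0 ≤ k) (hk' : k < M) {y : G} (hy : N.Btw (e k) y (e (k + 1))) :
    N.d y (v * y) ≤ N.d (e 0) (e M) + 85 * H ∧ N.d (e 0) (e M) ≤ N.d y (v * y) + 170 * H := by
  have h1 := h.ch.pp P hB hk (show k + 1 ≤ M by omega) hy hy (Or.inr ⟨rfl, le_refl _⟩)
  rw [N.d_self] at h1
  have h2 := h.btw_z 1 hy
  rw [zpow_one, one_mul] at h2
  have hM := h.three
  have o := h.ch.ord3 P hB hy (btw_e (N := N) (e := e) M) h2 (Or.inl hk')
    (by
      rcases eq_or_lt_of_le hk with h3 | h3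
      · right
        refine ⟨by omega, ?_⟩
        rw [N.d_self]
        omega
      · exact Or.inl (by omega))
  have e1 : e M = v * e 0 := by
    have := h.per_e 0
    rwa [zero_add] at this
  have e2 : N.d (e M) (v * y) = N.d (e 0) y := by rw [e1, N.d_left]
  have t1 := N.d_tri y (e M) (v * y)
  have t2 := N.d_tri (e 0) y (e M)
  omega

theorem disp (P : PF N (E : Set G) E H) (h : PChain N E H B Λ M v e f) (hB : 11 * H < B)
    {y : G} (hy : y ∈ axis N e) :
    N.d y (v * y) ≤ N.d (e 0) (e M) + 85 * H ∧ N.d (e 0) (e M) ≤ N.d y (v * y) + 170 * H := by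
  obtain ⟨k, hk⟩ := hy
  have hM := h.three
  have h0 : (0 : ℤ) < M := by omega
  set q := k / M with hq
  have h1 : k + (-q) * M = k % M := by
    have := Int.emod_add_mul_ediv k M
    rw [← hq] at this
    have e1 : k + (-q) * M = k - M * q := by ring
    omega
  have h2 := h.btw_z (-q) hk
  have h3 := h.disp_aux P hB (k := k + (-q) * M) (by rw [h1]; exact Int.emod_nonneg _ (by omega))
    (by rw [h1]; exact Int.emod_lt_of_pos _ h0) h2
  have e1 : N.d (v ^ (-q) * y) (v * (v ^ (-q) * y)) = N.d y (v * y) := by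
    have e2 : v * (v ^ (-q) * y) = v ^ (-q) * (v * y) := by
      rw [← mul_assoc, ← mul_assoc]
      congr 1
      exact ((Commute.refl v).zpow_right (-q)).eq
    rw [e2, N.d_left]
  rwa [e1] at h3

/-- displacement of powers of `v` -/
theorem disp_pow (P : PF N (E : Set G) E H) (h : PChain N E H B Λ M v e f) (hB : 11 * H < B)
    {r : G} (hr : r ∈ Subgroup.zpowers v) (h1 : r ≠ 1) {y : G} (hy : y ∈ axis N e) :
    N.d (e 0) (e M) ≤ N.d y (r * y) + 340 * H := by
  have key : ∀ n : ℕ, 0 < n → ∀ y ∈ axis N e, N.d (e 0) (e M) ≤ N.d y (v ^ n * y) + 340 * H := by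
    intro n hn y hy
    have h2 := (h.disp P hB hy).2
    rcases eq_or_lt_of_le (show 1 ≤ n by omega) with h3 | h3
    · rw [← h3, pow_one]
      omega
    · obtain ⟨k, hk⟩ := hy
      have hM := h.three
      have b1 := h.btw_z 1 hk
      have b2 := h.btw_z n hk
      rw [zpow_one, one_mul] at b1
      rw [zpow_natCast] at b2
      have h4 : (M : ℤ) < n * M := by
        have : (1 : ℤ) < n := by exact_mod_cast h3
        nlinarith
      have o := h.ch.ord3 P hB hk b1 b2 (Or.inl (by omega)) (Or.inl (by omega))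
      omega
  obtain ⟨q, rfl⟩ := Subgroup.mem_zpowers_iff.1 hr
  obtain ⟨n, rfl | rfl⟩ := Int.eq_nat_or_neg q
  · rw [zpow_natCast] at h1 ⊢
    apply key n _ y hy
    rcases Nat.eq_zero_or_pos n with h2 | h2
    · rw [h2, pow_zero] at h1
      exact absurd rfl h1
    · exact h2
  · rw [zpow_neg, zpow_natCast] at h1 ⊢
    have h3 : N.d y ((v ^ n)⁻¹ * y) = N.d y (v ^ n * y) := by
      rw [← N.d_left (v ^ n) y, mul_inv_cancel_left, N.d_comm]
    rw [h3]
    apply key n _ y hy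
    rcases Nat.eq_zero_or_pos n with h2 | h2
    · rw [h2, pow_zero, inv_one] at h1
      exact absurd rfl h1
    · exact h2

/-- rotation along the axis -/
theorem rot (P : PF N (E : Set G) E H) (h : PChain N E H B Λ M v e f) (hB : 11 * H < B)
    {C L s : ℕ} (hC : 119 * H ≤ C) (hL : L + 340 * H = N.d (e 0) (e M)) (hL0 : 0 < L) {y y' : G}
    (hy : y ∈ axis N e) (hy' : y' ∈ axis N e) (hs : s + 5 * C ≤ L)
    (hfar : L + s + 5 * C ≤ 2 * N.d y y') :
    ∃ r ∈ Subgroup.zpowers v, N.d y (r * y') + s ≤ N.d y y' := by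
  have hd := h.disp P hB hy'
  have hd' := h.disp_pow P hB (Subgroup.mem_zpowers v) (by
    intro h1
    have h2 := (h.disp P hB hy').2
    rw [h1, one_mul, N.d_self] at h2
    omega) hy'
  obtain ⟨k, hk⟩ := hy
  obtain ⟨l, hl⟩ := hy'
  have hM := h.three
  have e0 : N.d (v⁻¹ * y') y' = N.d y' (v * y') := by
    rw [← N.d_left v (v⁻¹ * y'), mul_inv_cancel_left]
  rcases ord_total (N := N) (e := e) k y l y' with ho | ho
  · refine ⟨v⁻¹, inv_mem (Subgroup.mem_zpowers v), ?_⟩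
    have b := h.btw_z (-1) hl
    rw [zpow_neg_one] at b
    rcases ord_total (N := N) (e := e) k y (l + -1 * M) (v⁻¹ * y') with ho' | ho'
    · have o := h.ch.ord3 P hB hk b hl ho' (Or.inl (by omega))
      omega
    · have o := h.ch.ord3 P hB b hk hl ho' ho
      have c := N.d_comm (v⁻¹ * y') y
      omega
  · refine ⟨v, Subgroup.mem_zpowers v, ?_⟩
    have b := h.btw_z 1 hl
    rw [zpow_one] at b
    rcases ord_total (N := N) (e := e) k y (l + 1 * M) (v * y') with ho' | ho'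
    · have o := h.ch.ord3 P hB hl hk b ho ho'
      have c := N.d_comm y' y
      omega
    · have o := h.ch.ord3 P hB hl b hk (Or.inl (by omega)) ho'
      have c := N.d_comm y' y
      have c' := N.d_comm (v * y') y
      omega

/-- lower bound for the translation length -/
theorem long_v (P : PF N (E : Set G) E H) (h : PChain N E H B Λ M v e f) (hB : 22 * H < B) :
    M * (B - 22 * H) ≤ N.d (e 0) (e M) := by
  have key : ∀ n : ℕ, n * (B - 22 * H) ≤ N.d (e 0) (e n) := by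
    intro n
    induction n with
    | zero => simp
    | succ n ih =>
      have h1 := h.ch.tri_lt P (by omega) (show (0 : ℤ) ≤ n by omega)
        (show (n : ℤ) ≤ n + 1 by omega)
      have h2 := h.ch.side n
      have e1 : ((n + 1 : ℕ) : ℤ) = n + 1 := by push_cast; ring
      rw [e1, Nat.succ_mul]
      omega
  exact key M

/-- the axis is covered by finitely many orbits -/
theorem cover (h : PChain N E H B Λ M v e f) (hfb : N.FinBalls) :
    ∃ F : Set G, F.Finite ∧ ∀ a ∈ axis N e, ∃ r ∈ Subgroup.zpowers v, ∃ x ∈ F, a = r * x := by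
  have hM := h.three
  refine ⟨{x | N.l x ≤ N.l (e 0) + M * Λ + Λ}, hfb _, ?_⟩
  rintro a ⟨k, hk⟩
  set q := k / M with hq
  have h1 : k + (-q) * M = k % M := by
    have := Int.emod_add_mul_ediv k M
    rw [← hq] at this
    have e1 : k + (-q) * M = k - M * q := by ring
    omega
  have h2 := h.btw_z (-q) hk
  rw [h1] at h2
  have h3 : 0 ≤ k % M := Int.emod_nonneg _ (by omega)
  have h4 : k % M < M := Int.emod_lt_of_pos _ (by omega)
  refine ⟨v ^ q, Subgroup.mem_zpowers_iff.2 ⟨q, rfl⟩, v ^ (-q) * a, ?_, ?_⟩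
  · have h5 := h.dist_le (k % M).toNat 0
    have e1 : (0 : ℤ) + ((k % M).toNat : ℤ) = k % M := by omega
    rw [e1] at h5
    have h6 : (k % M).toNat * Λ ≤ M * Λ := Nat.mul_le_mul_right _ (by omega)
    have h7 := h.side_le (k % M)
    unfold GNorm.Btw at h2
    have t1 := N.d_tri 1 (e 0) (v ^ (-q) * a)
    have t2 := N.d_tri (e 0) (e (k % M)) (v ^ (-q) * a)
    rw [N.d_one, N.d_one] at t1
    show N.l (v ^ (-q) * a) ≤ _
    omega
  · rw [zpow_neg, mul_inv_cancel_left]

end PChain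

end Pool.Agent.Lib.MP_021282_al
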