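import Pool.Agent.Lib.MP_021282_al.ABgi
import Pool.Agent.Lib.MP_bd8d5e_al.Tools
import Pool.Agent.Lib.MP_bd8d5e_al.EProj

/-! # Projection families: the coarse properties of nearest points with one constant -/

set_option autoImplicit false

namespace Pool.Agent.Lib.MP_021282_al

open Pool.Agent.Lib.MP_bd8d5e_al

theorem fp_mono {G : Type*} [Group G] {N : GNorm G} {δ δ' : ℕ} (h : N.FP δ) (hd : δ ≤ δ') :
    N.FP δ' := by
  intro x y z w
  have := h x y z w
  omega

/-- the coarse properties of the nearest point projections to the translates of `A` -/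
structure PF {G : Type*} [Group G] (N : GNorm G) (A : Set G) (E : Subgroup G) (H : ℕ) : Prop where
  ne : A.Nonempty
  inv : ∀ e ∈ E, ∀ a ∈ A, e * a ∈ A
  fp : N.FP H
  near_btw : ∀ (c : G ⧸ E) (x p y : G), NearA N A E c x p → y ∈ ax A E c →
    N.d x p + N.d p y ≤ N.d x y + H
  near_two : ∀ (c : G ⧸ E) (x y p q : G), NearA N A E c x p → NearA N A E c y q → H < N.d p q →
    N.d x p + N.d p q + N.d q y ≤ N.d x y + H
  qc : ∀ (c : G ⧸ E) (y y' w : G) (k : ℕ), y ∈ ax A E c → y' ∈ ax A E c →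
    N.d y w + N.d w y' ≤ N.d y y' + k → ∃ e : G, e ∈ ax A E c ∧ N.d w e ≤ H + 2 * k
  ov : ∀ c c' : G ⧸ E, c ≠ c' → ∀ z z' p p' : G, z ∈ ax A E c' → z' ∈ ax A E c' →
    NearA N A E c z p → NearA N A E c z' p' → N.d p p' ≤ H

/-- the constant of the projection family of a family of axes -/
def axH (δ cq th : ℕ) : ℕ := 4 * cq + 7 * δ + 12 + th

theorem AxS.pf {G : Type*} [Group G] {N : GNorm G} {A : Set G} {E : Subgroup G} {δ cq th : ℕ}
    (S : AxS N A E δ cq th) : PF N A E (axH δ cq th) := by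
  have hax : axH δ cq th = 4 * cq + 7 * δ + 12 + th := rfl
  refine ⟨S.ne, S.inv, fp_mono S.fp (by omega), ?_, ?_, ?_, ?_⟩
  · intro c x p y hp hy
    have := nearA_far S hp hy
    omega
  · intro c x y p q hp hq h
    have := nearA_two S hp hq (by omega)
    omega
  · intro c y y' w k hy hy' h
    obtain ⟨u, hu1, hu2⟩ := N.exists_btw y y' (t := min (N.d y w) (N.d y y')) (min_le_right _ _)
    obtain ⟨e, he, h1⟩ := qca_coset' S.inv S.qc hy hy' (q := u) (by unfold GNorm.Btw; omega)
    have h2 := GNorm.a2 S.fp (x := y) (y := y') (z := w) (z' := u) (c := k) (c' := 0) h (by omega)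
    have t1 := N.d_tri w u e
    refine ⟨e, he, ?_⟩
    omega
  · intro c c' hne z z' p p' hz hz' hp hp'
    have := S.proj c c' hne z z' p p' hz hz' hp hp'
    omega

namespace PF

variable {G : Type*} [Group G] {N : GNorm G} {A : Set G} {E : Subgroup G} {H : ℕ}

theorem mono (P : PF N A E H) {H' : ℕ} (h : H ≤ H') : PF N A E H' := by
  refine ⟨P.ne, P.inv, fp_mono P.fp h, ?_, ?_, ?_, ?_⟩
  · intro c x p y hp hy
    have := P.near_btw c x p y hp hy
    omega
  · intro c x y p q hp hq h1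
    have := P.near_two c x y p q hp hq (by omega)
    omega
  · intro c y y' w k hy hy' h1
    obtain ⟨e, he, h2⟩ := P.qc c y y' w k hy hy' h1
    exact ⟨e, he, by omega⟩
  · intro c c' hne z z' p p' hz hz' hp hp'
    have := P.ov c c' hne z z' p p' hz hz' hp hp'
    omega

/-- nearest points are coarsely Lipschitz -/
theorem lip (P : PF N A E H) {c : G ⧸ E} {x x' p p' : G} (hp : NearA N A E c x p)
    (hp' : NearA N A E c x' p') : N.d p p' ≤ N.d x x' + H := by
  by_contra h
  have := P.near_two c x x' p p' hp hp' (by omega)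
  omega

/-- Behrstock inequality for two axes -/
theorem beh (P : PF N A E H) {c c' : G ⧸ E} (hne : c ≠ c') {x n n' y0 z0 a b : G}
    (hn : NearA N A E c x n) (hn' : NearA N A E c' x n') (hy0 : y0 ∈ ax A E c)
    (hz0 : z0 ∈ ax A E c') (ha : NearA N A E c z0 a) (hb : NearA N A E c' y0 b) :
    N.d n a ≤ 3 * H ∨ N.d n' b ≤ 3 * H := by
  obtain ⟨a', ha'⟩ := exists_nearestA (N := N) P.ne c n'
  obtain ⟨b', hb'⟩ := exists_nearestA (N := N) P.ne c' a'
  have o1 := P.ov c c' hne n' z0 a' a hn'.1 hz0 ha' ha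
  have o2 := P.ov c' c (fun h => hne h.symm) a' y0 b' b ha'.1 hy0 hb' hb
  rcases Nat.lt_or_ge H (N.d n a') with h | h
  · rcases Nat.lt_or_ge H (N.d n' b') with h' | h'
    · have p1 := P.near_two c x n' n a' hn ha' h
      have p2 := P.near_two c' x a' n' b' hn' hb' h'
      have t1 := N.d_tri x n a'
      have t2 := N.d_tri n' b' b
      right
      omega
    · have t2 := N.d_tri n' b' b
      right
      omega
  · have t1 := N.d_tri n a' a
    left
    omega

/-- (OV') -/
theorem ov' (P : PF N A E H) {c c' : G ⧸ E} {y y' z z' : G} {k : ℕ}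
    (hy : y ∈ ax A E c) (hy' : y' ∈ ax A E c) (hz : z ∈ ax A E c')
    (hz' : z' ∈ ax A E c') (h1 : N.d y z ≤ k) (h2 : N.d y' z' ≤ k)
    (hfar : H + 4 * k < N.d y y') : c = c' := by
  by_contra hne
  obtain ⟨p, hp⟩ := exists_nearestA (N := N) P.ne c z
  obtain ⟨p', hp'⟩ := exists_nearestA (N := N) P.ne c z'
  have h3 := P.ov c c' hne z z' p p' hz hz' hp hp'
  have h4 := hp.2 y hy
  have h5 := hp'.2 y' hy'
  have t1 := N.d_tri y z p
  have t2 := N.d_tri y' z' p'
  have t3 := N.d_tri y p y'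
  have t4 := N.d_tri p p' y'
  have c1 := N.d_comm y z
  have c2 := N.d_comm y' z'
  have c3 := N.d_comm y' p'
  omega

end PF

section cosets

variable {G : Type*} [Group G] {N : GNorm G} {E : Subgroup G}

theorem mem_ax_coset {c : G ⧸ E} {p : G} : p ∈ ax (E : Set G) E c ↔ (p : G ⧸ E) = c := by
  constructor
  · rintro ⟨g, rfl, h⟩
    exact (QuotientGroup.eq.2 h).symm
  · rintro rfl
    exact ⟨p, rfl, by rw [inv_mul_cancel]; exact E.one_mem⟩

theorem near_coset {c : G ⧸ E} {x p : G} : NearA N (E : Set G) E c x p ↔ N.Near E c x p := by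
  constructor
  · rintro ⟨h1, h2⟩
    exact ⟨mem_ax_coset.1 h1, fun y hy => h2 y (mem_ax_coset.2 hy)⟩
  · rintro ⟨h1, h2⟩
    exact ⟨mem_ax_coset.2 h1, fun y hy => h2 y (mem_ax_coset.1 hy)⟩

/-- cosets of a quasiconvex subgroup with bounded projections -/
theorem pf_coset {δ cq th : ℕ} (hF : N.FP δ) (hq : N.QConv E cq) (hb : N.BProj E th) :
    PF N (E : Set G) E (axH δ cq th) := by
  have S : AxS N (E : Set G) E δ cq th := by
    refine ⟨⟨1, E.one_mem⟩, fun e he a ha => E.mul_mem he ha, hF, hq, ?_⟩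
    intro c c' hne z z' p p' hz hz' hp hp'
    exact hb c c' hne z z' p p' (mem_ax_coset.1 hz) (mem_ax_coset.1 hz') (near_coset.1 hp)
      (near_coset.1 hp')
  exact S.pf

end cosets

end Pool.Agent.Lib.MP_021282_al
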