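import Pool.Agent.Lib.MP_021282_al.PChain
import Pool.Agent.Lib.MP_021282_al.ASetup

/-! # The quotient by the relator of a periodic chain -/

set_option autoImplicit false

namespace Pool.Agent.Lib.MP_021282_al

open Pool.Agent.Lib.MP_bd8d5e_al

theorem bgM_lin (δ cq th : ℕ) : bgM δ cq th = bgM δ cq 0 + (4 * bgN δ cq + 4) * th := by
  unfold bgM bgP bgT
  ring

/-- `G / K` is hyperbolic -/
def HypQ {G : Type*} [Group G] (K : Subgroup G) [K.Normal] : Prop :=
  ∃ (N' : GNorm (G ⧸ K)) (δ' : ℕ), N'.FP δ' ∧ N'.FinBalls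

variable {G : Type*} [Group G] {N : GNorm G} {E : Subgroup G} {H B Λ M : ℕ} {v : G}
  {e f : ℤ → G}

/-- the relator subgroup -/
def relK (v : G) : Subgroup G := Subgroup.normalClosure ((Subgroup.zpowers v : Subgroup G) : Set G)

instance relK_normal (v : G) : (relK v).Normal := Subgroup.normalClosure_normal

theorem mem_relK (v : G) : v ∈ relK v :=
  Subgroup.subset_normalClosure (Subgroup.mem_zpowers v)

theorem relK_le {K0 : Subgroup G} [K0.Normal] (h : v ∈ K0) : relK v ≤ K0 := by
  apply Subgroup.normalClosure_le_normal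
  intro r hr
  obtain ⟨q, rfl⟩ := Subgroup.mem_zpowers_iff.1 hr
  exact K0.zpow_mem h q

namespace PChain

/-- the size condition on the constants -/
def Cst (H Λ : ℕ) : ℕ := 8 * bgM H (234 * H) (12 * Λ) + 2 * axH H (234 * H) (12 * Λ) + 119 * H + Λ

theorem setA (P : PF N (E : Set G) E H) (h : PChain N E H B Λ M v e f) (hH : 1 ≤ H)
    (hB : 1400 * H < B) (hfb : N.FinBalls) (htf : ∀ g : G, IsOfFinOrder g → g = 1) {L : ℕ}
    (hL : L + 340 * H = N.d (e 0) (e M)) (hbig : 100000 * Cst H Λ ≤ L) :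
    SetA N (axis N e) (Subgroup.zpowers v) (relK v) L (Cst H Λ) ∧ HypQ (relK v) := by
  set C := Cst H Λ with hC
  have hCd : C = 8 * bgM H (234 * H) (12 * Λ) + 2 * axH H (234 * H) (12 * Λ) + 119 * H + Λ := rfl
  have hax : axH H (234 * H) (12 * Λ) = 4 * (234 * H) + 7 * H + 12 + 12 * Λ := rfl
  have S := h.axS P hH hB hfb htf
  have Q := S.pf
  have hLr : ∀ r ∈ Subgroup.zpowers v, r ≠ 1 → ∀ a ∈ axis N e, L ≤ N.l (a⁻¹ * r * a) := by
    intro r hr h1 a ha
    have h2 := h.disp_pow P (by omega) hr h1 ha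
    have h3 : N.d a (r * a) = N.l (a⁻¹ * r * a) := by
      unfold GNorm.d
      rw [mul_assoc]
    omega
  have hLM : 20 * bgM H (234 * H) (12 * Λ) + 1 ≤ L := by omega
  have hRn : ∀ x ∈ Subgroup.zpowers v, ∀ r ∈ Subgroup.zpowers v,
      x * r * x⁻¹ ∈ Subgroup.zpowers v := fun x hx r hr => mul_mem (mul_mem hx hr) (inv_mem hx)
  have hKe : (spinA S (Subgroup.zpowers v) le_rfl hLr hLM).Kall = relK v :=
    KallA_eq S _ le_rfl hLr hLM hRn
  constructor
  · refine ⟨by omega, fp_mono P.fp (by omega), relK_normal v, axis_ne, Subgroup.subset_normalClosure,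
      hbig, (Q.mono (by omega)).near_btw, (Q.mono (by omega)).near_two, (Q.mono (by omega)).qc,
      (Q.mono (by omega)).ov, ?_, ?_⟩
    · intro c y y' s hy hy' hs hfar
      obtain ⟨g, rfl⟩ := QuotientGroup.mk_surjective c
      rw [mem_ax h.axis_inv] at hy hy'
      obtain ⟨r, hr, h1⟩ := h.rot P (by omega) (C := C) (L := L) (s := s) (by omega) hL (by omega)
        hy hy' hs (by rw [N.d_left]; exact hfar)
      refine ⟨g * r * g⁻¹, ?_, ?_, ?_⟩
      · exact (relK_normal v).conj_mem _ (Subgroup.subset_normalClosure hr) g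
      · show ((g * r * g⁻¹ * g : G) : G ⧸ Subgroup.zpowers v) = g
        rw [inv_mul_cancel_right]
        apply QuotientGroup.eq.2
        have e1 : (g * r)⁻¹ * g = r⁻¹ := by group
        rw [e1]
        exact inv_mem hr
      · have e1 : N.d y (g * r * g⁻¹ * y') = N.d (g⁻¹ * y) (r * (g⁻¹ * y')) := by
          rw [← N.d_left g (g⁻¹ * y), mul_inv_cancel_left]
          congr 1
          group
        rw [e1]
        rw [N.d_left] at h1
        exact h1
    · intro ν hν h1 x
      rw [← hKe] at hν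
      obtain ⟨c, p0, q0, hp0, hq0, h2⟩ := greendlinger_nearA S _ le_rfl hLr hLM hν h1 x
      refine ⟨c, fun p q hp hq => ?_⟩
      have h3 := Q.lip hp0 hp
      have h4 := Q.lip hq0 hq
      rw [N.d_self] at h3 h4
      have t1 := N.d_tri p0 p q0
      have t2 := N.d_tri p q q0
      have c1 := N.d_comm q q0
      omega
  · obtain ⟨F, hF, hcov⟩ := h.cover hfb
    have key : ∀ (K : Subgroup G) [K.Normal],
        (spinA S (Subgroup.zpowers v) le_rfl hLr hLM).Kall = K → HypQ K := by
      intro K hK e1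
      subst e1
      exact ⟨_, _, quotA_FP S _ le_rfl hLr hLM (hatA_FP P.fp S.qc),
        quotA_finBalls S _ le_rfl hLr hLM hfb F hF hcov hRn⟩
    exact key _ hKe

end PChain

end Pool.Agent.Lib.MP_021282_al
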