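import Pool.Agent.Lib.MP_021282_al.Word
import Pool.Agent.Lib.MP_021282_al.Comm

/-! # The step: one more relator -/

set_option autoImplicit false

namespace Pool.Agent.Lib.MP_021282_al

open Pool.Agent.Lib.MP_bd8d5e_al

variable {G : Type*} [Group G] {N : GNorm G} {δ : ℕ}

/-- one step of the construction -/
theorem step (hF : N.FP δ) (hfb : N.FinBalls) (htf : TF G) {u w : G} (huw : ¬ Commute u w)
    (h : G) {x : G} (hx : x ≠ 1) :
    ∃ (K : Subgroup G) (_ : K.Normal), HypQ K ∧ (∀ (z : G) (m : ℕ), m ≠ 0 → z ^ m ∈ K → z ∈ K) ∧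
      (∀ y : G, y * x * y⁻¹ * x⁻¹ ∈ K → ∃ ν ∈ K, Commute (ν * y) x) ∧
      (∃ z ∈ Subgroup.closure ({u, w} : Set G), z * h⁻¹ ∈ K) ∧
      (∀ K0 : Subgroup G, K0.Normal → u ∈ K0 → w ∈ K0 → h ∈ K0 → K ≤ K0) := by
  obtain ⟨p, j, hj, hl, hb⟩ := exists_pair hF hfb htf huw
  obtain ⟨H, B, Λ, M, v, e, f, P, hc, hH, hB, hR, hlen, z, hz, hv⟩ :=
    exists_pchain hF hfb hl hb (p⁻¹ * h * p) (N.l x)
  have hbig : 100000 * PChain.Cst H Λ ≤ N.d (e 0) (e M) - 340 * H := by omega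
  obtain ⟨S, hQ⟩ := hc.setA P hH hB hfb htf (L := N.d (e 0) (e M) - 340 * H) (by omega) hbig
  have hC1 := S.pos
  have hCΛ : Λ ≤ PChain.Cst H Λ := by
    unfold PChain.Cst
    omega
  have hd1 : N.d 1 (x * 1) = N.l x := by rw [mul_one, N.d_one]
  refine ⟨relK v, relK_normal v, hQ, fun z m hm hz => S.tf_quot htf hm hz, fun y hy => ?_, ?_,
    fun K0 hK0 h1 h2 h3 => ?_⟩
  · have hxK : x ∉ relK v := by
      intro hxK
      have := S.long hxK hx 1
      omega
    obtain ⟨ν, hν, h1⟩ := S.cent_lift (f := x) ⟨1, by omega⟩ hxK hy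
    exact ⟨ν, hν, h1⟩
  · refine ⟨p * z * p⁻¹, ?_, ?_⟩
    · have h1 : Subgroup.closure ({p⁻¹ * u ^ j * p, p⁻¹ * w * p} : Set G) ≤
          (Subgroup.closure ({u, w} : Set G)).comap (MulAut.conj p).toMonoidHom := by
        rw [Subgroup.closure_le]
        rintro y (rfl | rfl)
        · show p * (p⁻¹ * u ^ j * p) * p⁻¹ ∈ Subgroup.closure ({u, w} : Set G)
          have e1 : p * (p⁻¹ * u ^ j * p) * p⁻¹ = u ^ j := by group
          rw [e1]
          exact Subgroup.pow_mem _ (Subgroup.subset_closure (by simp)) _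
        · show p * (p⁻¹ * w * p) * p⁻¹ ∈ Subgroup.closure ({u, w} : Set G)
          have e1 : p * (p⁻¹ * w * p) * p⁻¹ = w := by group
          rw [e1]
          exact Subgroup.subset_closure (by simp)
      exact h1 hz
    · have e1 : p * z * p⁻¹ * h⁻¹ = p * v * p⁻¹ := by rw [hv]; group
      rw [e1]
      exact (relK_normal v).conj_mem _ (mem_relK v) p
  · apply relK_le
    rw [hv]
    have hconj : ∀ y ∈ K0, p⁻¹ * y * p ∈ K0 := by
      intro y hy
      have := hK0.conj_mem y hy p⁻¹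
      rwa [inv_inv] at this
    apply mul_mem _ (inv_mem (hconj h h3))
    have h4 : Subgroup.closure ({p⁻¹ * u ^ j * p, p⁻¹ * w * p} : Set G) ≤ K0 := by
      rw [Subgroup.closure_le]
      rintro y (rfl | rfl)
      · exact hconj _ (Subgroup.pow_mem _ h1 j)
      · exact hconj _ h2
    exact h4 hz

end Pool.Agent.Lib.MP_021282_al
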