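import Pool.Agent.Lib.MP_021282_al.PStep
import Pool.Agent.Lib.MP_bd8d5e_al.EProj

/-! # The relator words -/

set_option autoImplicit false

namespace Pool.Agent.Lib.MP_021282_al

open Pool.Agent.Lib.MP_bd8d5e_al

section word

variable {G : Type*} [Group G]

/-- partial products -/
def pp (s : ℕ → G) : ℕ → G
  | 0 => 1
  | n + 1 => pp s n * s n

/-- the vertices of the axis of the word `s 0 * ... * s (M - 1)` -/
def wE (s : ℕ → G) (M : ℕ) (k : ℤ) : G := (pp s M) ^ (k / M) * pp s (k % M).toNat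

theorem wE_at (s : ℕ → G) {M : ℕ} (hM : 0 < M) {r : ℕ} (hr : r ≤ M) (q : ℤ) :
    wE s M (r + M * q) = (pp s M) ^ q * pp s r := by
  have h0 : (0 : ℤ) < M := by omega
  rcases hr.lt_or_eq with h | h
  · obtain ⟨h1, h2⟩ := (Int.ediv_emod_unique (a := (r : ℤ) + M * q) (r := r) (q := q) h0).2
      ⟨rfl, by omega, by omega⟩
    unfold wE
    rw [h1, h2, Int.toNat_natCast]
  · subst h
    obtain ⟨h1, h2⟩ := (Int.ediv_emod_unique (a := (r : ℤ) + r * q) (r := 0) (q := q + 1) h0).2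
      ⟨by ring, by omega, by omega⟩
    unfold wE
    rw [h1, h2]
    show pp s r ^ (q + 1) * pp s 0 = _
    rw [show pp s 0 = 1 from rfl, mul_one, zpow_add_one]

theorem wE_dec {M : ℕ} (hM : 0 < M) (k : ℤ) :
    ∃ (r : ℕ) (q : ℤ), r < M ∧ k = r + M * q ∧ (k % M).toNat = r := by
  have h1 := Int.emod_nonneg k (show (M : ℤ) ≠ 0 by omega)
  have h2 := Int.emod_lt_of_pos k (show (0 : ℤ) < M by omega)
  have h3 := Int.emod_add_mul_ediv k M
  exact ⟨(k % M).toNat, k / M, by omega, by omega, rfl⟩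

theorem wE_succ (s : ℕ → G) {M : ℕ} (hM : 0 < M) (k : ℤ) :
    wE s M (k + 1) = wE s M k * s (k % M).toNat := by
  obtain ⟨r, q, hr, hk, hr'⟩ := wE_dec hM k
  rw [hr', hk]
  have e1 : (r : ℤ) + M * q + 1 = ((r + 1 : ℕ) : ℤ) + M * q := by push_cast; ring
  rw [e1, wE_at s hM (by omega), wE_at s hM (by omega), mul_assoc]
  rfl

theorem wE_per (s : ℕ → G) {M : ℕ} (hM : 0 < M) (k : ℤ) : wE s M (k + M) = pp s M * wE s M k := by
  obtain ⟨r, q, hr, hk, hr'⟩ := wE_dec hM k
  rw [hk]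
  have e1 : (r : ℤ) + M * q + M = r + M * (q + 1) := by ring
  rw [e1, wE_at s hM (by omega), wE_at s hM (by omega), add_comm q 1, zpow_one_add, mul_assoc]

theorem pp_mem {S : Subgroup G} (s : ℕ → G) (n : ℕ) (h : ∀ i < n, s i ∈ S) : pp s n ∈ S := by
  induction n with
  | zero => exact S.one_mem
  | succ n ih => exact S.mul_mem (ih fun i hi => h i (by omega)) (h n (by omega))

end word

variable {G : Type*} [Group G] {N : GNorm G} {δ : ℕ}

/-- the length of a power in the exponent -/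
theorem l_pow_mono (hF : N.FP δ) {a : G} (ha : N.Lox δ a) (m k : ℕ) :
    N.l (a ^ m) + k ≤ N.l (a ^ (m + k)) + 10 * δ := by
  have h1 := GNorm.Lox.add hF ha m k
  have h2 := GNorm.Lox.le hF ha k
  omega

/-- the chain of the word `a^(n 0) t 0 a^(n 1) t 1 ...` -/
theorem word_chain (hF : N.FP δ) {a : G} (ha : N.Lox δ a) {H M m D : ℕ} (hM : 3 ≤ M)
    (hD : 20 * H + 10 * δ < D) (t : ℕ → G) (ht : ∀ r < M, t r ∉ EE a)
    (htl : ∀ r < M, N.l (t r) ≤ H) (hm : M * D * N.l a + H ≤ N.l (a ^ m)) :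
    PChain N (EE a) H (N.l (a ^ m) - 10 * δ) (2 * N.l (a ^ m)) M
      (pp (fun r => a ^ (m + r * D) * t r) M) (wE (fun r => a ^ (m + r * D) * t r) M)
      (fun k => wE (fun r => a ^ (m + r * D) * t r) M k * a ^ (m + (k % M).toNat * D)) := by
  set s : ℕ → G := fun r => a ^ (m + r * D) * t r with hs
  have hM0 : 0 < M := by omega
  have hup : ∀ r < M, N.l (a ^ (m + r * D)) + H ≤ 2 * N.l (a ^ m) := by
    intro r hr
    have h1 := N.l_mul (a ^ m) (a ^ (r * D))
    rw [← pow_add] at h1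
    have h2 := GNorm.l_pow_le N a (r * D)
    have h3 : r * D * N.l a ≤ M * D * N.l a := by
      apply Nat.mul_le_mul_right
      exact Nat.mul_le_mul_right _ hr.le
    omega
  have hdec : ∀ k : ℤ, (k % M).toNat < M := by
    intro k
    obtain ⟨r, q, hr, hk, hr'⟩ := wE_dec hM0 k
    rw [hr']
    exact hr
  have hd : ∀ x y : G, N.d x (x * y) = N.l y := by
    intro x y
    unfold GNorm.d
    rw [inv_mul_cancel_left]
  have hapow : ∀ n : ℕ, a ^ n ∈ EE a := fun n =>
    Subgroup.pow_mem _ (self_mem_EE a) n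
  refine ⟨⟨fun k => ?_, fun k => ?_, fun k => ?_, fun k => ?_⟩, fun k => ?_, fun k => ?_,
    fun k => ?_, fun i j h1 h2 => ?_, hM⟩
  · -- same
    apply QuotientGroup.eq.2
    have e1 : (wE s M k * a ^ (m + (k % M).toNat * D))⁻¹ * wE s M k =
        (a ^ (m + (k % M).toNat * D))⁻¹ := by group
    rw [e1]
    exact inv_mem (hapow _)
  · -- next
    intro h1
    rw [wE_succ s hM0] at h1
    have h2 := QuotientGroup.eq.1 h1
    have e1 : (wE s M k * s (k % M).toNat)⁻¹ * wE s M k = (s (k % M).toNat)⁻¹ := by group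
    rw [e1, inv_mem_iff] at h2
    exact ht _ (hdec k) ((Subgroup.mul_mem_cancel_left _ (hapow _)).1 h2)
  · -- short
    rw [wE_succ s hM0]
    show N.d (wE s M k * a ^ (m + (k % M).toNat * D))
      (wE s M k * (a ^ (m + (k % M).toNat * D) * t (k % M).toNat)) ≤ H
    rw [← mul_assoc, hd]
    exact htl _ (hdec k)
  · -- long
    show N.l (a ^ m) - 10 * δ ≤ N.d (wE s M k) (wE s M k * a ^ (m + (k % M).toNat * D))
    rw [hd]
    have := l_pow_mono hF ha m ((k % M).toNat * D)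
    omega
  · exact wE_per s hM0 k
  · show wE s M (k + M) * a ^ (m + ((k + M) % M).toNat * D) = _
    rw [wE_per s hM0, Int.add_emod_right, mul_assoc]
  · -- side
    rw [wE_succ s hM0, hd]
    have h1 := N.l_mul (a ^ (m + (k % M).toNat * D)) (t (k % M).toNat)
    have h2 := htl _ (hdec k)
    have h3 := hup _ (hdec k)
    show N.l (a ^ (m + (k % M).toNat * D) * t (k % M).toNat) ≤ _
    omega
  · -- separation
    have h1' : N.d (wE s M i) (wE s M i * a ^ (m + (i % M).toNat * D)) ≤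
      N.d (wE s M j) (wE s M j * a ^ (m + (j % M).toNat * D)) + 20 * H := h1
    have h2' : N.d (wE s M j) (wE s M j * a ^ (m + (j % M).toNat * D)) ≤
      N.d (wE s M i) (wE s M i * a ^ (m + (i % M).toNat * D)) + 20 * H := h2
    rw [hd, hd] at h1' h2'
    obtain ⟨r, q, hr, hi, hr'⟩ := wE_dec hM0 i
    obtain ⟨r2, q2, hr2, hj, hr2'⟩ := wE_dec hM0 j
    rw [hr', hr2'] at h1' h2'
    have key : ∀ r r2 : ℕ, r < r2 → N.l (a ^ (m + r2 * D)) ≤ N.l (a ^ (m + r * D)) + 20 * H →
        False := by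
      intro r r2 h3 h4
      obtain ⟨c, rfl⟩ := Nat.exists_eq_add_of_lt h3
      have h5 := l_pow_mono hF ha (m + r * D) ((c + 1) * D)
      have e1 : m + r * D + (c + 1) * D = m + (r + c + 1) * D := by ring
      rw [e1] at h5
      have h6 : D ≤ (c + 1) * D := Nat.le_mul_of_pos_left D (by omega)
      omega
    have heq : r = r2 := by
      rcases lt_trichotomy r r2 with h3 | h3 | h3
      · exact (key r r2 h3 h2').elim
      · exact h3
      · exact (key r2 r h3 h1').elim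
    rw [hi, hj, heq]
    exact ⟨q - q2, by ring⟩

/-- the size constant is affine -/
theorem Cst_lin (H : ℕ) : ∃ κ0 κ1 : ℕ, ∀ Λ, PChain.Cst H Λ = κ0 + κ1 * Λ := by
  refine ⟨8 * bgM H (234 * H) 0 + 2 * (4 * (234 * H) + 7 * H + 12) + 119 * H,
    96 * (4 * bgN H (234 * H) + 4) + 25, fun Λ => ?_⟩
  unfold PChain.Cst
  rw [bgM_lin]
  unfold axH
  ring

/-- existence of relators that put `h` into the subgroup generated by `a` and `b` -/
theorem exists_pchain (hF : N.FP δ) (hfb : N.FinBalls) {a b : G} (ha : N.Lox δ a)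
    (hb : b ∉ EE a) (h : G) (R : ℕ) :
    ∃ (H B Λ M : ℕ) (v : G) (e f : ℤ → G), PF N (EE a : Set G) (EE a) H ∧
      PChain N (EE a) H B Λ M v e f ∧ 1 ≤ H ∧ 1400 * H < B ∧ R ≤ Λ ∧
      100000 * PChain.Cst H Λ + 340 * H ≤ N.d (e 0) (e M) ∧
      ∃ z ∈ Subgroup.closure ({a, b} : Set G), v = z * h⁻¹ := by
  classical
  obtain ⟨th, hth⟩ := GNorm.Lox.bproj hfb hF ha
  set H := axH δ (N.qcc δ a) th + 2 * N.l b + N.l h with hH
  have hax : axH δ (N.qcc δ a) th = 4 * N.qcc δ a + 7 * δ + 12 + th := rfl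
  have P : PF N (EE a : Set G) (EE a) H :=
    (pf_coset hF (GNorm.Lox.qconv hF ha) hth).mono (by omega)
  -- the last syllable
  obtain ⟨i, hi1, hi2⟩ : ∃ i : ℕ, i ≤ 2 ∧ b ^ i * h⁻¹ ∉ EE a := by
    by_contra hcon
    push Not at hcon
    have h1 := hcon 1 (by omega)
    have h2 := hcon 2 (by omega)
    apply hb
    have e1 : b = (b ^ 2 * h⁻¹) * (b ^ 1 * h⁻¹)⁻¹ := by group
    rw [e1]
    exact mul_mem h2 (inv_mem h1)
  obtain ⟨κ0, κ1, hκ⟩ := Cst_lin H
  set M := 2 * (1 + 100000 * (1 + 2 * κ1)) with hM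
  set D := 20 * H + 10 * δ + 1 with hD
  set m := M * D * N.l a + κ0 + 3000 * H + 40 * δ + R + 1 with hm
  have hml := GNorm.Lox.le hF ha m
  set t : ℕ → G := fun r => if r + 1 = M then b ^ i * h⁻¹ else b with ht
  have hbl : N.l (b ^ i * h⁻¹) ≤ H := by
    have h1 := N.l_mul (b ^ i) h⁻¹
    rw [N.l_inv] at h1
    have h2 := GNorm.l_pow_le N b i
    have h3 : i * N.l b ≤ 2 * N.l b := Nat.mul_le_mul_right _ hi1
    omega
  have hc := word_chain (N := N) hF ha (H := H) (M := M) (m := m) (D := D) (by omega) (by omega) t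
    (by
      intro r hr
      show (if r + 1 = M then b ^ i * h⁻¹ else b) ∉ EE a
      split_ifs
      · exact hi2
      · exact hb)
    (by
      intro r hr
      show N.l (if r + 1 = M then b ^ i * h⁻¹ else b) ≤ H
      split_ifs
      · exact hbl
      · omega)
    (by omega)
  refine ⟨H, _, _, M, _, _, _, P, hc, by omega, by omega, by omega, ?_, ?_⟩
  · have h1 := hc.long_v P (by omega)
    refine le_trans ?_ h1
    rw [hκ]
    have h2 : N.l (a ^ m) ≤ 2 * (N.l (a ^ m) - 10 * δ - 22 * H) := by omega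
    have h3 : (1 + 100000 * (1 + 2 * κ1)) * N.l (a ^ m) ≤
        M * (N.l (a ^ m) - 10 * δ - 22 * H) := by
      calc (1 + 100000 * (1 + 2 * κ1)) * N.l (a ^ m)
          ≤ (1 + 100000 * (1 + 2 * κ1)) * (2 * (N.l (a ^ m) - 10 * δ - 22 * H)) :=
            Nat.mul_le_mul_left _ h2
        _ = M * (N.l (a ^ m) - 10 * δ - 22 * H) := by rw [hM]; ring
    refine le_trans ?_ h3
    have e1 : (1 + 100000 * (1 + 2 * κ1)) * N.l (a ^ m) =
        N.l (a ^ m) + 100000 * N.l (a ^ m) + 100000 * (κ1 * (2 * N.l (a ^ m))) := by ring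
    rw [e1]
    omega
  · obtain ⟨M', hM'⟩ : ∃ M', M = M' + 1 := ⟨M - 1, by omega⟩
    have haS : a ∈ Subgroup.closure ({a, b} : Set G) := Subgroup.subset_closure (by simp)
    have hbS : b ∈ Subgroup.closure ({a, b} : Set G) := Subgroup.subset_closure (by simp)
    refine ⟨pp (fun r => a ^ (m + r * D) * t r) M' * (a ^ (m + M' * D) * b ^ i), ?_, ?_⟩
    · apply mul_mem
      · apply pp_mem
        intro r hr
        apply mul_mem (Subgroup.pow_mem _ haS _)
        show (if r + 1 = M then b ^ i * h⁻¹ else b) ∈ _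
        rw [if_neg (by omega)]
        exact hbS
      · exact mul_mem (Subgroup.pow_mem _ haS _) (Subgroup.pow_mem _ hbS _)
    · rw [hM']
      show pp (fun r => a ^ (m + r * D) * t r) M' * (a ^ (m + M' * D) *
        (if M' + 1 = M then b ^ i * h⁻¹ else b)) = _
      rw [if_pos hM'.symm]
      group

end Pool.Agent.Lib.MP_021282_al
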